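import Pool.Agent.Lib.MP_8b1d3b_lc.CD.Defs

/-! Euler derivation, cones, units and exponentials in the subset convolution algebra. -/

namespace Pool.Agent.Lib.MP_8b1d3b_lc.CD

open Finset

variable {ι K : Type} [DecidableEq ι] [Field K]

theorem mul_empty (f g : SQ ι K) : (f * g) ∅ = f ∅ * g ∅ := by
  simp [SQ.mul_apply]

omit [DecidableEq ι] in
theorem eul_empty (g : SQ ι K) : eul g ∅ = 0 := by
  simp [eul]

theorem eul_add (f g : SQ ι K) : eul (f + g) = eul f + eul g :=
  SQ.ext fun _ => mul_add _ _ _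

theorem eul_algebraMap (c : K) : eul (algebraMap K (SQ ι K) c) = 0 := by
  ext s
  by_cases h : s = ∅ <;> simp [eul, SQ.algebraMap_apply, h]

theorem eul_mul (f g : SQ ι K) : eul (f * g) = eul f * g + f * eul g := by
  ext t
  simp only [eul, SQ.add_apply, SQ.mul_apply, mul_sum, ← sum_add_distrib]
  refine sum_congr rfl fun s hs => ?_
  rw [← card_sdiff_add_card_eq_card (mem_powerset.1 hs), Nat.cast_add]
  ring

theorem eq_add_ieul_eul [CharZero K] (g : SQ ι K) :
    g = algebraMap K (SQ ι K) (g ∅) + ieul (eul g) := by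
  ext s
  by_cases h : s = ∅ <;> simp [eul, ieul, SQ.algebraMap_apply, h]

omit [DecidableEq ι] in
theorem eul_ieul [CharZero K] {g : SQ ι K} (h : g ∅ = 0) : eul (ieul g) = g := by
  ext s
  rcases eq_or_ne s ∅ with rfl | hs
  · simp [eul, h]
  · simp [eul, ieul, hs]

theorem alg_eul_pow {g S : SQ ι K} (h : eul g = g * S) (n : ℕ) :
    eul (g ^ n) = g ^ n * (n : K) • S := by
  induction n with
  | zero => simpa using eul_algebraMap (ι := ι) (1 : K)
  | succ n ih =>
    rw [pow_succ, eul_mul, ih, h, Nat.cast_succ, add_smul, one_smul]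
    ring

theorem eul_prod_pow {κ : Type} (T : Finset κ) (g S : κ → SQ ι K) (e : κ → ℕ)
    (h : ∀ j ∈ T, eul (g j) = g j * S j) :
    eul (∏ j ∈ T, g j ^ e j) = (∏ j ∈ T, g j ^ e j) * ∑ j ∈ T, (e j : K) • S j := by
  induction T using Finset.cons_induction with
  | empty => simpa using eul_algebraMap (ι := ι) (1 : K)
  | cons j T hj ih =>
    rw [prod_cons, sum_cons, eul_mul, alg_eul_pow (h j (mem_cons_self _ _)),
      ih fun i hi => h i (mem_cons_of_mem hi)]
    ring

variable {ψ : ι → ℝ}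

theorem Cone.one : Cone ψ (1 : SQ ι K) := fun s hs => by
  obtain rfl : s = ∅ := by_contra fun h => hs (if_neg h)
  simp

theorem Cone.add {f g : SQ ι K} (hf : Cone ψ f) (hg : Cone ψ g) : Cone ψ (f + g) := fun s hs =>
  (em (f s = 0)).elim (fun h => hg s (by simpa [h] using hs)) (hf s)

theorem Cone.smul (c : K) {f : SQ ι K} (hf : Cone ψ f) : Cone ψ (c • f) := fun s hs =>
  hf s (right_ne_zero_of_mul hs)

theorem Cone.mul {f g : SQ ι K} (hf : Cone ψ f) (hg : Cone ψ g) : Cone ψ (f * g) := fun t ht => by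
  obtain ⟨s, hs, h⟩ := exists_ne_zero_of_sum_ne_zero ht
  rw [← sum_sdiff (mem_powerset.1 hs)]
  exact add_nonpos (hg _ (right_ne_zero_of_mul h)) (hf _ (left_ne_zero_of_mul h))

theorem Cone.pow {f : SQ ι K} (hf : Cone ψ f) (k : ℕ) : Cone ψ (f ^ k) := by
  induction k with
  | zero => exact pow_zero f ▸ Cone.one
  | succ k ih => exact pow_succ f k ▸ ih.mul hf

omit [DecidableEq ι] in
theorem Cone.eul {f : SQ ι K} (hf : Cone ψ f) : Cone ψ (eul f) := fun s hs =>
  hf s (right_ne_zero_of_mul hs)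

omit [DecidableEq ι] in
theorem Cone.ieul {f : SQ ι K} (hf : Cone ψ f) : Cone ψ (ieul f) := fun s hs =>
  hf s (right_ne_zero_of_mul hs)

theorem pow_apply_eq_zero {x : SQ ι K} (hx : x ∅ = 0) (k : ℕ) (s : Finset ι) (h : s.card < k) :
    (x ^ k) s = 0 := by
  induction k generalizing s with
  | zero => omega
  | succ k ih =>
    rw [pow_succ, SQ.mul_apply]
    refine sum_eq_zero fun r hr => ?_
    rcases (mem_powerset.1 hr).eq_or_ssubset with rfl | h1
    · rw [sdiff_self, bot_eq_empty, hx, mul_zero]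
    · rw [ih r (by have := card_lt_card h1; omega), zero_mul]

/-- `mul_neg_geom_sum` and `x ^ (card ι + 1) = 0`. -/
theorem geom [Fintype ι] {x : SQ ι K} (hx : x ∅ = 0) :
    (1 - x) * ∑ k ∈ range (Fintype.card ι + 1), x ^ k = 1 := by
  have h : x ^ (Fintype.card ι + 1) = 0 := SQ.ext fun s =>
    pow_apply_eq_zero hx _ s (Nat.lt_succ_of_le (card_le_univ s))
  rw [mul_neg_geom_sum, h, sub_zero]

theorem isUnit_of [Fintype ι] {g : SQ ι K} (h : g ∅ ≠ 0) : IsUnit g := by
  have h1 := geom (x := 1 - (g ∅)⁻¹ • g) (by simp [SQ.one_apply, h])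
  rw [sub_sub_cancel, smul_mul_assoc, ← mul_smul_comm] at h1
  exact IsUnit.of_mul_eq_one _ h1

theorem exists_exp_aux {S : SQ ι K} (h0 : S ∅ = 0) (k : ℕ) : ∀ s : Finset ι, s.card ≤ k →
    ((fun α : SQ ι K => 1 + ieul (α * S))^[k + 1] 1 : SQ ι K) s =
      ((fun α : SQ ι K => 1 + ieul (α * S))^[k] 1 : SQ ι K) s := by
  induction k with
  | zero =>
    intro s hs
    obtain rfl : s = ∅ := card_eq_zero.1 (Nat.le_zero.1 hs)
    simp [ieul]
  | succ k ih =>
    intro s hs
    rw [Function.iterate_succ_apply' _ (k + 1)]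
    conv_rhs => rw [Function.iterate_succ_apply' _ k]
    simp only [SQ.add_apply, ieul, SQ.mul_apply]
    congr 2
    refine sum_congr rfl fun r hr => ?_
    rcases (mem_powerset.1 hr).eq_or_ssubset with rfl | h
    · rw [sdiff_self, bot_eq_empty, h0, mul_zero, mul_zero]
    · rw [ih r (by have := card_lt_card h; omega)]

/-- Iterate `α ↦ 1 + ieul (α * S)` from `1`: the `k`-th and the next iterate agree on subsets of
size at most `k` (as `S ∅ = 0`), so the iterate number `card ι` is a fixed point. -/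
theorem exists_exp [Fintype ι] [CharZero K] {S : SQ ι K} (h0 : S ∅ = 0) (hS : Cone ψ S) :
    ∃ α : SQ ι K, Cone ψ α ∧ α ∅ = 1 ∧ eul α = α * S := by
  have hc : ∀ k, Cone ψ ((fun α : SQ ι K => 1 + ieul (α * S))^[k] 1) := by
    intro k
    induction k with
    | zero => exact Cone.one
    | succ k ih =>
      rw [Function.iterate_succ_apply']
      exact Cone.one.add (ih.mul hS).ieul
  have hf : (fun α : SQ ι K => 1 + ieul (α * S))^[Fintype.card ι + 1] 1 =
      (fun α : SQ ι K => 1 + ieul (α * S))^[Fintype.card ι] 1 :=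
    SQ.ext fun s => exists_exp_aux h0 _ s (card_le_univ s)
  rw [Function.iterate_succ_apply'] at hf
  refine ⟨_, hc (Fintype.card ι), ?_, ?_⟩
  · rw [← hf]
    simp [ieul, SQ.one_apply]
  · generalize (fun α : SQ ι K => 1 + ieul (α * S))^[Fintype.card ι] 1 = α at hf
    have h1 : eul (1 : SQ ι K) = 0 := by simpa using eul_algebraMap (ι := ι) (1 : K)
    conv_lhs => rw [← hf]
    rw [eul_add, h1, zero_add, eul_ieul (by rw [mul_empty, h0, mul_zero])]

theorem prod_shift_aux1 (f : SQ ι K) (i : ι) (u : Finset ι) :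
    (f * var i : SQ ι K) u = if i ∈ u then f (u.erase i) else 0 := by
  rw [mul_comm, SQ.mul_apply]
  simp only [var, ite_mul, one_mul, zero_mul, sum_ite_eq', mem_powerset, singleton_subset_iff,
    sdiff_singleton_eq_erase]

theorem prod_shift_aux2 (a : ι → K) (s : Finset ι) : ∀ u : Finset ι,
    (∏ i ∈ s, (algebraMap K (SQ ι K) (a i) + var i) : SQ ι K) u =
      if u ⊆ s then ∏ i ∈ s \ u, a i else 0 := by
  induction s using Finset.induction_on with
  | empty =>
    intro u
    simp [SQ.one_apply]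
  | insert j s hj ih =>
    intro u
    rw [prod_insert hj, mul_comm, mul_add, mul_comm _ (algebraMap K (SQ ι K) (a j)),
      ← Algebra.smul_def, SQ.add_apply, SQ.smul_apply, prod_shift_aux1, ih, ih]
    by_cases hu : j ∈ u
    · have h1 : ¬ u ⊆ s := fun h => hj (h hu)
      have h2 : s \ u.erase j = insert j s \ u := by
        ext x
        simp only [mem_sdiff, mem_erase, mem_insert]
        constructor
        · rintro ⟨h3, h4⟩
          exact ⟨Or.inr h3, fun h5 => h4 ⟨fun e => hj (e ▸ h3), h5⟩⟩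
        · rintro ⟨rfl | h3, h4⟩
          · exact absurd hu h4
          · exact ⟨h3, fun h5 => h4 h5.2⟩
      rw [if_neg h1, if_pos hu, mul_zero, zero_add, h2]
      simp only [subset_insert_iff]
    · rw [if_neg hu, add_zero]
      simp only [subset_insert_iff_of_notMem hu]
      split_ifs with h
      · rw [insert_sdiff_of_notMem _ hu, prod_insert fun h => hj (mem_sdiff.1 h).1]
      · rw [mul_zero]

/-- Induction on `s` for the formula: the value at `u` is `∏ i ∈ s \ u, a i` if `u ⊆ s`, else `0`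
(`(f * var i) u = if i ∈ u then f (u.erase i) else 0`). -/
theorem prod_shift (a : ι → K) (s u : Finset ι) (h : u.card = s.card) :
    (∏ i ∈ s, (algebraMap K (SQ ι K) (a i) + var i) : SQ ι K) u = if u = s then 1 else 0 := by
  rw [prod_shift_aux2]
  by_cases e : u = s
  · subst e
    simp
  · rw [if_neg e, if_neg fun h1 => e (eq_of_subset_of_card_le h1 h.ge)]

end Pool.Agent.Lib.MP_8b1d3b_lc.CD
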