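import Pool.Agent.Lib.MP_8b1d3b_lc.CD.Gate

/-! Induction on the product depth. -/

namespace Pool.Agent.Lib.MP_8b1d3b_lc.CD

open Finset

variable {ι K : Type} [DecidableEq ι] [Fintype ι] [Field K] [CharZero K] {ω : ι → ℝ} {e₀ : ℕ × ℝ}

omit [Fintype ι] [CharZero K] in
theorem circ_hi_add (k : ℕ) (f g : SQ ι K) : hi k (f + g) = hi k f + hi k g := by
  ext s
  by_cases h : k ≤ s.card
  · simp [hi, res_pos (p := fun s : Finset ι => k ≤ s.card) _ h]
  · simp [hi, res_neg (p := fun s : Finset ι => k ≤ s.card) _ h]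

omit [Fintype ι] [CharZero K] in
theorem circ_hi_smul (k : ℕ) (c : K) (f : SQ ι K) : hi k (c • f) = c • hi k f := by
  ext s
  by_cases h : k ≤ s.card
  · simp [hi, res_pos (p := fun s : Finset ι => k ≤ s.card) _ h]
  · simp [hi, res_neg (p := fun s : Finset ι => k ≤ s.card) _ h]

omit [Fintype ι] [CharZero K] in
theorem circ_hi_zero (k : ℕ) : hi k (0 : SQ ι K) = 0 := by
  ext s
  by_cases h : k ≤ s.card
  · simp [hi, res_pos (p := fun s : Finset ι => k ≤ s.card) _ h]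
  · simp [hi, res_neg (p := fun s : Finset ι => k ≤ s.card) _ h]

omit [Fintype ι] [CharZero K] in
theorem circ_hi_sum {κ : Type} (k : ℕ) (T : Finset κ) (f : κ → SQ ι K) :
    hi k (∑ j ∈ T, f j) = ∑ j ∈ T, hi k (f j) := by
  classical
  induction T using Finset.induction_on with
  | empty => simp [circ_hi_zero]
  | insert a T ha ih => rw [sum_insert ha, sum_insert ha, circ_hi_add, ih]

omit [Fintype ι] [CharZero K] in
theorem circ_hi_of_two {k : ℕ} (hk : 2 ≤ k) {l : SQ ι K} (h : hi 2 l = 0) : hi k l = 0 := by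
  ext s
  by_cases h1 : k ≤ s.card
  · have h2 : (hi 2 l : SQ ι K) s = 0 := by rw [h]; rfl
    rw [hi, res_pos (p := fun s : Finset ι => 2 ≤ s.card) _ (hk.trans h1)] at h2
    simp [hi, res_pos (p := fun s : Finset ι => k ≤ s.card) _ h1, h2]
  · simp [hi, res_neg (p := fun s : Finset ι => k ≤ s.card) _ h1]

omit [Fintype ι] [CharZero K] in
theorem circ_hi_one : hi 2 (1 : SQ ι K) = 0 := by
  ext s
  by_cases h1 : 2 ≤ s.card
  · have : s ≠ ∅ := by rintro rfl; simp at h1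
    simp [hi, res_pos (p := fun s : Finset ι => 2 ≤ s.card) _ h1, SQ.one_apply, this]
  · simp [hi, res_neg (p := fun s : Finset ι => 2 ≤ s.card) _ h1]

omit [Fintype ι] [CharZero K] in
theorem circ_normal {m : ℕ} (G : Fin m → SQ ι K) (δ : Fin m → ℕ) (P : Fin m → Prop)
    (hG : ∀ i, hi 2 (G i) = 0 ∨
      (∃ a : Fin m → K, (∀ j, a j ≠ 0 → j < i ∧ δ j ≤ δ i) ∧ G i = ∑ j, a j • G j) ∨ P i)
    (i : Fin m) : ∃ (l : SQ ι K) (a : Fin m → K), hi 2 l = 0 ∧
      (∀ j, a j ≠ 0 → P j ∧ δ j ≤ δ i) ∧ G i = l + ∑ j, a j • G j := by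
  induction i using WellFoundedLT.induction with
  | ind i ih =>
    rcases hG i with h | ⟨a, ha, h⟩ | h
    · exact ⟨G i, 0, h, fun j hj => (hj rfl).elim, by simp⟩
    · have h1 : ∀ j, ∃ (l : SQ ι K) (b : Fin m → K), hi 2 l = 0 ∧
          (∀ t, b t ≠ 0 → P t ∧ δ t ≤ δ i) ∧ a j • G j = l + ∑ t, b t • G t := fun j => by
        by_cases hj : a j = 0
        · exact ⟨0, 0, circ_hi_zero 2, fun t ht => (ht rfl).elim, by simp [hj]⟩
        · obtain ⟨l, b, h1, h2, h3⟩ := ih j (ha j hj).1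
          refine ⟨a j • l, fun t => a j * b t, by rw [circ_hi_smul, h1, smul_zero], fun t ht => ?_,
            ?_⟩
          · have := h2 t (right_ne_zero_of_mul ht)
            exact ⟨this.1, this.2.trans (ha j hj).2⟩
          · conv_lhs => rw [h3]
            simp only [smul_add, smul_sum, mul_smul]
      choose l b h2 h3 h4 using h1
      refine ⟨∑ j, l j, fun t => ∑ j, b j t, by simp [circ_hi_sum, h2], fun t ht => ?_, ?_⟩
      · obtain ⟨j, -, hj⟩ := exists_ne_zero_of_sum_ne_zero ht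
        exact h3 j t hj
      · conv_lhs => rw [h]
        simp only [h4, sum_add_distrib, sum_smul]
        rw [sum_comm]
    · refine ⟨0, Pi.single i 1, circ_hi_zero 2, fun j hj => ?_, by simp [Pi.single_apply]⟩
      obtain rfl : j = i := by
        by_contra hne
        exact hj (Pi.single_eq_of_ne hne _)
      exact ⟨h, le_rfl⟩

/-- First, by strong induction on `i`, each `G i` is `l + ∑ j, a j • G j` with `hi 2 l = 0` and
`a j ≠ 0` only for product gates `j` with `δ j ≤ δ i`.  Then induction on `k`: a product gate of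
depth at most `k + 1` is zero or a product of units of depth at most `k`; use `logder` with
thresholds `x (2 k + 1)`, `x (2 k)`, `eul_prod_pow`, and `solve` with `x (2 k + 2)`, `x (2 k + 1)`. -/
theorem circ {m : ℕ} (G : Fin m → SQ ι K) (δ : Fin m → ℕ) (hU : ∀ i, G i = 0 ∨ G i ∅ ≠ 0)
    (hG : ∀ i, hi 2 (G i) = 0 ∨
      (∃ a : Fin m → K, (∀ j, a j ≠ 0 → j < i ∧ δ j ≤ δ i) ∧ G i = ∑ j, a j • G j) ∨
      ∃ e : Fin m → ℕ, (∀ j, e j ≠ 0 → j < i ∧ δ j < δ i) ∧ G i = ∏ j, G j ^ e j)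
    (x : ℕ → ℕ) (η : ℕ → ℝ) (Δ : ℕ) {Γ : ℝ} (hx : ∀ j, 2 ≤ x j) (hη : ∀ j, 0 ≤ η j)
    (hd : ∀ j < 2 * Δ, Dich ω (x j) (η j)) (hΓ : ∀ j < 2 * Δ, Γ ≤ η j * x (j + 1) / 2)
    (hD : (dgs ω).card ≤ (Fintype.card ι + 1) ^ 2) (he : 0 ≤ e₀.2) (k : ℕ) (hk : k ≤ Δ)
    (i : Fin m) (hik : δ i ≤ k) :
    Sm ω e₀ (hi (x (2 * k)) (G i))
      (((5 * m ^ 2 * (Fintype.card ι + 1) ^ 8 : ℝ) ^ k - 1) * (Real.exp (e₀.2 - Γ) * ZZ ω)) := by
  classical
  have hN := circ_normal G δ _ hG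
  have hlin : ∀ (κ : ℕ) (ν : ℝ) (t : ℕ), 2 ≤ κ → 0 ≤ ν →
      (∀ j, (∃ e : Fin m → ℕ, (∀ l, e l ≠ 0 → l < j ∧ δ l < δ j) ∧ G j = ∏ l, G l ^ e l) →
        δ j ≤ t → Sm ω e₀ (hi κ (G j)) ν) →
      ∀ i, δ i ≤ t → Sm ω e₀ (hi κ (G i)) (m * ν) := fun κ ν t hκ hν h i hit => by
    obtain ⟨l, a, h1, h2, h3⟩ := hN i
    rw [h3, circ_hi_add, circ_hi_of_two hκ h1, zero_add, circ_hi_sum]
    have := Sm.sum (ω := ω) (e₀ := e₀) (ν := ν) univ (f := fun j => hi κ (a j • G j)) fun j _ => by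
      by_cases hj : a j = 0
      · rw [hj, zero_smul, circ_hi_zero]; exact Sm.zero.mono hν
      · rw [circ_hi_smul]
        exact (h j (h2 j hj).1 ((h2 j hj).2.trans hit)).smul _
    simpa using this
  obtain ⟨E, hE⟩ : ∃ E, E = Real.exp (e₀.2 - Γ) * ZZ ω := ⟨_, rfl⟩
  have hE0 : 0 < E := hE ▸ mul_pos (Real.exp_pos _) (ZZ_pos ω)
  obtain ⟨N, hNd⟩ : ∃ N : ℝ, N = Fintype.card ι + 1 := ⟨_, rfl⟩
  have hN1 : 1 ≤ N := by rw [hNd]; linarith [Nat.cast_nonneg (α := ℝ) (Fintype.card ι)]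
  obtain ⟨D, hDd⟩ : ∃ D : ℝ, D = (dgs ω).card := ⟨_, rfl⟩
  have hD0 : 0 ≤ D := hDd ▸ Nat.cast_nonneg _
  have hDN : D ≤ N ^ 2 := by rw [hDd, hNd]; exact_mod_cast hD
  have hm1 : (1 : ℝ) ≤ m := by exact_mod_cast i.pos
  rw [← hE, ← hNd]
  have hN8 : 1 ≤ N ^ 8 := one_le_pow₀ hN1
  have hm2 : (1 : ℝ) ≤ m ^ 2 := one_le_pow₀ hm1
  have hC : (1 : ℝ) ≤ 5 * m ^ 2 * N ^ 8 := by nlinarith
  induction k generalizing i with
  | zero =>
    have := hlin (x (2 * 0)) 0 0 (hx _) le_rfl (fun j ⟨e, he1, he2⟩ hj => by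
      have h0 : ∀ l, e l = 0 := fun l => by
        by_contra hl
        have := (he1 l hl).2
        omega
      rw [he2]
      simp only [h0, pow_zero, prod_const_one]
      rw [circ_hi_of_two (hx _) circ_hi_one]
      exact Sm.zero) i hik
    simpa using this
  | succ k ih =>
    obtain ⟨c, hc⟩ : ∃ c : ℝ, c = (5 * m ^ 2 * N ^ 8) ^ k := ⟨_, rfl⟩
    have hc1 : 1 ≤ c := hc ▸ one_le_pow₀ hC
    have ih' := fun j hj => ih (by omega) j hj
    rw [← hc] at ih'
    have hν : 0 ≤ (c - 1) * E := mul_nonneg (by linarith) hE0.le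
    obtain ⟨ν', hν'⟩ : ∃ ν', ν' = 2 * (D * ((c - 1) * E)) + 2 * N ^ 2 * (D * E) := ⟨_, rfl⟩
    have hν'0 : 0 ≤ ν' := by rw [hν']; positivity
    refine (hlin (x (2 * (k + 1))) (D * E + D * (D * (m * ν'))) (k + 1) (hx _) (by positivity)
      (fun j ⟨e, he1, he2⟩ hj => ?_) i hik).mono ?_
    · by_cases hz : ∃ l, e l ≠ 0 ∧ G l = 0
      · obtain ⟨l, hl1, hl2⟩ := hz
        have : G j = 0 := by
          rw [he2]; exact prod_eq_zero (mem_univ l) (by rw [hl2, zero_pow hl1])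
        rw [this, circ_hi_zero]
        exact Sm.zero.mono (by positivity)
      have hS : ∀ l, ∃ S : SQ ι K, e l ≠ 0 → S ∅ = 0 ∧ eul (G l) = G l * S ∧
          Sm ω e₀ (hi (x (2 * k + 1)) S) ν' := fun l => by
        by_cases hl : e l = 0
        · exact ⟨0, fun h => (h hl).elim⟩
        have hu : G l ∅ ≠ 0 := (hU l).resolve_left fun h => hz ⟨l, hl, h⟩
        obtain ⟨S, h1, h2⟩ := logder (κ := x (2 * k + 1)) hu (by linarith [hx (2 * k)])
          (hd (2 * k) (by omega)) (hη _) he (hΓ (2 * k) (by omega))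
          (ih' l (by have := (he1 l hl).2; omega))
        refine ⟨S, fun _ => ⟨?_, h1, ?_⟩⟩
        · have h3 := eul_empty (G l)
          rw [h1, mul_empty] at h3
          exact (mul_eq_zero.1 h3).resolve_left hu
        · rw [hν', hDd, hNd]
          rw [← hE] at h2
          exact h2
      choose S hS using hS
      have hT : G j = ∏ l ∈ univ.filter fun l => e l ≠ 0, G l ^ e l := by
        rw [he2]
        exact (prod_subset (filter_subset _ _) fun l _ hl => by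
          have : e l = 0 := by simpa using hl
          rw [this, pow_zero]).symm
      have h1 := eul_prod_pow (univ.filter fun l => e l ≠ 0) G S e
        fun l hl => (hS l (mem_filter.1 hl).2).2.1
      rw [← hT] at h1
      have h2 : Sm ω e₀ (hi (x (2 * k + 1))
          (∑ l ∈ univ.filter fun l => e l ≠ 0, (e l : K) • S l)) (m * ν') := by
        rw [circ_hi_sum]
        refine (Sm.sum (ν := ν') _ fun l hl => ?_).mono ?_
        · rw [circ_hi_smul]
          exact (hS l (mem_filter.1 hl).2).2.2.smul _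
        · have : (univ.filter fun l => e l ≠ 0).card ≤ m := by
            simpa using card_filter_le (univ : Finset (Fin m)) fun l => e l ≠ 0
          have h3 : ((univ.filter fun l => e l ≠ 0).card : ℝ) ≤ m := by exact_mod_cast this
          exact mul_le_mul_of_nonneg_right h3 hν'0
      have h3 := solve (k := x (2 * k + 1 + 1)) (by
          rw [SQ.sum_apply]
          exact sum_eq_zero fun l hl => by simp [(hS l (mem_filter.1 hl).2).1]) h1
        (hd (2 * k + 1) (by omega)) (hη _) he (hΓ (2 * k + 1) (by omega)) h2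
      rw [← hE, ← hDd] at h3
      exact h3
    · rw [pow_succ, ← hc, hν']
      have hN2 : 1 ≤ N ^ 2 := one_le_pow₀ hN1
      have a1 : D * D * D ≤ N ^ 6 := by
        calc D * D * D ≤ N ^ 2 * N ^ 2 * N ^ 2 := by gcongr
          _ = N ^ 6 := by ring
      have a2 : N ^ 6 ≤ N ^ 8 := pow_le_pow_right₀ hN1 (by norm_num)
      have a3 : N ^ 2 ≤ N ^ 8 := pow_le_pow_right₀ hN1 (by norm_num)
      have a4 : (m : ℝ) * D ≤ m ^ 2 * N ^ 8 :=
        mul_le_mul (by nlinarith) (hDN.trans a3) hD0 (by positivity)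
      have a5 : (m : ℝ) ^ 2 * (D * D * D) * (c - 1) ≤ m ^ 2 * N ^ 8 * (c - 1) :=
        mul_le_mul_of_nonneg_right (mul_le_mul_of_nonneg_left (a1.trans a2) (by positivity))
          (by linarith)
      have a6 : (m : ℝ) ^ 2 * (N ^ 2 * (D * D * D)) ≤ m ^ 2 * N ^ 8 := by
        have : N ^ 2 * (D * D * D) ≤ N ^ 8 := by
          calc N ^ 2 * (D * D * D) ≤ N ^ 2 * N ^ 6 := by gcongr
            _ = N ^ 8 := by ring
        gcongr
      have a7 : (1 : ℝ) ≤ m ^ 2 * N ^ 8 := by nlinarith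
      have a8 : (m : ℝ) ^ 2 * N ^ 8 ≤ m ^ 2 * N ^ 8 * c :=
        le_mul_of_one_le_right (by linarith) hc1
      have e1 : (m : ℝ) * (D * E + D * (D * (m * (2 * (D * ((c - 1) * E)) + 2 * N ^ 2 * (D * E)))))
          = (m * D + 2 * (m ^ 2 * (D * D * D) * (c - 1))
            + 2 * (m ^ 2 * (N ^ 2 * (D * D * D)))) * E := by
        ring
      rw [e1]
      apply mul_le_mul_of_nonneg_right _ hE0.le
      nlinarith

end Pool.Agent.Lib.MP_8b1d3b_lc.CD
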