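import Mathlib

/-! Counting four cycles for the pair polynomial. -/

namespace Pool.Agent.Lib.MP_8b1d3b_lc.CD

open Finset
open scoped Nat Classical

theorem pow_mul_fact_le (k j : ℕ) : k ^ j * k ! ≤ k ^ k * j ! := by
  rcases le_total k j with h | h
  · obtain ⟨n, rfl⟩ := Nat.exists_eq_add_of_le h
    rw [pow_add, mul_assoc]
    refine Nat.mul_le_mul_left _ (le_trans ?_ Nat.factorial_mul_pow_le_factorial)
    rw [mul_comm]
    exact Nat.mul_le_mul_left _ (Nat.pow_le_pow_left (Nat.le_succ k) n)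
  · obtain ⟨n, rfl⟩ := Nat.exists_eq_add_of_le h
    have h1 := Nat.factorial_mul_descFactorial (Nat.le_add_left n j)
    rw [Nat.add_sub_cancel] at h1
    rw [← h1, pow_add, mul_assoc, mul_comm (_ ^ n)]
    exact Nat.mul_le_mul_left _ (Nat.mul_le_mul_left _ (Nat.descFactorial_le_pow _ _))

theorem mode_le (k l : ℕ) :
    (k + l) ^ (k + l) * (k ! * l !) ≤ (k + l + 1) * ((k + l)! * (k ^ k * l ^ l)) := by
  rw [add_pow, sum_mul]
  refine (sum_le_card_nsmul _ _ ((k + l)! * (k ^ k * l ^ l)) fun j hj => ?_).trans (by simp)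
  rw [← Nat.choose_mul_factorial_mul_factorial (Nat.lt_succ_iff.1 (mem_range.1 hj))]
  calc _ = (k + l).choose j * ((k ^ j * k !) * (l ^ (k + l - j) * l !)) := by
        simp only [Nat.cast_id]; ring
    _ ≤ (k + l).choose j * ((k ^ k * j !) * (l ^ l * (k + l - j)!)) :=
        Nat.mul_le_mul_left _ (Nat.mul_le_mul (pow_mul_fact_le _ _) (pow_mul_fact_le _ _))
    _ = _ := by ring

theorem ab_of_le {k l : ℕ} (h : k ≤ l) : ∃ α β : ℝ, 0 ≤ α ∧ 0 ≤ β ∧ α ^ 2 + α * β + β ^ 2 ≤ 1 ∧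
    (13 / 10 : ℝ) ^ k * (k ! * l !) ≤ (k + l + 1) * (k + l)! * (α ^ k * β ^ l) := by
  rcases Nat.eq_zero_or_pos l with rfl | hl
  · obtain rfl := Nat.le_zero.1 h
    exact ⟨0, 0, le_rfl, le_rfl, by norm_num, by simp⟩
  have hd : (0 : ℝ) < k + l := by positivity
  have h1 : (k : ℝ) ≤ l := by exact_mod_cast h
  have h2 : (0 : ℝ) ≤ k := by positivity
  refine ⟨13 / 10 * (k / (k + l)), l / (k + l), by positivity, by positivity, ?_, ?_⟩
  · have : (13 / 10 * (k / (k + l)) : ℝ) ^ 2 + 13 / 10 * (k / (k + l)) * (l / (k + l)) +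
        (l / (k + l)) ^ 2 = ((13 / 10 * k) ^ 2 + 13 / 10 * k * l + l ^ 2) / (k + l) ^ 2 := by
      field_simp
    rw [this, div_le_one (by positivity)]
    nlinarith [mul_le_mul_of_nonneg_left h1 h2]
  · have h3 : ((k + l) ^ (k + l) * (k ! * l !) : ℝ) ≤ (k + l + 1) * ((k + l)! * (k ^ k * l ^ l)) := by
      exact_mod_cast mode_le k l
    rw [mul_pow, div_pow (k : ℝ), div_pow (l : ℝ), mul_assoc, mul_assoc, div_mul_div_comm, ← pow_add,
      mul_left_comm ((k + l)! : ℝ), mul_left_comm (_ + 1 : ℝ)]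
    refine mul_le_mul_of_nonneg_left ?_ (by positivity)
    rwa [← mul_div_assoc, ← mul_div_assoc, le_div_iff₀' (by positivity)]

theorem ab (k l : ℕ) : ∃ α β : ℝ, 0 ≤ α ∧ 0 ≤ β ∧ α ^ 2 + α * β + β ^ 2 ≤ 1 ∧
    ∀ x : ℝ, x ≤ (13 / 10) ^ k → x ≤ (13 / 10) ^ l →
      x * (k ! * l !) ≤ (k + l + 1) * (k + l)! * (α ^ k * β ^ l) := by
  rcases le_total k l with h | h
  · obtain ⟨α, β, h1, h2, h3, h4⟩ := ab_of_le h
    exact ⟨α, β, h1, h2, h3, fun x hx _ =>
      (mul_le_mul_of_nonneg_right hx (by positivity)).trans h4⟩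
  · obtain ⟨α, β, h1, h2, h3, h4⟩ := ab_of_le h
    refine ⟨β, α, h2, h1, by linarith, fun x _ hx =>
      (mul_le_mul_of_nonneg_right hx (by positivity)).trans ?_⟩
    rwa [mul_comm (k ! : ℝ), add_comm k, add_comm (k : ℝ), mul_comm (β ^ k)]

theorem exp_le_pow {y : ℝ} {k : ℕ} (h : y ≤ k * (1 / 4)) : Real.exp y ≤ (13 / 10) ^ k := by
  refine (Real.exp_le_exp.2 h).trans ?_
  rw [Real.exp_nat_mul]
  refine pow_le_pow_left₀ (Real.exp_pos _).le ?_ k
  refine (pow_le_pow_iff_left₀ (Real.exp_pos _).le (by norm_num) four_ne_zero).1 ?_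
  rw [← Real.exp_nat_mul]
  norm_num
  linarith [Real.exp_one_lt_d9]

theorem sum_perm_le {R : Type} [Fintype R] [DecidableEq R] (π : Equiv.Perm R) (S : Finset R) :
    ∑ σ : Equiv.Perm R, (if ∀ t ∈ S, π t = σ t then (1 : ℝ) else 0) ≤ (Sᶜ.card)! := by
  rw [← Equiv.sum_comp (Equiv.mulLeft π), sum_boole, ← Fintype.card_subtype]
  have h := Fintype.card_congr (Equiv.Perm.subtypeEquivSubtypePerm fun a => a ∈ Sᶜ)
  rw [Fintype.card_perm, Fintype.card_coe] at h
  rw [h]
  refine Nat.cast_le.2 (Fintype.card_congr (Equiv.subtypeEquivRight fun σ => ?_)).le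
  simp [eq_comm]

/-- The column chosen by a word. -/
def wd {u : ℕ} (w : Equiv.Perm (Fin u × Bool) × (Fin u → Bool)) (t : Fin u × Bool) :
    (Fin u × Bool) × Bool := (w.1 t, w.2 (w.1 t).1)

theorem wd_inj {u : ℕ} : Function.Injective (wd (u := u)) := fun w w' h => by
  have h1 : w.1 = w'.1 := Equiv.ext fun t => congrArg Prod.fst (congrFun h t)
  refine Prod.ext h1 (funext fun j => ?_)
  have := congrArg Prod.snd (congrFun h (w.1.symm (j, true)))
  simpa [wd, ← h1] using this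

variable {u : ℕ}

/-- Number of compatible spins. -/
noncomputable def sp (w : Equiv.Perm (Fin u × Bool) × (Fin u → Bool)) (S : Finset (Fin u × Bool)) :
    ℝ := ∑ s : Fin u → Bool, ∏ t ∈ S, if w.2 (w.1 t).1 = s (w.1 t).1 then 1 else 0

theorem sp_nonneg (w : Equiv.Perm (Fin u × Bool) × (Fin u → Bool)) (S : Finset (Fin u × Bool)) :
    0 ≤ sp w S := by unfold sp; positivity

theorem sum_wd_le (w : Equiv.Perm (Fin u × Bool) × (Fin u → Bool)) (S : Finset (Fin u × Bool)) :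
    ∑ w', (if ∀ t ∈ S, wd w t = wd w' t then (1 : ℝ) else 0) ≤ (Sᶜ.card)! * sp w S := by
  refine le_trans ?_ (mul_le_mul_of_nonneg_right (sum_perm_le w.1 S) (sp_nonneg w S))
  rw [sp, sum_mul_sum, Fintype.sum_prod_type]
  refine sum_le_sum fun σ _ => sum_le_sum fun s _ => ?_
  split_ifs with h1 h2 h2
  · rw [prod_eq_one fun t ht => if_pos ?_, one_mul]
    have := congrArg Prod.snd (h1 t ht)
    simpa [wd, ← h2 t ht] using this
  · exact (h2 fun t ht => congrArg Prod.fst (h1 t ht)).elim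
  · positivity
  · simp

theorem sum_sp (w : Equiv.Perm (Fin u × Bool) × (Fin u → Bool)) (α β : ℝ) :
    ∑ S : Finset (Fin u × Bool), α ^ S.card * β ^ Sᶜ.card * (sp w S * sp w Sᶜ) =
      (2 * (α ^ 2 + α * β + β ^ 2)) ^ u := by
  have h1 : ∀ s s' : Fin u → Bool, ∑ S : Finset (Fin u × Bool), α ^ S.card * β ^ Sᶜ.card *
      ((∏ t ∈ S, if w.2 (w.1 t).1 = s (w.1 t).1 then 1 else 0) *
        ∏ t ∈ Sᶜ, if w.2 (w.1 t).1 = s' (w.1 t).1 then 1 else 0) =
      ∏ j, (α * (if w.2 j = s j then 1 else 0) + β * if w.2 j = s' j then 1 else 0) ^ 2 := by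
    intro s s'
    have h2 := Equiv.prod_comp w.1 fun t : Fin u × Bool => α * (if w.2 t.1 = s t.1 then 1 else 0) +
      β * if w.2 t.1 = s' t.1 then 1 else 0
    rw [prod_add, powerset_univ, Fintype.prod_prod_type] at h2
    refine (sum_congr rfl fun S _ => ?_).trans
      (h2.trans (prod_congr rfl fun j _ => by rw [Fintype.prod_bool, sq]))
    rw [prod_mul_distrib, prod_mul_distrib, prod_const, prod_const, compl_eq_univ_sdiff]
    ring
  simp only [sp, sum_mul_sum]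
  simp only [mul_sum]
  rw [sum_comm, sum_congr rfl fun s _ => sum_comm.trans (sum_congr rfl fun s' _ => h1 s s'),
    ← Fintype.sum_prod_type', ← Equiv.sum_comp (Equiv.arrowProdEquivProdArrow _ _ _)]
  have h3 := prod_univ_sum (fun _ : Fin u => (univ : Finset (Bool × Bool)))
    fun j b => (α * (if w.2 j = b.1 then 1 else 0) + β * if w.2 j = b.2 then 1 else 0) ^ 2
  rw [Fintype.piFinset_univ] at h3
  refine h3.symm.trans ?_
  rw [prod_congr rfl (g := fun _ => 2 * (α ^ 2 + α * β + β ^ 2)) fun j _ => ?_]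
  · simp
  · cases w.2 j <;> simp [Fintype.sum_prod_type] <;> ring

theorem sum_pat (ρ : Fin u × Bool → ℝ) (h1 : ∀ t, |ρ t| ≤ 1 / 4) (h2 : 0 ≤ ∑ t, ρ t)
    (w : Equiv.Perm (Fin u × Bool) × (Fin u → Bool)) :
    ∑ S : Finset (Fin u × Bool), Real.exp (-∑ t ∈ S, ρ t) *
      ((∑ w', if ∀ t ∈ S, wd w t = wd w' t then (1 : ℝ) else 0) *
        ∑ w', if ∀ t ∈ Sᶜ, wd w t = wd w' t then (1 : ℝ) else 0) ≤
      (2 * u + 1) ^ 2 * ((2 * u)! * 2 ^ u) := by
  choose α β ha hb hab h using fun k => ab k (2 * u - k)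
  have hc : ∀ S : Finset (Fin u × Bool), S.card + Sᶜ.card = 2 * u := fun S => by
    rw [card_add_card_compl]; simp [mul_comm]
  calc _ ≤ ∑ S : Finset (Fin u × Bool), ∑ k ∈ range (2 * u + 1), (2 * u + 1) * (2 * u)! *
          (α k ^ S.card * β k ^ Sᶜ.card * (sp w S * sp w Sᶜ)) := sum_le_sum fun S _ => ?_
    _ ≤ ∑ _k ∈ range (2 * u + 1), (2 * u + 1 : ℝ) * (2 * u)! * 2 ^ u := by
        rw [sum_comm]
        refine sum_le_sum fun k _ => ?_
        rw [← mul_sum, sum_sp]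
        have := ha k
        have := hb k
        gcongr
        linarith [hab k]
    _ = _ := by simp; ring
  have e1 := hc S
  have e0 := mul_nonneg (sp_nonneg w S) (sp_nonneg w Sᶜ)
  refine le_trans ?_ (single_le_sum (a := S.card) (fun k _ => ?_) (mem_range.2 (by omega)))
  · have e2 := h S.card (Real.exp (-∑ t ∈ S, ρ t))
    rw [show 2 * u - S.card = Sᶜ.card by omega, e1, ← Nat.cast_add, e1] at e2
    have e3 := e2 (exp_le_pow ?_) (exp_le_pow ?_)
    · have e4 := mul_le_mul (sum_wd_le w S) (sum_wd_le w Sᶜ) (by positivity)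
        (mul_nonneg (by positivity) (sp_nonneg w S))
      rw [compl_compl] at e4
      refine (mul_le_mul_of_nonneg_left e4 (Real.exp_pos _).le).trans ?_
      push_cast at e3
      nlinarith [mul_le_mul_of_nonneg_right e3 e0]
    · rw [← sum_neg_distrib, ← nsmul_eq_mul]
      exact sum_le_card_nsmul _ _ _ fun t _ => (neg_le_abs _).trans (h1 t)
    · have e5 := sum_le_card_nsmul Sᶜ ρ _ fun t _ => (le_abs_self _).trans (h1 t)
      rw [nsmul_eq_mul] at e5
      linarith [sum_add_sum_compl S ρ]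
  · have := ha k
    have := hb k
    positivity

end Pool.Agent.Lib.MP_8b1d3b_lc.CD
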