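import Mathlib

/-! The algebra of functions on subsets with the subset convolution, and a weighted rank. -/

namespace Pool.Agent.Lib.MP_8b1d3b_lc.CD

open Finset

/-- Functions on the finite subsets of `ι`; the product is the subset convolution.  This is the
polynomial ring modulo the squares of the variables, `g s` being the coefficient of `∏ i ∈ s`. -/
def SQ (ι K : Type) : Type := Finset ι → K

variable {ι K : Type} [DecidableEq ι] [Field K]

namespace SQ

instance : AddCommGroup (SQ ι K) := inferInstanceAs (AddCommGroup (Finset ι → K))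
instance : Module K (SQ ι K) := inferInstanceAs (Module K (Finset ι → K))
instance : Mul (SQ ι K) := ⟨fun f g t => ∑ s ∈ t.powerset, f s * g (t \ s)⟩
instance : One (SQ ι K) := ⟨fun t => if t = ∅ then 1 else 0⟩

omit [DecidableEq ι] [Field K] in
@[ext] theorem ext {f g : SQ ι K} (h : ∀ s, f s = g s) : f = g := funext h

omit [DecidableEq ι] in
@[simp] theorem add_apply (f g : SQ ι K) (s : Finset ι) : (f + g) s = f s + g s := rfl
omit [DecidableEq ι] in
@[simp] theorem sub_apply (f g : SQ ι K) (s : Finset ι) : (f - g) s = f s - g s := rfl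
omit [DecidableEq ι] in
@[simp] theorem neg_apply (f : SQ ι K) (s : Finset ι) : (-f) s = -f s := rfl
omit [DecidableEq ι] in
@[simp] theorem zero_apply (s : Finset ι) : (0 : SQ ι K) s = 0 := rfl
omit [DecidableEq ι] in
@[simp] theorem smul_apply (c : K) (f : SQ ι K) (s : Finset ι) : (c • f) s = c * f s := rfl
omit [DecidableEq ι] in
theorem sum_apply {κ : Type*} (T : Finset κ) (f : κ → SQ ι K) (s : Finset ι) :
    (∑ j ∈ T, f j) s = ∑ j ∈ T, f j s := Finset.sum_apply s T f
theorem mul_apply (f g : SQ ι K) (t : Finset ι) :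
    (f * g) t = ∑ s ∈ t.powerset, f s * g (t \ s) := rfl
theorem one_apply (t : Finset ι) : (1 : SQ ι K) t = if t = ∅ then 1 else 0 := rfl

theorem mul_comm' (f g : SQ ι K) : f * g = g * f := by
  ext t
  simp only [mul_apply]
  refine sum_nbij' (fun s => t \ s) (fun s => t \ s) ?_ ?_ ?_ ?_ ?_
  · intro s _; simp
  · intro s _; simp
  · intro s hs; exact Finset.sdiff_sdiff_eq_self (mem_powerset.1 hs)
  · intro s hs; exact Finset.sdiff_sdiff_eq_self (mem_powerset.1 hs)
  · intro s hs; rw [Finset.sdiff_sdiff_eq_self (mem_powerset.1 hs), mul_comm]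

theorem one_mul' (f : SQ ι K) : 1 * f = f := by
  ext t
  rw [mul_apply, sum_eq_single ∅]
  · simp [one_apply]
  · intro s _ hs; simp [one_apply, hs]
  · simp

theorem mul_assoc' (f g h : SQ ι K) : f * g * h = f * (g * h) := by
  ext t
  simp only [mul_apply, sum_mul, mul_sum]
  rw [sum_sigma', sum_sigma']
  refine sum_nbij' (fun x => ⟨x.2, x.1 \ x.2⟩) (fun x => ⟨x.1 ∪ x.2, x.1⟩) ?_ ?_ ?_ ?_ ?_
  · rintro ⟨s, r⟩ hx
    simp only [mem_sigma, mem_powerset] at hx ⊢
    exact ⟨hx.2.trans hx.1, sdiff_subset_sdiff hx.1 le_rfl⟩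
  · rintro ⟨r, u⟩ hx
    simp only [mem_sigma, mem_powerset] at hx ⊢
    exact ⟨union_subset hx.1 (hx.2.trans sdiff_subset), subset_union_left⟩
  · rintro ⟨s, r⟩ hx
    simp only [mem_sigma, mem_powerset] at hx
    simp [union_sdiff_of_subset hx.2]
  · rintro ⟨r, u⟩ hx
    simp only [mem_sigma, mem_powerset] at hx
    have h1 : Disjoint r u := (subset_sdiff.1 hx.2).2.symm
    simp [union_sdiff_cancel_left h1]
  · rintro ⟨s, r⟩ hx
    simp only [mem_sigma, mem_powerset] at hx
    have h1 : (t \ r) \ (s \ r) = t \ s := by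
      ext i
      have := @hx.2 i
      simp only [mem_sdiff]
      tauto
    simp only [h1, mul_assoc]

instance : CommRing (SQ ι K) where
  __ := (inferInstance : AddCommGroup (SQ ι K))
  mul_assoc := mul_assoc'
  one_mul := one_mul'
  mul_one f := by rw [mul_comm', one_mul']
  mul_comm := mul_comm'
  zero_mul f := by ext t; simp [mul_apply]
  mul_zero f := by ext t; simp [mul_apply]
  left_distrib f g h := by ext t; simp [mul_apply, mul_add, sum_add_distrib]
  right_distrib f g h := by ext t; simp [mul_apply, add_mul, sum_add_distrib]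

instance : Algebra K (SQ ι K) :=
  Algebra.ofModule (fun c f g => by ext t; simp [mul_apply, mul_sum, mul_assoc])
    (fun c f g => by ext t; simp [mul_apply, mul_sum, mul_left_comm])

theorem algebraMap_apply (c : K) (t : Finset ι) :
    (algebraMap K (SQ ι K) c) t = if t = ∅ then c else 0 := by
  rw [Algebra.algebraMap_eq_smul_one]; simp [one_apply]

end SQ

/-- The variable `i`. -/
def var (i : ι) : SQ ι K := fun s => if s = {i} then 1 else 0

open Classical in
/-- Restriction to the subsets with property `p`. -/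
noncomputable def res (p : Finset ι → Prop) (g : SQ ι K) : SQ ι K :=
  fun s => if p s then g s else 0

omit [DecidableEq ι] in
theorem res_pos {p : Finset ι → Prop} (g : SQ ι K) {s : Finset ι} (h : p s) : res p g s = g s :=
  if_pos h

omit [DecidableEq ι] in
theorem res_neg {p : Finset ι → Prop} (g : SQ ι K) {s : Finset ι} (h : ¬ p s) : res p g s = 0 :=
  if_neg h

/-- The part of degree at least `k`. -/
noncomputable def hi (k : ℕ) (g : SQ ι K) : SQ ι K := res (fun s => k ≤ s.card) g

/-- The Euler derivation. -/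
def eul (g : SQ ι K) : SQ ι K := fun s => (s.card : K) * g s

/-- The inverse of the Euler derivation on elements without constant term. -/
def ieul (g : SQ ι K) : SQ ι K := fun s => (s.card : K)⁻¹ * g s

/-- `g` is supported on subsets of nonpositive `ψ`-weight. -/
def Cone (ψ : ι → ℝ) (g : SQ ι K) : Prop := ∀ s, g s ≠ 0 → ∑ i ∈ s, ψ i ≤ 0

/-- Size and weight of a subset. -/
def dg (ω : ι → ℝ) (s : Finset ι) : ℕ × ℝ := (s.card, ∑ i ∈ s, ω i)

open Classical in
/-- The block of the multiplication by `g` from degree `e` to degree `e + e₀`. -/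
noncomputable def blk (ω : ι → ℝ) (e₀ : ℕ × ℝ) (g : SQ ι K) (e : ℕ × ℝ) :
    Matrix (Finset ι) (Finset ι) K :=
  Matrix.of fun t s => if dg ω s = e ∧ dg ω t = e + e₀ ∧ s ⊆ t then g (t \ s) else 0

variable [Fintype ι]

open Classical in
/-- The degrees that occur. -/
noncomputable def dgs (ω : ι → ℝ) : Finset (ℕ × ℝ) := univ.image (dg ω)

/-- The weighted rank. -/
noncomputable def mu (ω : ι → ℝ) (e₀ : ℕ × ℝ) (g : SQ ι K) : ℝ :=
  ∑ e ∈ dgs ω, Real.exp (-e.2) * ((blk ω e₀ g e).rank : ℝ)

/-- The weighted dimension. -/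
noncomputable def ZZ (ω : ι → ℝ) : ℝ := ∑ s : Finset ι, Real.exp (-∑ i ∈ s, ω i)

/-- All multiples of all components of `g` have weighted rank at most `ν`. -/
def Sm (ω : ι → ℝ) (e₀ : ℕ × ℝ) (g : SQ ι K) (ν : ℝ) : Prop :=
  ∀ (e : ℕ × ℝ) (R : SQ ι K), mu ω e₀ (res (fun s => dg ω s = e) g * R) ≤ ν

/-- Subsets of size less than `κ` have weight of modulus at least `η` times their size. -/
def Dich (ω : ι → ℝ) (κ : ℕ) (η : ℝ) : Prop :=
  ∀ s : Finset ι, s.card < κ → η * s.card ≤ |∑ i ∈ s, ω i|

end Pool.Agent.Lib.MP_8b1d3b_lc.CD
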