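import Pool.Agent.Lib.MP_8b1d3b_lc.CD.Defs

/-! Properties of the weighted rank. -/

namespace Pool.Agent.Lib.MP_8b1d3b_lc.CD

open Finset

variable {ι K : Type} [DecidableEq ι] [Fintype ι] [Field K] {ω : ι → ℝ} {e₀ : ℕ × ℝ}

omit [Fintype ι] in
theorem dg_union {s t : Finset ι} (h : s ⊆ t) : dg ω s + dg ω (t \ s) = dg ω t := by
  refine Prod.ext ?_ ?_
  · exact (add_comm _ _).trans (card_sdiff_add_card_eq_card h)
  · exact (add_comm _ _).trans (sum_sdiff h)

theorem rank_add_le {α : Type} [Fintype α] (A B : Matrix α α K) :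
    (A + B).rank ≤ A.rank + B.rank := by
  refine le_trans (Submodule.finrank_mono ?_) (Submodule.finrank_add_le_finrank_add_finrank _ _)
  rintro _ ⟨x, rfl⟩
  rw [Matrix.mulVecLin_add]
  exact Submodule.add_mem_sup ⟨x, rfl⟩ ⟨x, rfl⟩

omit [Fintype ι] in
theorem blk_add (g h : SQ ι K) (e : ℕ × ℝ) :
    blk ω e₀ (g + h) e = blk ω e₀ g e + blk ω e₀ h e := by
  ext t s
  simp only [blk, Matrix.of_apply, Matrix.add_apply, SQ.add_apply]
  split_ifs <;> simp

omit [Fintype ι] in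
theorem blk_zero (e : ℕ × ℝ) : blk ω e₀ (0 : SQ ι K) e = 0 := by
  ext t s
  simp [blk]

omit [DecidableEq ι] in
theorem ZZ_pos (ω : ι → ℝ) : 0 < ZZ ω := sum_pos (fun _ _ => Real.exp_pos _) univ_nonempty

omit [DecidableEq ι] in
theorem one_le_card_dgs (ω : ι → ℝ) : 1 ≤ (dgs ω).card := by
  classical
  exact card_pos.2 ⟨_, mem_image_of_mem _ (mem_univ ∅)⟩

theorem mu_zero : mu ω e₀ (0 : SQ ι K) = 0 := by simp [mu, blk_zero]

theorem mu_add_le (f g : SQ ι K) : mu ω e₀ (f + g) ≤ mu ω e₀ f + mu ω e₀ g := by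
  rw [mu, mu, mu, ← sum_add_distrib]
  refine sum_le_sum fun e _ => ?_
  rw [← mul_add, blk_add]
  exact mul_le_mul_of_nonneg_left (by exact_mod_cast rank_add_le _ _) (Real.exp_pos _).le

theorem mu_sum_le {κ : Type} (T : Finset κ) (f : κ → SQ ι K) :
    mu ω e₀ (∑ j ∈ T, f j) ≤ ∑ j ∈ T, mu ω e₀ (f j) :=
  le_sum_of_subadditive _ mu_zero.le mu_add_le T f

theorem rank_blk_le (g h : SQ ι K) (e : ℕ × ℝ) (T : Finset (Finset ι))
    (hT : ∀ s u t, dg ω s = e → dg ω t = e + e₀ → s ⊆ u → u ⊆ t → g (u \ s) ≠ 0 →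
      h (t \ u) ≠ 0 → u ∈ T) : (blk ω e₀ (g * h) e).rank ≤ T.card := by
  classical
  let A : Matrix (Finset ι) (Finset ι) K :=
    Matrix.of fun t u => if dg ω t = e + e₀ ∧ u ⊆ t then h (t \ u) else 0
  let B : Matrix (Finset ι) (Finset ι) K :=
    Matrix.of fun u s => if u ∈ T ∧ dg ω s = e ∧ s ⊆ u then g (u \ s) else 0
  have hAB : blk ω e₀ (g * h) e = A * B := by
    ext t s
    simp only [blk, A, B, Matrix.of_apply, Matrix.mul_apply]
    split_ifs with h1
    · obtain ⟨h1, h2, h3⟩ := h1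
      rw [SQ.mul_apply, ← sum_subset (subset_univ (Icc s t))]
      · refine sum_nbij' (fun v => s ∪ v) (fun u => u \ s) ?_ ?_ ?_ ?_ ?_
        · intro v hv
          exact mem_Icc.2 ⟨subset_union_left, union_subset h3 ((mem_powerset.1 hv).trans sdiff_subset)⟩
        · intro u hu
          exact mem_powerset.2 (sdiff_subset_sdiff (mem_Icc.1 hu).2 le_rfl)
        · intro v hv
          exact union_sdiff_cancel_left (subset_sdiff.1 (mem_powerset.1 hv)).2.symm
        · intro u hu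
          exact union_sdiff_of_subset (mem_Icc.1 hu).1
        · intro v hv
          have h4 := subset_sdiff.1 (mem_powerset.1 hv)
          have h5 : (s ∪ v) \ s = v := union_sdiff_cancel_left h4.2.symm
          have h6 : t \ (s ∪ v) = (t \ s) \ v := (sdiff_sdiff _ _ _).symm
          have h7 : s ∪ v ⊆ t := union_subset h3 h4.1
          have h8 := hT s (s ∪ v) t h1 h2 subset_union_left h7
          rw [if_pos ⟨h2, h7⟩, h5, h6] at *
          split_ifs with h9
          · exact mul_comm _ _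
          · by_contra h10
            rw [mul_zero, mul_eq_zero, not_or] at h10
            exact h9 ⟨h8 h10.1 h10.2, h1, subset_union_left⟩
      · intro u _ hu
        split_ifs with h4 h5
        · exact absurd (mem_Icc.2 ⟨h5.2.2, h4.2⟩) hu
        all_goals simp
    · refine (sum_eq_zero fun u _ => ?_).symm
      split_ifs with h4 h5
      · exact absurd ⟨h5.2.1, h4.1, h5.2.2.trans h4.2⟩ h1
      all_goals simp
  rw [hAB]
  refine (Matrix.rank_mul_le_right _ _).trans (Matrix.rank_le_card_of_support_subset _ _ ?_)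
  intro u hu
  by_contra h1
  exact hu (funext fun s => if_neg fun h2 => h1 h2.1)

theorem mu_mul_le (g h : SQ ι K) (P : ℕ × ℝ → Finset ι → Prop) (c : ℝ)
    (hP : ∀ e s u t, dg ω s = e → dg ω t = e + e₀ → s ⊆ u → u ⊆ t → g (u \ s) ≠ 0 →
      h (t \ u) ≠ 0 → P e u)
    (hi : ∀ u e e', P e u → P e' u → e = e') (hc : ∀ e u, P e u → -e.2 = c - ∑ i ∈ u, ω i) :
    mu ω e₀ (g * h) ≤ Real.exp c * ZZ ω := by
  classical
  calc mu ω e₀ (g * h) ≤ ∑ e ∈ dgs ω, ∑ u : Finset ι,
        if P e u then Real.exp c * Real.exp (-∑ i ∈ u, ω i) else 0 := by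
        refine sum_le_sum fun e _ => ?_
        have h1 := rank_blk_le g h e (univ.filter (P e)) fun s u t a b c d f k =>
          mem_filter.2 ⟨mem_univ _, hP e s u t a b c d f k⟩
        refine (mul_le_mul_of_nonneg_left (Nat.cast_le.2 h1) (Real.exp_pos _).le).trans_eq ?_
        rw [← sum_filter, mul_comm, ← nsmul_eq_mul, ← sum_const]
        exact sum_congr rfl fun u hu => by
          rw [hc e u (mem_filter.1 hu).2, ← Real.exp_add, sub_eq_add_neg]
    _ ≤ _ := by
        rw [sum_comm, ZZ, mul_sum]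
        refine sum_le_sum fun u _ => ?_
        rw [← sum_filter, sum_const, nsmul_eq_mul]
        refine mul_le_of_le_one_left (by positivity) (Nat.cast_le_one.2 (card_le_one.2 ?_))
        exact fun a ha b hb => hi u a b (mem_filter.1 ha).2 (mem_filter.1 hb).2

theorem mu_first {α : SQ ι K} {e₁ : ℕ × ℝ} (hα : ∀ s, α s ≠ 0 → dg ω s = e₁) (h : SQ ι K) :
    mu ω e₀ (α * h) ≤ Real.exp e₁.2 * ZZ ω :=
  mu_mul_le α h (fun e u => dg ω u = e + e₁) _
    (fun e s u t a _ c _ f _ => by rw [← dg_union c, a, hα _ f])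
    (fun u e e' a b => add_right_cancel (a.symm.trans b))
    fun e u a => by
      have : ∑ i ∈ u, ω i = e.2 + e₁.2 := congrArg Prod.snd a
      linarith

theorem mu_last {β : SQ ι K} {e₂ : ℕ × ℝ} (hβ : ∀ s, β s ≠ 0 → dg ω s = e₂) (h : SQ ι K) :
    mu ω e₀ (β * h) ≤ Real.exp (e₀.2 - e₂.2) * ZZ ω := by
  rw [mul_comm β]
  exact mu_mul_le h β (fun e u => dg ω u + e₂ = e + e₀) _
    (fun e s u t _ b _ d _ f => by rw [← b, ← dg_union d, hβ _ f])
    (fun u e e' a b => add_right_cancel (a.symm.trans b))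
    fun e u a => by
      have : ∑ i ∈ u, ω i + e₂.2 = e.2 + e₀.2 := congrArg Prod.snd a
      linarith

omit [Fintype ι] [DecidableEq ι] in
theorem res_ne {p : Finset ι → Prop} {g : SQ ι K} {s : Finset ι} (h : res p g s ≠ 0) :
    p s ∧ g s ≠ 0 := by
  by_cases h1 : p s
  · exact ⟨h1, res_pos g h1 ▸ h⟩
  · exact absurd (res_neg g h1) h

theorem res_mul (e : ℕ × ℝ) (f g : SQ ι K) :
    res (fun s => dg ω s = e) (f * g) =
      ∑ e₁ ∈ dgs ω, res (fun s => dg ω s = e₁) f * res (fun s => e₁ + dg ω s = e) g := by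
  classical
  ext t
  rw [SQ.sum_apply]
  simp only [SQ.mul_apply]
  rw [sum_comm]
  have key : ∀ s ∈ t.powerset, ∑ e₁ ∈ dgs ω, res (fun s => dg ω s = e₁) f s *
      res (fun s => e₁ + dg ω s = e) g (t \ s) = if dg ω t = e then f s * g (t \ s) else 0 := by
    intro s hs
    rw [sum_eq_single (dg ω s)]
    · simp only [res, dg_union (mem_powerset.1 hs), if_true, mul_ite, mul_zero]
    · intro e₁ _ h
      simp only [res, if_neg h.symm, zero_mul]
    · intro h
      exact absurd (mem_image_of_mem _ (mem_univ s)) h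
  rw [sum_congr rfl key]
  by_cases h : dg ω t = e
  · simp only [res, if_pos h, SQ.mul_apply]
  · simp only [res, if_neg h, sum_const_zero]

/-- Multiplication of the values by a function of the size. -/
theorem Sm.of_card {g g' : SQ ι K} {ν : ℝ} (h : Sm ω e₀ g ν) (c : ℕ → K)
    (hc : ∀ s, g' s = c s.card * g s) : Sm ω e₀ g' ν := by
  intro e R
  have h1 : res (fun s => dg ω s = e) g' = c e.1 • res (fun s => dg ω s = e) g := by
    ext s
    by_cases h : dg ω s = e
    · simp only [res, if_pos h, SQ.smul_apply, hc]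
      rw [← h]
      rfl
    · simp only [res, if_neg h, SQ.smul_apply, mul_zero]
  rw [h1, smul_mul_assoc, ← mul_smul_comm]
  exact h e _

theorem Sm.zero : Sm ω e₀ (0 : SQ ι K) 0 := by
  intro e R
  have h1 : res (fun s => dg ω s = e) (0 : SQ ι K) = 0 := by
    ext s
    simp only [res, SQ.zero_apply, ite_self]
  rw [h1, zero_mul, mu_zero]

theorem Sm.mono {g : SQ ι K} {ν ν' : ℝ} (h : Sm ω e₀ g ν) (h' : ν ≤ ν') : Sm ω e₀ g ν' :=
  fun e R => (h e R).trans h'

theorem Sm.nonneg {g : SQ ι K} {ν : ℝ} (h : Sm ω e₀ g ν) : 0 ≤ ν := by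
  have h1 := h 0 0
  rwa [mul_zero, mu_zero] at h1

theorem Sm.add {f g : SQ ι K} {ν ν' : ℝ} (h : Sm ω e₀ f ν) (h' : Sm ω e₀ g ν') :
    Sm ω e₀ (f + g) (ν + ν') := by
  intro e R
  have h1 : res (fun s => dg ω s = e) (f + g) =
      res (fun s => dg ω s = e) f + res (fun s => dg ω s = e) g := by
    ext s
    simp only [res, SQ.add_apply]
    split_ifs <;> simp
  rw [h1, add_mul]
  exact (mu_add_le _ _).trans (add_le_add (h e R) (h' e R))

theorem Sm.smul {g : SQ ι K} {ν : ℝ} (h : Sm ω e₀ g ν) (c : K) : Sm ω e₀ (c • g) ν :=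
  h.of_card (fun _ => c) fun _ => rfl

theorem Sm.sum {κ : Type} (T : Finset κ) {f : κ → SQ ι K} {ν : ℝ}
    (h : ∀ j ∈ T, Sm ω e₀ (f j) ν) : Sm ω e₀ (∑ j ∈ T, f j) (T.card * ν) := by
  induction T using Finset.cons_induction with
  | empty => simpa using Sm.zero
  | cons a T ha ih =>
    rw [sum_cons, card_cons, Nat.cast_succ, add_mul, one_mul, add_comm (_ * ν)]
    exact (h a (mem_cons_self _ _)).add (ih fun j hj => h j (mem_cons_of_mem hj))

theorem Sm.mul {g : SQ ι K} {ν : ℝ} (h : Sm ω e₀ g ν) (R : SQ ι K) :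
    Sm ω e₀ (g * R) ((dgs ω).card * ν) := by
  intro e R'
  rw [res_mul, sum_mul, ← nsmul_eq_mul, ← sum_const]
  refine (mu_sum_le _ _).trans (sum_le_sum fun e₁ _ => ?_)
  rw [mul_assoc]
  exact h _ _

theorem Sm.hi {g : SQ ι K} {ν : ℝ} (h : Sm ω e₀ g ν) (k : ℕ) : Sm ω e₀ (hi k g) ν :=
  h.of_card (fun n => if k ≤ n then 1 else 0) fun s => by
    by_cases h : k ≤ s.card
    · simp only [CD.hi, res, if_pos h, one_mul]
    · simp only [CD.hi, res, if_neg h, zero_mul]

theorem Sm.eul {g : SQ ι K} {ν : ℝ} (h : Sm ω e₀ g ν) : Sm ω e₀ (eul g) ν :=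
  h.of_card (fun n => n) fun _ => rfl

theorem Sm.ieul {g : SQ ι K} {ν : ℝ} (h : Sm ω e₀ g ν) : Sm ω e₀ (ieul g) ν :=
  h.of_card (fun n => (n : K)⁻¹) fun _ => rfl

theorem Sm.cone {α β : SQ ι K} {η Γ : ℝ} {k : ℕ} (hα : Cone (fun i => ω i + η) α)
    (hβ : Cone (fun i => η - ω i) β) (hη : 0 ≤ η) (he : 0 ≤ e₀.2) (hΓ : Γ ≤ η * k / 2) :
    Sm ω e₀ (CD.hi k (α * β)) ((dgs ω).card * (Real.exp (e₀.2 - Γ) * ZZ ω)) := by
  intro e R
  have h0 : 0 ≤ Real.exp (e₀.2 - Γ) * ZZ ω := (mul_pos (Real.exp_pos _) (ZZ_pos ω)).le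
  by_cases hk : k ≤ e.1
  · have h1 : res (fun s => dg ω s = e) (CD.hi k (α * β)) = res (fun s => dg ω s = e) (α * β) := by
      ext s
      by_cases h : dg ω s = e
      · have h' : k ≤ s.card := by rwa [← h] at hk
        simp only [CD.hi, res, if_pos h, if_pos h']
      · simp only [res, if_neg h]
    rw [h1, res_mul, sum_mul, ← nsmul_eq_mul, ← sum_const]
    refine (mu_sum_le _ _).trans (sum_le_sum fun e₁ _ => ?_)
    by_cases h2 : res (fun s => dg ω s = e₁) α = 0
    · rwa [h2, zero_mul, zero_mul, mu_zero]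
    by_cases h3 : res (fun s => e₁ + dg ω s = e) β = 0
    · rwa [h3, mul_zero, zero_mul, mu_zero]
    obtain ⟨s₁, h2⟩ := Function.ne_iff.1 h2
    obtain ⟨s₂, h3⟩ := Function.ne_iff.1 h3
    obtain ⟨rfl, h4⟩ := res_ne h2
    obtain ⟨rfl, h5⟩ := res_ne h3
    have h6 := hα _ h4
    have h7 := hβ _ h5
    simp only [sum_add_distrib, sum_sub_distrib, sum_const, nsmul_eq_mul] at h6 h7
    have h8 : (k : ℝ) ≤ s₁.card + s₂.card := by exact_mod_cast hk
    have h9 := mul_le_mul_of_nonneg_left h8 hη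
    rcases le_total (∑ i ∈ s₁, ω i) (e₀.2 - ∑ i ∈ s₂, ω i) with h | h
    · rw [mul_assoc]
      refine (mu_first (e₁ := dg ω s₁) (fun s hs => (res_ne hs).1) _).trans
        (mul_le_mul_of_nonneg_right (Real.exp_le_exp.2 ?_) (ZZ_pos ω).le)
      change ∑ i ∈ s₁, ω i ≤ _
      linarith
    · rw [mul_comm (res _ α), mul_assoc]
      refine (mu_last (e₂ := dg ω s₂) (fun s hs => add_left_cancel (res_ne hs).1) _).trans
        (mul_le_mul_of_nonneg_right (Real.exp_le_exp.2 ?_) (ZZ_pos ω).le)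
      change e₀.2 - ∑ i ∈ s₂, ω i ≤ _
      linarith
  · have h1 : res (fun s => dg ω s = e) (CD.hi k (α * β)) = 0 := by
      ext s
      by_cases h : dg ω s = e
      · have h' : ¬ k ≤ s.card := by rwa [← h] at hk
        simp only [CD.hi, res, if_pos h, if_neg h', SQ.zero_apply]
      · simp only [res, if_neg h, SQ.zero_apply]
    rw [h1, zero_mul, mu_zero]
    positivity

theorem Sm.mu_le {g : SQ ι K} {ν : ℝ} {k : ℕ} (h : Sm ω e₀ (CD.hi k g) ν) (hk : k ≤ e₀.1) :
    mu ω e₀ g ≤ ν := by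
  have h1 := h e₀ 1
  rw [mul_one] at h1
  refine le_trans (le_of_eq (sum_congr rfl fun e _ => ?_)) h1
  congr 3
  ext t s
  simp only [blk, Matrix.of_apply]
  split_ifs with h2
  · have h3 : dg ω (t \ s) = e₀ :=
      add_left_cancel ((dg_union h2.2.2).trans (h2.2.1.trans (by rw [h2.1])))
    have h4 : k ≤ (t \ s).card := by rwa [← h3] at hk
    simp only [CD.hi, res, if_pos h3, if_pos h4]
  · rfl

end Pool.Agent.Lib.MP_8b1d3b_lc.CD
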