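import Pool.Agent.Lib.MP_8b1d3b_lc.CD.Alg
import Pool.Agent.Lib.MP_8b1d3b_lc.CD.Meas

/-! One product gate. -/

namespace Pool.Agent.Lib.MP_8b1d3b_lc.CD

open Finset

variable {ι K : Type} [DecidableEq ι] [Fintype ι] [Field K] [CharZero K] {ω : ι → ℝ} {e₀ : ℕ × ℝ}

omit [CharZero K] in
/-- Splitting of an element without constant term into two cone parts and a high part. -/
theorem split {g : SQ ι K} (hg : g ∅ = 0) {κ : ℕ} {η : ℝ} (hd : Dich ω κ η) :
    ∃ A B : SQ ι K, A ∅ = 0 ∧ B ∅ = 0 ∧ Cone (fun i => ω i + η) A ∧ Cone (fun i => η - ω i) B ∧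
      g = A + B + hi κ g := by
  have key : ∀ (p : Finset ι → Prop) (s : Finset ι), res p g s ≠ 0 → p s := fun p s h =>
    by_contra fun h' => h (res_neg g h')
  have h0 : ∀ p : Finset ι → Prop, res p g ∅ = 0 := fun p => by
    by_cases h : p ∅
    · exact (res_pos g h).trans hg
    · exact res_neg g h
  refine ⟨res (fun s => s.card < κ ∧ ∑ i ∈ s, ω i ≤ 0) g,
    res (fun s => s.card < κ ∧ ¬ ∑ i ∈ s, ω i ≤ 0) g, h0 _, h0 _, fun s hs => ?_, fun s hs => ?_,
    SQ.ext fun s => ?_⟩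
  · obtain ⟨h1, h2⟩ := key _ s hs
    have h3 := hd s h1
    rw [abs_of_nonpos h2] at h3
    rw [sum_add_distrib, sum_const, nsmul_eq_mul]
    linarith
  · obtain ⟨h1, h2⟩ := key _ s hs
    have h3 := hd s h1
    rw [abs_of_pos (not_le.1 h2)] at h3
    rw [sum_sub_distrib, sum_const, nsmul_eq_mul]
    linarith
  · rw [SQ.add_apply, SQ.add_apply, hi]
    by_cases h1 : s.card < κ
    · rw [res_neg (p := fun s => κ ≤ s.card) g (not_le.2 h1)]
      by_cases h2 : ∑ i ∈ s, ω i ≤ 0
      · rw [res_pos g ⟨h1, h2⟩, res_neg g fun h => h.2 h2, add_zero, add_zero]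
      · rw [res_neg g fun h => h2 h.2, res_pos g ⟨h1, h2⟩, zero_add, add_zero]
    · rw [res_neg g fun h => h1 h.1, res_neg g fun h => h1 h.1,
        res_pos (p := fun s => κ ≤ s.card) g (not_lt.1 h1), zero_add, zero_add]

omit [Fintype ι] [CharZero K] in
theorem logder_add (k : ℕ) (f g : SQ ι K) : hi k (f + g) = hi k f + hi k g := by
  ext s
  simp only [SQ.add_apply, hi, res]
  split_ifs <;> simp

omit [Fintype ι] [CharZero K] in
theorem logder_smul (k : ℕ) (c : K) (f : SQ ι K) : hi k (c • f) = c • hi k f := by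
  ext s
  simp only [SQ.smul_apply, hi, res]
  split_ifs <;> simp

omit [Fintype ι] [CharZero K] in
theorem logder_sum {κ : Type} (k : ℕ) (T : Finset κ) (f : κ → SQ ι K) :
    hi k (∑ j ∈ T, f j) = ∑ j ∈ T, hi k (f j) := by
  ext s
  simp only [SQ.sum_apply, hi, res]
  split_ifs <;> simp

/-- Write `g = c • (1 - A - B) + b` with `b = hi κ' g` (`split` for `1 - c⁻¹ • g`), `h = 1 - A - B`,
`h' = ∑ k, (A + B) ^ k` its inverse (`geom`), `g'` the inverse of `g`.  Then
`S = eul h * h' + (eul b * g' - b * (eul h * h' * g'))`, and `eul h * h'` is minus the sum of the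
terms `choose • (eul A * A ^ i) * B ^ j` and `choose • A ^ i * (eul B * B ^ j)` (`add_pow`). -/
theorem logder {g : SQ ι K} (hg : g ∅ ≠ 0) {κ κ' : ℕ} {η Γ ν : ℝ} (hκ : 0 < κ')
    (hd : Dich ω κ' η) (hη : 0 ≤ η) (he : 0 ≤ e₀.2) (hΓ : Γ ≤ η * κ / 2)
    (h : Sm ω e₀ (hi κ' g) ν) :
    ∃ S, eul g = g * S ∧ Sm ω e₀ (hi κ S) (2 * ((dgs ω).card * ν) +
      2 * (Fintype.card ι + 1) ^ 2 * ((dgs ω).card * (Real.exp (e₀.2 - Γ) * ZZ ω))) := by
  obtain ⟨A, B, A0, B0, cA, cB, e⟩ := split (g := 1 - (g ∅)⁻¹ • g)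
    (by simp [SQ.one_apply, inv_mul_cancel₀ hg]) hd
  have e1 : g = algebraMap K _ (g ∅) * (1 - (A + B)) + hi κ' g := by
    rw [← Algebra.smul_def]
    ext s
    have := congrFun e s
    simp only [SQ.add_apply, SQ.sub_apply, SQ.smul_apply, hi, res] at this ⊢
    split_ifs at this ⊢ with hs
    · have s0 : s ≠ ∅ := by
        rintro rfl
        exact absurd hs (by simpa using hκ.ne')
      simp only [SQ.one_apply, if_neg s0] at this ⊢
      linear_combination (-g ∅) * this
    · linear_combination (-g ∅) * this - g s * mul_inv_cancel₀ hg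
  have e2 : eul (1 - (A + B)) = -(eul A + eul B) := by
    have := eul_add (1 - (A + B)) (A + B)
    rw [sub_add_cancel, ← map_one (algebraMap K (SQ ι K)), eul_algebraMap, map_one,
      eul_add A B] at this
    linear_combination -this
  have e3 := geom (x := A + B) (by simp [A0, B0])
  obtain ⟨g', e4⟩ := (isUnit_of hg).exists_right_inv
  set h' := ∑ k ∈ range (Fintype.card ι + 1), (A + B) ^ k with hh
  have e5 : -(eul A + eul B) * h' = ∑ k ∈ range (Fintype.card ι + 1), ∑ m ∈ range (k + 1),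
      (-(k.choose m : K)) • (eul A * A ^ m * B ^ (k - m) + A ^ m * (eul B * B ^ (k - m))) := by
    rw [hh, mul_sum]
    refine sum_congr rfl fun k _ => ?_
    rw [add_pow, mul_sum]
    refine sum_congr rfl fun m _ => ?_
    rw [Algebra.smul_def, map_neg, map_natCast]
    ring
  refine ⟨-(eul A + eul B) * h' + (eul (hi κ' g) * g' + hi κ' g * ((eul A + eul B) * h' * g')),
    ?_, ?_⟩
  · have e6 := congrArg eul e1
    rw [eul_add, eul_mul, eul_algebraMap, e2] at e6
    linear_combination e6 + (eul A + eul B) * h' * e1 +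
      algebraMap K _ (g ∅) * (eul A + eul B) * e3 -
      (eul (hi κ' g) + hi κ' g * ((eul A + eul B) * h')) * e4
  · rw [logder_add, logder_add, e5, logder_sum]
    set X := (dgs ω).card * (Real.exp (e₀.2 - Γ) * ZZ ω)
    have X0 : 0 ≤ X := (Sm.cone (K := K) Cone.one Cone.one hη he hΓ).nonneg
    refine ((Sm.sum (ν := (Fintype.card ι + 1) * (X + X)) _ fun k hk => ?_).add
      (((h.eul.mul _).hi κ).add ((h.mul _).hi κ))).mono (le_of_eq ?_)
    · rw [logder_sum]
      refine (Sm.sum (ν := X + X) _ fun m _ => ?_).mono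
        (mul_le_mul_of_nonneg_right ?_ (add_nonneg X0 X0))
      · rw [logder_smul, logder_add]
        exact ((Sm.cone (cA.eul.mul (cA.pow _)) (cB.pow _) hη he hΓ).add
          (Sm.cone (cA.pow _) (cB.eul.mul (cB.pow _)) hη he hΓ)).smul _
      · rw [card_range]
        exact_mod_cast mem_range.1 hk
    · rw [card_range]
      push_cast
      ring

/-- `S = A + B + b`, `α`, `β` from `exists_exp`, `u = α * β * v`, `eul v = v * b`,
`v = v ∅ + ieul (b * v)`. -/
theorem solve {u S : SQ ι K} (h0 : S ∅ = 0) (hu : eul u = u * S) {k κ : ℕ} {η Γ ν : ℝ}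
    (hd : Dich ω κ η) (hη : 0 ≤ η) (he : 0 ≤ e₀.2) (hΓ : Γ ≤ η * k / 2)
    (h : Sm ω e₀ (hi κ S) ν) :
    Sm ω e₀ (hi k u) ((dgs ω).card * (Real.exp (e₀.2 - Γ) * ZZ ω) +
      (dgs ω).card * ((dgs ω).card * ν)) := by
  obtain ⟨A, B, A0, B0, hA, hB, hS⟩ := split h0 hd
  obtain ⟨α, α1, α2, α3⟩ := exists_exp A0 hA
  obtain ⟨β, β1, β2, β3⟩ := exists_exp B0 hB
  obtain ⟨w, hw⟩ := (isUnit_of (g := α * β) (by
    rw [mul_empty, α2, β2, mul_one]; exact one_ne_zero)).exists_right_inv
  have h1 : u = α * β * (w * u) := by rw [← mul_assoc, hw, one_mul]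
  generalize w * u = v at h1
  have h2 : eul v = hi κ S * v := by
    have h3 := hu
    rw [h1, eul_mul, eul_mul, α3, β3] at h3
    generalize hi κ S = b at hS
    linear_combination w * h3 - (eul v - b * v) * hw + w * α * β * v * hS
  have h4 : u = v ∅ • (α * β) + ieul (hi κ S * v) * (α * β) := by
    rw [← h2, Algebra.smul_def, ← add_mul, ← eq_add_ieul_eul, h1, mul_comm]
  have h5 : ∀ (c : K) (f g : SQ ι K), hi k (c • f + g) = c • hi k f + hi k g := fun c f g =>
    SQ.ext fun s => by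
      simp only [hi, SQ.add_apply, SQ.smul_apply]
      by_cases h6 : k ≤ s.card
      · simp only [res_pos (p := fun s => k ≤ s.card) _ h6, SQ.add_apply, SQ.smul_apply]
      · simp only [res_neg (p := fun s => k ≤ s.card) _ h6, mul_zero, add_zero]
  rw [h4, h5]
  exact ((Sm.cone α1 β1 hη he hΓ).smul _).add (((h.mul v).ieul.mul _).hi k)

end Pool.Agent.Lib.MP_8b1d3b_lc.CD
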