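import Mathlib

/-! The rank of an integer matrix is at least `(tr A)² / tr A²`, `A = M Mᵀ`. -/

namespace Pool.Agent.Lib.MP_8b1d3b_lc.CD

open Finset Matrix

theorem rank_map_sq {m R F : Type*} [Fintype m] [DecidableEq m] [Field R] [Field F] (φ : R →+* F)
    (M : Matrix m m R) : (M.map φ).rank = M.rank := by
  classical
  obtain ⟨V, U, e, hV, hU, h⟩ := exists_rank_normal_form M
  have h1 := congrArg φ.mapMatrix h
  rw [map_mul, map_mul] at h1
  have h2 : φ.mapMatrix ((fromBlocks 1 0 0 0 : Matrix _ _ R).submatrix e e) =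
      (diagonal (Sum.elim (fun _ => (1 : F)) fun _ => 0)).submatrix e e := by
    rw [← fromBlocks_diagonal]
    ext i j
    simp only [RingHom.mapMatrix_apply, map_apply, submatrix_apply]
    rcases e i with a | a <;> rcases e j with b | b <;> simp [one_apply]
  have h3 := congrArg Matrix.rank (h1.trans h2)
  rw [rank_mul_eq_left_of_isUnit_det _ _ ((isUnit_iff_isUnit_det _).1 (hU.map φ.mapMatrix)),
    rank_mul_eq_right_of_isUnit_det _ _ ((isUnit_iff_isUnit_det _).1 (hV.map φ.mapMatrix)),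
    rank_submatrix, rank_diagonal] at h3
  rw [show M.map φ = φ.mapMatrix M from rfl, h3, Fintype.card_subtype, card_filter]
  simp

theorem trace_sq_le {ι : Type*} [Fintype ι] [DecidableEq ι] (A : Matrix ι ι ℝ)
    (hA : A.IsHermitian) : A.trace ^ 2 ≤ A.rank * (A * A).trace ∧ 0 ≤ (A * A).trace := by
  classical
  have h0 : (A * A).trace = ∑ i, hA.eigenvalues i ^ 2 := by
    conv_lhs => rw [hA.spectral_theorem, ← map_mul, Unitary.conjStarAlgAut_apply,
      Matrix.trace_mul_comm, ← mul_assoc]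
    simp [Matrix.diagonal_mul_diagonal, sq]
  have h2 : A.trace = ∑ i ∈ univ.filter (fun i => hA.eigenvalues i ≠ 0), hA.eigenvalues i := by
    rw [hA.trace_eq_sum_eigenvalues, sum_filter_ne_zero]
    simp
  rw [h0, h2, hA.rank_eq_card_non_zero_eigs, Fintype.card_subtype]
  refine ⟨(sq_sum_le_card_mul_sum_sq).trans ?_, by positivity⟩
  refine mul_le_mul_of_nonneg_left ?_ (Nat.cast_nonneg _)
  exact sum_le_sum_of_subset_of_nonneg (filter_subset _ _) fun i _ _ => sq_nonneg _

/-- Over `ℝ`: eigenvalues of the symmetric matrix `M Mᵀ` and Cauchy-Schwarz over the nonzero ones;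
the rank of `M Mᵀ` does not depend on the field of characteristic zero. -/
theorem sq_le_rank (K : Type) [Field K] [CharZero K] {α : Type} [Fintype α] [DecidableEq α]
    (M : Matrix α α ℤ) :
    (((M * Mᵀ).trace : ℤ) : ℝ) ^ 2 ≤
      ((M.map (Int.cast : ℤ → K)).rank : ℝ) * (((M * Mᵀ * (M * Mᵀ)).trace : ℤ) : ℝ) := by
  have e : ∀ (F : Type) [Field F] [CharZero F],
      ((M * Mᵀ).map (Int.cast : ℤ → ℚ)).map (algebraMap ℚ F) =
        M.map (Int.cast : ℤ → F) * (M.map (Int.cast : ℤ → F))ᵀ := by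
    intro F _ _
    ext i j
    simp [Matrix.mul_apply]
  obtain ⟨h1, h2⟩ := trace_sq_le (M.map (Int.cast : ℤ → ℝ) * (M.map (Int.cast : ℤ → ℝ))ᵀ)
    (by simpa using isHermitian_mul_conjTranspose_self (M.map (Int.cast : ℤ → ℝ)))
  have h3 : (M.map (Int.cast : ℤ → ℝ) * (M.map (Int.cast : ℤ → ℝ))ᵀ).rank ≤
      (M.map (Int.cast : ℤ → K)).rank := by
    rw [← e, rank_map_sq, ← rank_map_sq (algebraMap ℚ K), e]
    exact rank_mul_le_left _ _
  refine le_trans (le_of_eq ?_) ((h1.trans
    (mul_le_mul_of_nonneg_right (Nat.cast_le.2 h3) h2)).trans_eq ?_)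
  · simp [Matrix.trace, Matrix.mul_apply]
  · simp [Matrix.trace, Matrix.mul_apply]

end Pool.Agent.Lib.MP_8b1d3b_lc.CD
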