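import Mathlib

/-! A transfer bound for sums over words, and the average of signs along four paths. -/

namespace Pool.Agent.Lib.MP_8b1d3b_lc.CD

open Finset

/-- Transfer bound with a potential `p ≥ 1`.  Induction on `d`, splitting off the first letter. -/
theorem transfer {σ : Type} [Fintype σ] (ok : σ → σ → ℝ) (hok : ∀ a b, 0 ≤ ok a b) (ρ : ℝ)
    (hρ : 0 ≤ ρ) (d : ℕ) (lw p : ℕ → σ → ℝ) (hlw : ∀ t a, 0 ≤ lw t a) (hp : ∀ t a, 1 ≤ p t a)
    (h : ∀ t < d, ∀ a, ∑ b, ok a b * lw (t + 1) b * p (t + 1) b ≤ ρ * p t a) :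
    ∑ θ : Fin (d + 1) → σ, (∏ t : Fin (d + 1), lw t (θ t)) *
        ∏ t : Fin d, ok (θ t.castSucc) (θ t.succ) ≤ ρ ^ d * ∑ a, lw 0 a * p 0 a := by
  have key : ∀ (k i : ℕ) (a : σ), i + k = d → ∑ Q : Fin k → σ, ∏ t : Fin k,
      (ok ((Fin.cons a Q : Fin (k + 1) → σ) t.castSucc) (Q t) * lw (i + t + 1) (Q t)) ≤
        ρ ^ k * p i a := by
    intro k
    induction k with
    | zero => exact fun i a _ => by simpa using hp i a
    | succ k ih =>
      intro i a hi
      rw [← (Fin.consEquiv fun _ => σ).sum_comp, Fintype.sum_prod_type]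
      refine (sum_le_sum (g := fun b => ρ ^ k * (ok a b * lw (i + 1) b * p (i + 1) b))
        fun b _ => ?_).trans ?_
      · have := mul_le_mul_of_nonneg_left (ih (i + 1) b (by omega))
          (mul_nonneg (hok a b) (hlw (i + 1) b))
        rw [mul_sum] at this
        refine le_trans (le_of_eq (sum_congr rfl fun Q _ => ?_)) (this.trans_eq (by ring))
        rw [Fin.prod_univ_succ]
        simp [Fin.consEquiv, add_assoc, add_comm 1]
      · rw [← mul_sum, pow_succ, mul_assoc]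
        exact mul_le_mul_of_nonneg_left (h i (by omega) a) (pow_nonneg hρ _)
  rw [← (Fin.consEquiv fun _ => σ).sum_comp, Fintype.sum_prod_type, mul_sum]
  refine sum_le_sum fun a _ => ?_
  have := mul_le_mul_of_nonneg_left (key d 0 a (zero_add d)) (hlw 0 a)
  rw [mul_sum] at this
  refine le_trans (le_of_eq (sum_congr rfl fun Q _ => ?_)) (this.trans_eq (by ring))
  rw [Fin.prod_univ_succ, prod_mul_distrib]
  simp [Fin.consEquiv, mul_assoc, mul_comm]

/-- The sign of a path. -/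
def sgn {d q : ℕ} (ε : Fin d → Fin q → Fin q → ℤˣ) (w : Fin (d + 1) → Fin q) : ℤ :=
  ∏ t : Fin d, (ε t (w t.castSucc) (w t.succ) : ℤ)

theorem sgn_mul {d q : ℕ} (ε δ : Fin d → Fin q → Fin q → ℤˣ) (w : Fin (d + 1) → Fin q) :
    sgn (ε * δ) w = sgn ε w * sgn δ w := by
  simp [sgn, prod_mul_distrib]

/-- If the edge of the first path at step `t` is not an edge of the other three, the average of the
product of the four signs vanishes (flip that sign: an involution that negates every term). -/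
theorem sum_sgn_eq_zero {d q : ℕ} (w₁ w₂ w₃ w₄ : Fin (d + 1) → Fin q) (t : Fin d)
    (h₂ : (w₂ t.castSucc, w₂ t.succ) ≠ (w₁ t.castSucc, w₁ t.succ))
    (h₃ : (w₃ t.castSucc, w₃ t.succ) ≠ (w₁ t.castSucc, w₁ t.succ))
    (h₄ : (w₄ t.castSucc, w₄ t.succ) ≠ (w₁ t.castSucc, w₁ t.succ)) :
    ∑ ε : Fin d → Fin q → Fin q → ℤˣ, sgn ε w₁ * sgn ε w₂ * sgn ε w₃ * sgn ε w₄ = 0 := by
  let δ : Fin d → Fin q → Fin q → ℤˣ := fun s a b =>
    if s = t ∧ (a, b) = (w₁ t.castSucc, w₁ t.succ) then -1 else 1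
  have e : ∀ w : Fin (d + 1) → Fin q, sgn δ w =
      if (w t.castSucc, w t.succ) = (w₁ t.castSucc, w₁ t.succ) then -1 else 1 := by
    intro w
    rw [sgn, prod_eq_single t (fun s _ hs => by simp [δ, hs]) (by simp)]
    simp only [δ, true_and]
    split_ifs <;> simp
  have h := Equiv.sum_comp (Equiv.mulRight δ)
    fun ε => sgn ε w₁ * sgn ε w₂ * sgn ε w₃ * sgn ε w₄
  simp only [Equiv.coe_mulRight, sgn_mul, e, h₂, h₃, h₄, if_true, if_false, mul_one, mul_neg,
    neg_mul, sum_neg_distrib] at h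
  linarith

theorem sgn_mul_self {d q : ℕ} (ε : Fin d → Fin q → Fin q → ℤˣ) (w : Fin (d + 1) → Fin q) :
    sgn ε w * sgn ε w = 1 := by
  rw [sgn, ← prod_mul_distrib]
  exact prod_eq_one fun t _ => by rw [← Units.val_mul, Int.units_mul_self, Units.val_one]

end Pool.Agent.Lib.MP_8b1d3b_lc.CD
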