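import Pool.Agent.Lib.MP_8b1d3b_lc.CD.Defs
import Pool.Agent.Lib.MP_8b1d3b_lc.CD.Rank
import Pool.Agent.Lib.MP_8b1d3b_lc.CD.Tran

/-! The signed path polynomial has almost full weighted rank. -/

namespace Pool.Agent.Lib.MP_8b1d3b_lc.CD

open Finset Matrix
open scoped Classical

/-- The set of variables of a path. -/
def im {d q : ℕ} (w : Fin (d + 1) → Fin q) : Finset (Fin (d + 1) × Fin q) :=
  univ.image fun t => (t, w t)

/-- The weight of a variable depends on its block only. -/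
def om {d : ℕ} (q : ℕ) (Φ : ℕ → ℝ) : Fin (d + 1) × Fin q → ℝ := fun v => Φ (v.1 + 1) - Φ v.1

variable {d q : ℕ} {w w' : Fin (d + 1) → Fin q} {s t : Finset (Fin (d + 1) × Fin q)}
  {ω : Fin (d + 1) × Fin q → ℝ} {ε : Fin d → Fin q → Fin q → ℤˣ} {Φ : ℕ → ℝ}

theorem mem_im {i : Fin (d + 1)} {a : Fin q} : (i, a) ∈ im w ↔ a = w i := by
  simp [im, eq_comm]

theorem dg_im (h0 : Φ 0 = 0) (w : Fin (d + 1) → Fin q) :
    dg (om q Φ) (im w) = (d + 1, Φ (d + 1)) := by
  have h : Function.Injective fun t => (t, w t) := fun _ _ e => congrArg Prod.fst e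
  refine Prod.ext (by simp [dg, im, card_image_of_injective _ h]) ?_
  simp only [dg, im, sum_image h.injOn, om]
  rw [Fin.sum_univ_eq_sum_range (fun t => Φ (t + 1) - Φ t), sum_range_sub, h0, sub_zero]

/-- `t` is the disjoint union of `s` and the path `w` -/
def AA (t s : Finset (Fin (d + 1) × Fin q)) (w : Fin (d + 1) → Fin q) : Prop :=
  Disjoint s (im w) ∧ t = s ∪ im w

theorem AA.sdiff (h : AA t s w) : t \ s = im w := by rw [h.2, union_sdiff_cancel_left h.1]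

theorem AA.left (h : AA t s w) : s = t \ im w := by rw [h.2, union_sdiff_cancel_right h.1]

theorem AA.eq (h : AA t s w) (h' : AA t s w') : w = w' :=
  funext fun _ => mem_im.1 (h.sdiff.symm.trans h'.sdiff ▸ mem_im.2 rfl)

/-- the integer matrix of a block -/
noncomputable def Mz (ω : Fin (d + 1) × Fin q → ℝ) (ε : Fin d → Fin q → Fin q → ℤˣ) (e : ℕ × ℝ) :
    Matrix (Finset (Fin (d + 1) × Fin q)) (Finset (Fin (d + 1) × Fin q)) ℤ :=
  Matrix.of fun t s => ∑ w, if dg ω s = e ∧ AA t s w then sgn ε w else 0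

theorem blk_eq {K : Type} [Field K] {G : SQ (Fin (d + 1) × Fin q) K} {a : ℝ}
    (hω : ∀ w, dg ω (im w) = (d + 1, a))
    (hG : ∀ u, u.card = d + 1 → G u = ∑ w, if u = im w then (sgn ε w : K) else 0) (e : ℕ × ℝ) :
    blk ω (d + 1, a) G e = (Mz ω ε e).map (Int.cast : ℤ → K) := by
  ext t s
  simp only [blk, Mz, of_apply, map_apply, Int.cast_sum, Int.cast_ite, Int.cast_zero]
  split_ifs with h
  · have h1 : s.card = e.1 := congrArg Prod.fst h.1
    have h2 : t.card = e.1 + (d + 1) := congrArg Prod.fst h.2.1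
    rw [hG _ (by rw [card_sdiff_of_subset h.2.2]; omega)]
    exact sum_congr rfl fun w _ => if_congr ⟨fun e => ⟨h.1, e ▸ disjoint_sdiff,
      e ▸ (union_sdiff_of_subset h.2.2).symm⟩, fun e => e.2.sdiff⟩ rfl rfl
  · refine (sum_eq_zero fun w _ => if_neg fun ⟨h1, h2, h3⟩ => h ⟨h1, ?_, h3 ▸ subset_union_left⟩).symm
    rw [← h1, ← hω w, h3]
    exact Prod.ext (card_union_of_disjoint h2) (sum_union h2)

theorem sum_dgs (F : Finset (Fin (d + 1) × Fin q) → Prop) [DecidablePred F] :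
    ∑ e ∈ dgs ω, Real.exp (-e.2) * ∑ s, (if dg ω s = e ∧ F s then (1 : ℝ) else 0) =
      ∑ s, if F s then Real.exp (-∑ i ∈ s, ω i) else 0 := by
  simp only [mul_sum]
  rw [sum_comm]
  refine sum_congr rfl fun s _ => ?_
  rw [sum_eq_single (dg ω s) (fun e _ he => by simp [he.symm]) fun h => (h (by simp [dgs])).elim]
  simp [dg]

theorem sum_ind (ω : Fin (d + 1) × Fin q → ℝ) (I E : Finset (Fin (d + 1) × Fin q)) :
    ∑ s, (if I ⊆ s ∧ Disjoint s E then Real.exp (-∑ i ∈ s, ω i) else 0) =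
      ∏ i, ∏ a, ((if (i, a) ∈ E then 0 else Real.exp (-ω (i, a))) + if (i, a) ∈ I then 0 else 1) := by
  rw [← Fintype.prod_prod_type (fun v => (if v ∈ E then 0 else Real.exp (-ω v)) +
    if v ∈ I then (0 : ℝ) else 1), prod_add, powerset_univ]
  refine sum_congr rfl fun s _ => ?_
  split_ifs with h
  · rw [prod_congr rfl fun v hv => if_neg (disjoint_left.1 h.2 hv),
      prod_eq_one fun v hv => if_neg fun e => (mem_sdiff.1 hv).2 (h.1 e), mul_one,
      ← sum_neg_distrib, Real.exp_sum]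
  · by_cases h1 : I ⊆ s
    · obtain ⟨v, h2, h3⟩ := not_disjoint_iff.1 fun e => h ⟨h1, e⟩
      rw [prod_eq_zero (s := s) h2 (by simp [h3]), zero_mul]
    · obtain ⟨v, h2, h3⟩ := not_subset.1 h1
      rw [prod_eq_zero (s := univ \ s) (mem_sdiff.2 ⟨mem_univ v, h3⟩) (by simp [h2]), mul_zero]

theorem prod_off {y : ℝ} (F : Fin q → ℝ) (A : Finset (Fin q)) (h : ∀ a ∉ A, F a = y) :
    (∏ a, F a) * y ^ A.card = (∏ a ∈ A, F a) * y ^ q := by
  rw [← prod_mul_prod_compl A, prod_congr rfl fun a ha => h a (mem_compl.1 ha), prod_const,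
    mul_assoc, ← pow_add, card_compl_add_card, Fintype.card_fin]

theorem tr_one : ∑ e ∈ dgs ω, Real.exp (-e.2) * (((Mz ω ε e * (Mz ω ε e)ᵀ).trace : ℤ) : ℝ) =
    ∑ w, ∑ s, if ∅ ⊆ s ∧ Disjoint s (im w) then Real.exp (-∑ i ∈ s, ω i) else 0 := by
  simp only [← sum_dgs]
  rw [sum_comm]
  refine sum_congr rfl fun e _ => ?_
  rw [← mul_sum, sum_comm]
  congr 1
  simp only [trace, diag_apply, Matrix.mul_apply, transpose_apply, Mz, of_apply]
  rw [sum_comm, Int.cast_sum]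
  refine sum_congr rfl fun s _ => ?_
  have : ∀ t, ((∑ w, if dg ω s = e ∧ AA t s w then sgn ε w else 0) *
      ∑ w, if dg ω s = e ∧ AA t s w then sgn ε w else 0) =
      ∑ w, if t = s ∪ im w then (if dg ω s = e ∧ ∅ ⊆ s ∧ Disjoint s (im w) then 1 else 0) else 0 :=
    fun t => by
      rw [sum_mul]
      refine sum_congr rfl fun w _ => ?_
      by_cases h : dg ω s = e ∧ AA t s w
      · rw [sum_eq_single w (fun w' _ hw => if_neg fun h' => hw (h'.2.eq h.2)) (by simp), if_pos h,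
          sgn_mul_self, if_pos h.2.2, if_pos ⟨h.1, empty_subset _, h.2.1⟩]
      · rw [if_neg h, zero_mul, ← ite_and, if_neg fun e => h ⟨e.2.1, e.2.2.2, e.1⟩]
  simp only [this]
  rw [sum_comm]
  simp

/-- four labels -/
abbrev Q4 (q : ℕ) : Type := Fin q × Fin q × Fin q × Fin q

/-- the sources agree on the block -/
def IsS (a : Q4 q) : Prop := a.1 = a.2.2.2 ∧ a.2.1 = a.2.2.1

/-- the targets agree on the block -/
def IsT (a : Q4 q) : Prop := a.1 = a.2.1 ∧ a.2.2.1 = a.2.2.2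

/-- the sign of a four cycle -/
def sg4 (ε : Fin d → Fin q → Fin q → ℤˣ) (θ : Fin (d + 1) → Q4 q) : ℤ :=
  sgn ε (fun i => (θ i).1) * sgn ε (fun i => (θ i).2.1) * sgn ε (fun i => (θ i).2.2.1) *
    sgn ε fun i => (θ i).2.2.2

/-- a four cycle -/
def Cy (ω : Fin (d + 1) × Fin q → ℝ) (e : ℕ × ℝ) (θ : Fin (d + 1) → Q4 q)
    (s₁ s₂ t₁ t₂ : Finset (Fin (d + 1) × Fin q)) : Prop :=
  ((dg ω s₁ = e ∧ AA t₁ s₁ fun i => (θ i).1) ∧ dg ω s₁ = e ∧ AA t₂ s₁ fun i => (θ i).2.1) ∧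
    (dg ω s₂ = e ∧ AA t₂ s₂ fun i => (θ i).2.2.1) ∧ dg ω s₂ = e ∧ AA t₁ s₂ fun i => (θ i).2.2.2

/-- the weighted number of four cycles -/
noncomputable def NN (ω : Fin (d + 1) × Fin q → ℝ) (θ : Fin (d + 1) → Q4 q) : ℝ :=
  ∑ e ∈ dgs ω, Real.exp (-e.2) * ∑ s₁, ∑ z : Finset _ × Finset _ × Finset _,
    if Cy ω e θ s₁ z.2.2 z.1 z.2.1 then 1 else 0

theorem tr_two : ∑ e ∈ dgs ω, Real.exp (-e.2) *
    (((Mz ω ε e * (Mz ω ε e)ᵀ * (Mz ω ε e * (Mz ω ε e)ᵀ)).trace : ℤ) : ℝ) =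
    ∑ θ, (sg4 ε θ : ℝ) * NN ω θ := by
  simp only [NN, mul_sum]
  rw [sum_comm]
  refine sum_congr rfl fun e _ => ?_
  rw [sum_comm]
  simp only [mul_left_comm _ (Real.exp _), ← mul_sum _ _ (Real.exp _)]
  congr 1
  have : ∀ s₁ s₂ t₁ t₂, Mz ω ε e t₁ s₁ * Mz ω ε e t₂ s₁ * (Mz ω ε e t₂ s₂ * Mz ω ε e t₁ s₂) =
      ∑ θ, sg4 ε θ * if Cy ω e θ s₁ s₂ t₁ t₂ then 1 else 0 := fun s₁ s₂ t₁ t₂ => by
    simp only [Mz, of_apply, sum_mul_sum, ← Fintype.sum_prod_type']
    refine Fintype.sum_equiv ⟨fun x i => (x.1.1 i, x.1.2 i, x.2.1 i, x.2.2 i),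
      fun θ => ((fun i => (θ i).1, fun i => (θ i).2.1), fun i => (θ i).2.2.1, fun i => (θ i).2.2.2),
      fun _ => rfl, fun _ => rfl⟩ _ _ fun x => ?_
    rw [ite_zero_mul_ite_zero, ite_zero_mul_ite_zero, ite_zero_mul_ite_zero, mul_boole, ← mul_assoc]
    exact if_congr Iff.rfl rfl rfl
  simp only [trace, diag_apply, Matrix.mul_apply, transpose_apply, sum_mul_sum, this,
    Fintype.sum_prod_type]
  push_cast
  symm
  refine (sum_congr rfl fun _ _ => sum_comm.trans (sum_congr rfl fun _ _ => sum_comm.trans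
    (sum_congr rfl fun _ _ => sum_comm))).trans (sum_comm.trans (sum_congr rfl fun _ _ => sum_comm))

/-- normalised weight of a block -/
noncomputable def lw (Φ : ℕ → ℝ) (n : ℕ) (a : Q4 q) : ℝ :=
  (if IsS a then if IsT a then 1 + Real.exp (-(Φ (n + 1) - Φ n)) else 1
    else if IsT a then Real.exp (-(Φ (n + 1) - Φ n)) else 0) / (q : ℝ) ^ 2

theorem Cy.typ {e : ℕ × ℝ} {θ : Fin (d + 1) → Q4 q} {s₁ s₂ t₁ t₂ : Finset (Fin (d + 1) × Fin q)}
    (h : Cy ω e θ s₁ s₂ t₁ t₂) (i : Fin (d + 1)) :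
    (IsS (θ i) ∨ IsT (θ i)) ∧ ((θ i).2.2.2 ≠ (θ i).1 → (i, (θ i).2.2.2) ∈ s₁) := by
  obtain ⟨⟨⟨-, a1, b1⟩, -, a2, b2⟩, ⟨-, a3, b3⟩, -, a4, b4⟩ := h
  have k : ∀ a, ((i, a) ∈ s₁ → a ≠ (θ i).1 ∧ a ≠ (θ i).2.1) ∧
      ((i, a) ∈ s₂ → a ≠ (θ i).2.2.1 ∧ a ≠ (θ i).2.2.2) ∧
      ((i, a) ∈ s₁ ∨ a = (θ i).1 ↔ (i, a) ∈ s₂ ∨ a = (θ i).2.2.2) ∧
      ((i, a) ∈ s₁ ∨ a = (θ i).2.1 ↔ (i, a) ∈ s₂ ∨ a = (θ i).2.2.1) := fun a =>
    ⟨fun h => ⟨fun e => disjoint_left.1 a1 h (mem_im.2 e), fun e => disjoint_left.1 a2 h (mem_im.2 e)⟩,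
      fun h => ⟨fun e => disjoint_left.1 a3 h (mem_im.2 e),
        fun e => disjoint_left.1 a4 h (mem_im.2 e)⟩,
      by simpa only [mem_union, mem_im] using Finset.ext_iff.1 (b1.symm.trans b4) (i, a),
      by simpa only [mem_union, mem_im] using Finset.ext_iff.1 (b2.symm.trans b3) (i, a)⟩
  have := k (θ i).1
  have := k (θ i).2.1
  have := k (θ i).2.2.1
  have := k (θ i).2.2.2
  unfold IsS IsT
  grind

theorem NN_le (hq : 0 < q) (θ : Fin (d + 1) → Q4 q) : NN (om q Φ) θ ≤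
    (∏ i : Fin (d + 1), (1 + Real.exp (-(Φ (i + 1) - Φ i))) ^ q *
      (q / (1 + Real.exp (-(Φ (i + 1) - Φ i)))) ^ 2) * ∏ i : Fin (d + 1), lw Φ i (θ i) := by
  by_cases h : ∀ i, IsS (θ i) ∨ IsT (θ i)
  · refine le_trans (sum_le_sum fun e _ => mul_le_mul_of_nonneg_left (sum_le_sum fun s _ => ?_)
      (Real.exp_pos _).le) ((sum_dgs fun s => (univ.filter fun v => v.2 = (θ v.1).2.2.2 ∧
        v.2 ≠ (θ v.1).1) ⊆ s ∧ Disjoint s (im (fun i => (θ i).1) ∪ im fun i => (θ i).2.1)).trans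
        ((sum_ind _ _ _).trans ?_)).le
    · by_cases h' : ∃ z : Finset _ × Finset _ × Finset _, Cy (om q Φ) e θ s z.2.2 z.1 z.2.1
      · obtain ⟨z, hz⟩ := h'
        rw [sum_eq_single z (fun y _ hy => if_neg fun e => hy ?_) (by simp), if_pos hz, if_pos]
        · refine ⟨hz.1.1.1, fun v hv => ?_, disjoint_union_right.2 ⟨hz.1.1.2.1, hz.1.2.2.1⟩⟩
          obtain ⟨h1, h2⟩ := (mem_filter.1 hv).2
          exact (show (v.1, (θ v.1).2.2.2) = v from Prod.ext rfl h1.symm) ▸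
            (hz.typ v.1).2 (h1 ▸ h2)
        · have e1 := e.1.1.2.2.trans hz.1.1.2.2.symm
          exact Prod.ext e1 (Prod.ext (e.1.2.2.2.trans hz.1.2.2.2.symm)
            (e.2.2.2.left.trans (e1 ▸ hz.2.2.2.left.symm)))
      · rw [sum_eq_zero fun z _ => if_neg fun e => h' ⟨z, e⟩]
        positivity
    · rw [← prod_mul_distrib]
      refine prod_congr rfl fun i _ => ?_
      have hq' : (q : ℝ) ≠ 0 := by positivity
      simp only [mem_union, mem_im, mem_filter, mem_univ, true_and, om, lw]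
      have h0 := Real.exp_pos (-(Φ (i + 1) - Φ i))
      generalize Real.exp _ = x at h0
      have := h i
      generalize θ i = a at this
      obtain ⟨a, b, c, e⟩ := a
      simp only [IsS, IsT] at this ⊢
      have h1 : 1 + x ≠ 0 := by positivity
      by_cases e1 : a = e ∧ b = c
      · obtain ⟨rfl, rfl⟩ := e1
        by_cases e2 : a = b
        · subst e2
          have := prod_off (y := 1 + x) (fun j => (if j = a ∨ j = a then 0 else x) +
            if j = a ∧ j ≠ a then 0 else 1) {a} fun j hj => by simp at hj; simp [hj, add_comm]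
          simp only [card_singleton, prod_singleton] at this
          rw [eq_div_of_mul_eq (pow_ne_zero _ h1) this]
          simp
          field_simp
        · have := prod_off (y := 1 + x) (fun j => (if j = a ∨ j = b then 0 else x) +
            if j = a ∧ j ≠ a then 0 else 1) {a, b} fun j hj => by simp at hj; simp [hj, add_comm]
          rw [card_pair e2, prod_pair e2] at this
          rw [eq_div_of_mul_eq (pow_ne_zero _ h1) this]
          simp [e2]
          field_simp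
      · obtain ⟨rfl, rfl⟩ := this.resolve_left e1
        have e2 : a ≠ c := fun e => e1 ⟨e, e⟩
        have := prod_off (y := 1 + x) (fun j => (if j = a ∨ j = a then 0 else x) +
          if j = c ∧ j ≠ a then 0 else 1) {a, c} fun j hj => by simp at hj; simp [hj, add_comm]
        rw [card_pair e2, prod_pair e2] at this
        rw [eq_div_of_mul_eq (pow_ne_zero _ h1) this]
        simp [e2, e2.symm]
        field_simp
  · obtain ⟨i, hi⟩ := not_forall.1 h
    rw [prod_eq_zero (mem_univ i) (f := fun i : Fin (d + 1) => lw Φ i (θ i))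
      (by simp [lw, not_or.1 hi]), mul_zero]
    exact (sum_eq_zero fun e _ => by
      rw [sum_eq_zero fun s _ => sum_eq_zero fun z _ => if_neg fun e => hi (e.typ i).1,
        mul_zero]).le

/-- two consecutive blocks are compatible -/
noncomputable def ok (a b : Q4 q) : ℝ := if IsS a ∧ IsS b ∨ IsT a ∧ IsT b then 1 else 0

/-- the potential -/
noncomputable def pot (Φ : ℕ → ℝ) (n : ℕ) (a : Q4 q) : ℝ :=
  if IsT a then if IsS a then 14 else Real.exp (Φ (n + 1)) else 1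

theorem avg (θ : Fin (d + 1) → Q4 q) (h : ∀ i, IsS (θ i) ∨ IsT (θ i)) :
    ∑ ε : Fin d → Fin q → Fin q → ℤˣ, (sg4 ε θ : ℝ) ≤
      Fintype.card (Fin d → Fin q → Fin q → ℤˣ) * ∏ i : Fin d, ok (θ i.castSucc) (θ i.succ) := by
  by_cases h' : ∀ i : Fin d, IsS (θ i.castSucc) ∧ IsS (θ i.succ) ∨ IsT (θ i.castSucc) ∧ IsT (θ i.succ)
  · rw [prod_eq_one (f := fun i : Fin d => ok (θ i.castSucc) (θ i.succ)) fun i _ => if_pos (h' i),
      ← nsmul_eq_mul]
    refine sum_le_card_nsmul _ _ _ fun ε _ => ?_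
    have : sg4 ε θ * sg4 ε θ = 1 := by
      simp only [sg4, mul_mul_mul_comm _ (sgn ε _) (_ : ℤ) (sgn ε _), sgn_mul_self, mul_one]
    exact_mod_cast (show sg4 ε θ ≤ 1 by nlinarith)
  · obtain ⟨i, hi⟩ := not_forall.1 h'
    have := h i.castSucc
    have := h i.succ
    rw [prod_eq_zero (mem_univ i) (if_neg hi), mul_zero, ← Int.cast_sum]
    unfold IsS IsT at *
    refine (Int.cast_eq_zero.2 (sum_sgn_eq_zero _ _ _ _ i ?_ ?_ ?_)).le <;>
      simp only [ne_eq, Prod.mk.injEq] <;> grind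

theorem exp_half {x y : ℝ} (n : ℕ) (hx : x ≤ n / 2) (hy : 0 ≤ y) (h : 2.7182818286 ^ n ≤ y ^ 2) :
    Real.exp x ≤ y := by
  refine (pow_le_pow_iff_left₀ (Real.exp_pos x).le hy two_ne_zero).1 (le_trans ?_ h)
  rw [← Real.exp_nat_mul]
  refine (Real.exp_le_exp.2 (show _ ≤ (n : ℝ) * 1 by push_cast; linarith)).trans ?_
  rw [Real.exp_nat_mul]
  exact pow_le_pow_left₀ (Real.exp_pos 1).le Real.exp_one_lt_d9.le n

theorem step (hq : 80 * (d + 1) ≤ q) (h3 : ∀ t, -(3 / 2) ≤ Φ (t + 1) - Φ t) (n : ℕ) (o : Q4 q → ℝ) (α β : ℝ) (ha : 0 ≤ α)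
    (hb : 0 ≤ β) (ho : ∀ b, o b ≤ 1 ∧ (¬ IsT b → o b ≤ α) ∧ (¬ IsS b → o b ≤ β)) :
    ∑ b, o b * lw Φ n b * pot Φ n b ≤ α + β * Real.exp (Φ n) + 1 / (d + 1) := by
  have hq' : (80 : ℝ) * (d + 1) ≤ q := by exact_mod_cast hq
  have h0 : (0 : ℝ) < q := lt_of_lt_of_le (by positivity) hq'
  have e1 : Real.exp (-(Φ (n + 1) - Φ n)) ≤ 9 / 2 :=
    exp_half 3 (by push_cast; linarith [h3 n]) (by norm_num) (by norm_num)
  have e2 : Real.exp (-(Φ (n + 1) - Φ n)) * Real.exp (Φ (n + 1)) = Real.exp (Φ n) := by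
    rw [← Real.exp_add]; ring_nf
  have e3 := Real.exp_pos (-(Φ (n + 1) - Φ n))
  have e4 := Real.exp_pos (Φ n)
  refine (sum_le_sum (g := fun b => ((if IsS b then α else 0) + (if IsT b then β * Real.exp (Φ n)
    else 0) + if IsS b ∧ IsT b then 80 else 0) / (q : ℝ) ^ 2) fun b _ => ?_).trans ?_
  · obtain ⟨o1, o2, o3⟩ := ho b
    rw [lw, pot, ← mul_div_assoc, div_mul_eq_mul_div]
    refine div_le_div_of_nonneg_right ?_ (by positivity)
    by_cases c1 : IsS b <;> by_cases c2 : IsT b <;> simp only [c1, c2, if_true, if_false, and_self,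
      and_false, false_and]
    · nlinarith [mul_nonneg hb e4.le]
    · linarith [o2 c2]
    · rw [mul_assoc, e2]; nlinarith [o3 c1]
    · simp
  · have s1 : ∑ b : Q4 q, (if IsS b then α else 0) = q ^ 2 * α := by
      rw [sum_congr rfl fun b _ => if_congr (show IsS b ↔ b.1 = b.2.2.2 ∧ b.2.1 = b.2.2.1 from
        Iff.rfl) rfl rfl]
      simp [Fintype.sum_prod_type, ite_and]; ring
    have s2 : ∀ y : ℝ, ∑ b : Q4 q, (if IsT b then y else 0) = q ^ 2 * y := fun y => by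
      rw [sum_congr rfl fun b _ => if_congr (show IsT b ↔ b.1 = b.2.1 ∧ b.2.2.1 = b.2.2.2 from
        Iff.rfl) rfl rfl]
      simp [Fintype.sum_prod_type, ite_and]; ring
    have s3 : ∑ b : Q4 q, (if IsS b ∧ IsT b then (80 : ℝ) else 0) = q * 80 := by
      rw [sum_congr rfl fun b _ => if_congr (show IsS b ∧ IsT b ↔ b.1 = b.2.1 ∧ b.1 = b.2.2.1 ∧
        b.1 = b.2.2.2 by unfold IsS IsT; grind) rfl rfl]
      simp [Fintype.sum_prod_type, ite_and]
    rw [← sum_div, sum_add_distrib, sum_add_distrib, s1, s2, s3, div_le_iff₀ (by positivity)]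
    have : (q : ℝ) * 80 ≤ 1 / (d + 1) * q ^ 2 := by
      rw [div_mul_eq_mul_div, le_div_iff₀ (by positivity)]; nlinarith
    nlinarith

theorem words (hq : 80 * (d + 1) ≤ q) (h0 : Φ 0 = 0) (h1 : ∀ t, 0 ≤ Φ t) (h2 : ∀ t, Φ t ≤ 5 / 2)
    (h3 : ∀ t, -(3 / 2) ≤ Φ (t + 1) - Φ t) : ∑ θ : Fin (d + 1) → Q4 q,
      (∏ i : Fin (d + 1), lw Φ i (θ i)) * ∏ i : Fin d, ok (θ i.castSucc) (θ i.succ) ≤ 9 := by
  have e1 : ∀ t, 1 ≤ Real.exp (Φ t) := fun t => Real.one_le_exp (h1 t)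
  have e2 : ∀ t, Real.exp (Φ t) ≤ 13 := fun t =>
    exp_half 5 (by push_cast; exact h2 t) (by norm_num) (by norm_num)
  have e3 : (0 : ℝ) < 1 / (d + 1) := by positivity
  have e4 : (1 : ℝ) / (d + 1) ≤ 1 := (div_le_one (by positivity)).2 (by simp)
  have p1 : ∀ t (a : Q4 q), 1 ≤ pot Φ t a := fun t a => by
    unfold pot; split_ifs <;> simp [e1]
  refine (transfer ok (fun a b => by unfold ok; positivity) (1 + 1 / (d + 1)) (by positivity) d
    (lw Φ) (pot Φ) (fun t a => by unfold lw; positivity) p1 fun t _ a => ?_).trans ?_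
  · refine (step hq h3 _ _ (if IsS a then 1 else 0) (if IsT a then 1 else 0) (by positivity)
      (by positivity) fun b => ?_).trans ?_
    · unfold ok
      refine ⟨?_, fun _ => ?_, fun _ => ?_⟩ <;> split_ifs <;> first | simp | tauto
    · have := e2 (t + 1)
      have := mul_le_mul_of_nonneg_left (p1 t a) e3.le
      suffices (if IsS a then (1 : ℝ) else 0) + (if IsT a then 1 else 0) * Real.exp (Φ (t + 1)) ≤
        pot Φ t a by nlinarith
      unfold pot
      split_ifs <;> linarith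
  · have s1 := step hq h3 0 (fun _ => 1) 1 1 zero_le_one zero_le_one (by simp)
    simp only [one_mul, h0, Real.exp_zero] at s1
    have s2 : (1 + 1 / (d + 1) : ℝ) ^ d ≤ 3 := by
      refine (pow_le_pow_left₀ (by positivity) ((add_comm _ _).trans_le (Real.add_one_le_exp _))
        d).trans ?_
      rw [← Real.exp_nat_mul]
      refine exp_half 2 ?_ (by norm_num) (by norm_num)
      rw [mul_one_div, div_le_iff₀ (by positivity)]
      simp
    exact (mul_le_mul s2 (s1.trans (show _ ≤ 3 by linarith)) (sum_nonneg fun a _ => mul_nonneg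
      (by unfold lw; positivity) (zero_le_one.trans (p1 0 a))) (by norm_num)).trans (by norm_num)

theorem lower (K : Type) [Field K] [CharZero K] (d q : ℕ) (hq : 80 * (d + 1) ≤ q) (Φ : ℕ → ℝ)
    (h0 : Φ 0 = 0) (h1 : ∀ t, 0 ≤ Φ t) (h2 : ∀ t, Φ t ≤ 5 / 2)
    (h3 : ∀ t, -(3 / 2) ≤ Φ (t + 1) - Φ t) :
    ∃ ε : Fin d → Fin q → Fin q → ℤˣ, ∀ G : SQ (Fin (d + 1) × Fin q) K,
      (∀ u, u.card = d + 1 → G u = ∑ w, if u = im w then (sgn ε w : K) else 0) →
      ZZ (om (d := d) q Φ) ≤ 9 * mu (om q Φ) (d + 1, Φ (d + 1)) G := by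
  have hq' : 0 < q := by omega
  let x : Fin (d + 1) → ℝ := fun i => 1 + Real.exp (-(Φ (i + 1) - Φ i))
  have hx : ∀ i, 0 < x i := fun i => by positivity
  have hZ : ZZ (om (d := d) q Φ) = ∏ i, x i ^ q := by
    simpa [ZZ, om, x, add_comm] using sum_ind (om (d := d) q Φ) ∅ ∅
  obtain ⟨ε, -, hε⟩ := exists_le_of_sum_le (s := univ) univ_nonempty
    (f := fun ε => ∑ θ, (sg4 ε θ : ℝ) * NN (om (d := d) q Φ) θ)
    (g := fun _ => (∏ i, x i ^ q * (q / x i) ^ 2) * 9) (by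
      rw [sum_comm, sum_const, card_univ, nsmul_eq_mul]
      refine le_trans (sum_le_sum fun θ _ => ?_) ((mul_sum ..).symm.trans_le
        (mul_le_mul_of_nonneg_left ((mul_sum ..).symm.trans_le (mul_le_mul_of_nonneg_left
          (words hq h0 h1 h2 h3) (prod_nonneg fun i _ => by have := hx i; positivity)))
          (Nat.cast_nonneg _)))
      have n1 := NN_le (Φ := Φ) hq' θ
      have n0 : 0 ≤ NN (om q Φ) θ := by unfold NN; positivity
      rw [← sum_mul, ← mul_assoc (∏ i, _), mul_comm _ (∏ i : Fin d, _), ← mul_assoc]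
      by_cases h : ∀ i, IsS (θ i) ∨ IsT (θ i)
      · exact (mul_le_mul_of_nonneg_right (avg θ h) n0).trans
          (mul_le_mul_of_nonneg_left n1 (by unfold ok; positivity))
      · obtain ⟨i, hi⟩ := not_forall.1 h
        rw [prod_eq_zero (mem_univ i) (f := fun i : Fin (d + 1) => lw Φ i (θ i))
          (by simp [lw, not_or.1 hi]), mul_zero] at n1 ⊢
        simp [n1.antisymm n0])
  refine ⟨ε, fun G hG => ?_⟩
  have cs := sum_sq_le_sum_mul_sum_of_sq_le_mul (dgs (om (d := d) q Φ))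
    (r := fun e => Real.exp (-e.2) * ((Mz (om q Φ) ε e * (Mz (om q Φ) ε e)ᵀ).trace : ℤ))
    (f := fun e => Real.exp (-e.2) * (blk (om q Φ) (d + 1, Φ (d + 1)) G e).rank)
    (g := fun e => Real.exp (-e.2) * ((Mz (om q Φ) ε e * (Mz (om q Φ) ε e)ᵀ *
      (Mz (om q Φ) ε e * (Mz (om q Φ) ε e)ᵀ)).trace : ℤ)) (fun e _ => by positivity)
    (fun e _ => mul_nonneg (Real.exp_pos _).le (Int.cast_nonneg (sum_nonneg fun i _ =>
      sum_nonneg fun j _ => by simp only [Matrix.mul_apply, transpose_apply, mul_comm (Mz _ ε e j _)]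
                               exact mul_self_nonneg _)))
    fun e _ => by
      rw [blk_eq (dg_im h0) hG, mul_pow, mul_mul_mul_comm, ← sq]
      exact mul_le_mul_of_nonneg_left (sq_le_rank K _) (sq_nonneg _)
  have t1 : ∀ w : Fin (d + 1) → Fin q, ∑ s, (if ∅ ⊆ s ∧ Disjoint s (im w) then
      Real.exp (-∑ i ∈ s, om q Φ i) else 0) = ∏ i, x i ^ q / x i := fun w => by
    refine (sum_ind _ _ _).trans (prod_congr rfl fun i _ => eq_div_of_mul_eq (hx i).ne' ?_)
    simpa [mem_im] using prod_off (y := x i) (fun a => (if (i, a) ∈ im w then 0 else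
      Real.exp (-om q Φ (i, a))) + if (i, a) ∈ (∅ : Finset _) then 0 else 1) {w i}
      fun a ha => by simp at ha; simp [mem_im, ha, om, x, add_comm]
  rw [tr_one, tr_two] at cs
  simp only [t1, sum_const, card_univ, Fintype.card_pi, Fintype.card_fin, nsmul_eq_mul,
    Nat.cast_prod, ← prod_mul_distrib] at cs
  have m0 : 0 ≤ mu (om q Φ) (d + 1, Φ (d + 1)) G := by unfold mu; positivity
  have h4 := cs.trans (mul_le_mul_of_nonneg_left hε m0)
  rw [← prod_pow, prod_congr rfl (g := fun i => x i ^ q * (x i ^ q * (q / x i) ^ 2))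
    (fun i _ => by ring), prod_mul_distrib, ← hZ] at h4
  refine le_of_mul_le_mul_right (h4.trans_eq (by rw [mu, mul_comm _ (9 : ℝ), ← mul_assoc, mul_comm _ (9 : ℝ)])) (prod_pos fun i _ => ?_)
  have := hx i
  positivity

end Pool.Agent.Lib.MP_8b1d3b_lc.CD
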