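import Pool.Agent.Lib.MP_8b1d3b_lc.CD.Defs
import Pool.Agent.Lib.MP_8b1d3b_lc.CD.Rank
import Pool.Agent.Lib.MP_8b1d3b_lc.CD.Cnt

/-! The pair polynomial has almost full weighted rank. -/

namespace Pool.Agent.Lib.MP_8b1d3b_lc.CD

open Finset Matrix
open scoped Classical Nat

namespace Two

variable {R Q W : Type} [Fintype R] [DecidableEq R] [Fintype Q] [DecidableEq Q] [Fintype W]

/-- The set of variables of a word. -/
def im (w : R → Q) : Finset (R × Q) := univ.image fun t => (t, w t)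

variable {w w' : R → Q} {s t : Finset (R × Q)} {ω : R × Q → ℝ} {f : W → R → Q} {ρ : R → ℝ}

omit [Fintype Q] in
theorem mem_im {i : R} {a : Q} : (i, a) ∈ im w ↔ a = w i := by
  simp [im, eq_comm]

omit [Fintype Q] in
theorem dg_im (w : R → Q) : dg (fun v => ρ v.1) (im w) = (Fintype.card R, ∑ t, ρ t) := by
  have h : Function.Injective fun t => (t, w t) := fun _ _ e => congrArg Prod.fst e
  refine Prod.ext (by simp [dg, im, card_image_of_injective _ h]) ?_
  simp only [dg, im, sum_image h.injOn]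

/-- `t` is the disjoint union of `s` and the word `w` -/
def AA (t s : Finset (R × Q)) (w : R → Q) : Prop := Disjoint s (im w) ∧ t = s ∪ im w

omit [Fintype Q] in
theorem AA.sdiff (h : AA t s w) : t \ s = im w := by rw [h.2, union_sdiff_cancel_left h.1]

omit [Fintype Q] in
theorem AA.left (h : AA t s w) : s = t \ im w := by rw [h.2, union_sdiff_cancel_right h.1]

omit [Fintype Q] in
theorem AA.eq (h : AA t s w) (h' : AA t s w') : w = w' :=
  funext fun _ => mem_im.1 (h.sdiff.symm.trans h'.sdiff ▸ mem_im.2 rfl)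

/-- the integer matrix of a block -/
noncomputable def Mz (ω : R × Q → ℝ) (f : W → R → Q) (e : ℕ × ℝ) :
    Matrix (Finset (R × Q)) (Finset (R × Q)) ℤ :=
  Matrix.of fun t s => ∑ w, if dg ω s = e ∧ AA t s (f w) then 1 else 0

omit [Fintype Q] in
theorem blk_eq {K : Type} [Field K] {G : SQ (R × Q) K} {a : ℝ} {d : ℕ}
    (hω : ∀ w : R → Q, dg ω (im w) = (d, a))
    (hG : ∀ u, u.card = d → G u = ∑ w, if u = im (f w) then 1 else 0) (e : ℕ × ℝ) :
    blk ω (d, a) G e = (Mz ω f e).map (Int.cast : ℤ → K) := by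
  ext t s
  simp only [blk, Mz, of_apply, map_apply, Int.cast_sum, Int.cast_ite, Int.cast_zero, Int.cast_one]
  split_ifs with h
  · have h1 : s.card = e.1 := congrArg Prod.fst h.1
    have h2 : t.card = e.1 + d := congrArg Prod.fst h.2.1
    rw [hG _ (by rw [card_sdiff_of_subset h.2.2]; omega)]
    exact sum_congr rfl fun w _ => if_congr ⟨fun e => ⟨h.1, e ▸ disjoint_sdiff,
      e ▸ (union_sdiff_of_subset h.2.2).symm⟩, fun e => e.2.sdiff⟩ rfl rfl
  · refine (sum_eq_zero fun w _ => if_neg fun ⟨h1, h2, h3⟩ => h ⟨h1, ?_, h3 ▸ subset_union_left⟩).symm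
    rw [← h1, ← hω (f w), h3]
    exact Prod.ext (card_union_of_disjoint h2) (sum_union h2)

omit [DecidableEq R] [DecidableEq Q] in
theorem sum_dgs (F : Finset (R × Q) → Prop) [DecidablePred F] :
    ∑ e ∈ dgs ω, Real.exp (-e.2) * ∑ s, (if dg ω s = e ∧ F s then (1 : ℝ) else 0) =
      ∑ s, if F s then Real.exp (-∑ i ∈ s, ω i) else 0 := by
  simp only [mul_sum]
  rw [sum_comm]
  refine sum_congr rfl fun s _ => ?_
  rw [sum_eq_single (dg ω s) (fun e _ he => by simp [he.symm]) fun h => (h (by simp [dgs])).elim]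
  simp [dg]

theorem sum_ind (ω : R × Q → ℝ) (I E : Finset (R × Q)) :
    ∑ s, (if I ⊆ s ∧ Disjoint s E then Real.exp (-∑ i ∈ s, ω i) else 0) =
      ∏ i, ∏ a, ((if (i, a) ∈ E then 0 else Real.exp (-ω (i, a))) + if (i, a) ∈ I then 0 else 1) := by
  rw [← Fintype.prod_prod_type (fun v => (if v ∈ E then 0 else Real.exp (-ω v)) +
    if v ∈ I then (0 : ℝ) else 1), prod_add, powerset_univ]
  refine sum_congr rfl fun s _ => ?_
  split_ifs with h
  · rw [prod_congr rfl fun v hv => if_neg (disjoint_left.1 h.2 hv),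
      prod_eq_one fun v hv => if_neg fun e => (mem_sdiff.1 hv).2 (h.1 e), mul_one,
      ← sum_neg_distrib, Real.exp_sum]
  · by_cases h1 : I ⊆ s
    · obtain ⟨v, h2, h3⟩ := not_disjoint_iff.1 fun e => h ⟨h1, e⟩
      rw [prod_eq_zero (s := s) h2 (by simp [h3]), zero_mul]
    · obtain ⟨v, h2, h3⟩ := not_subset.1 h1
      rw [prod_eq_zero (s := univ \ s) (mem_sdiff.2 ⟨mem_univ v, h3⟩) (by simp [h2]), mul_zero]

theorem prod_off {y : ℝ} (F : Q → ℝ) (A : Finset Q) (h : ∀ a ∉ A, F a = y) :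
    (∏ a, F a) * y ^ A.card = (∏ a ∈ A, F a) * y ^ Fintype.card Q := by
  rw [← prod_mul_prod_compl A, prod_congr rfl fun a ha => h a (mem_compl.1 ha), prod_const,
    mul_assoc, ← pow_add, card_compl_add_card]

theorem tr_one (hf : Function.Injective f) :
    ∑ e ∈ dgs ω, Real.exp (-e.2) * (((Mz ω f e * (Mz ω f e)ᵀ).trace : ℤ) : ℝ) =
    ∑ w, ∑ s, if ∅ ⊆ s ∧ Disjoint s (im (f w)) then Real.exp (-∑ i ∈ s, ω i) else 0 := by
  simp only [← sum_dgs]
  rw [sum_comm]
  refine sum_congr rfl fun e _ => ?_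
  rw [← mul_sum, sum_comm]
  congr 1
  simp only [trace, diag_apply, Matrix.mul_apply, transpose_apply, Mz, of_apply]
  rw [sum_comm, Int.cast_sum]
  refine sum_congr rfl fun s _ => ?_
  have : ∀ t, ((∑ w, if dg ω s = e ∧ AA t s (f w) then (1 : ℤ) else 0) *
      ∑ w, if dg ω s = e ∧ AA t s (f w) then 1 else 0) =
      ∑ w, if t = s ∪ im (f w) then
        (if dg ω s = e ∧ ∅ ⊆ s ∧ Disjoint s (im (f w)) then 1 else 0) else 0 :=
    fun t => by
      rw [sum_mul]
      refine sum_congr rfl fun w _ => ?_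
      by_cases h : dg ω s = e ∧ AA t s (f w)
      · rw [sum_eq_single w (fun w' _ hw => if_neg fun h' => hw (hf (h'.2.eq h.2))) (by simp),
          if_pos h, one_mul, if_pos h.2.2, if_pos ⟨h.1, empty_subset _, h.2.1⟩]
      · rw [if_neg h, zero_mul, ← ite_and, if_neg fun e => h ⟨e.2.1, e.2.2.2, e.1⟩]
  simp only [this]
  rw [sum_comm]
  simp

/-- four labels -/
abbrev Q4 (Q : Type) : Type := (Q × Q) × Q × Q

/-- the sources agree on the block -/
def IsS (a : Q4 Q) : Prop := a.1.1 = a.2.2 ∧ a.1.2 = a.2.1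

/-- the targets agree on the block -/
def IsT (a : Q4 Q) : Prop := a.1.1 = a.1.2 ∧ a.2.1 = a.2.2

/-- a four cycle -/
def Cy (ω : R × Q → ℝ) (e : ℕ × ℝ) (θ : R → Q4 Q) (s₁ s₂ t₁ t₂ : Finset (R × Q)) : Prop :=
  ((dg ω s₁ = e ∧ AA t₁ s₁ fun i => (θ i).1.1) ∧ dg ω s₁ = e ∧ AA t₂ s₁ fun i => (θ i).1.2) ∧
    (dg ω s₂ = e ∧ AA t₂ s₂ fun i => (θ i).2.1) ∧ dg ω s₂ = e ∧ AA t₁ s₂ fun i => (θ i).2.2

/-- the weighted number of four cycles -/
noncomputable def NN (ω : R × Q → ℝ) (θ : R → Q4 Q) : ℝ :=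
  ∑ e ∈ dgs ω, Real.exp (-e.2) * ∑ s₁, ∑ z : Finset _ × Finset _ × Finset _,
    if Cy ω e θ s₁ z.2.2 z.1 z.2.1 then 1 else 0

/-- the labels of four words -/
def mk4 (f : W → R → Q) (z : Q4 W) (i : R) : Q4 Q := ((f z.1.1 i, f z.1.2 i), f z.2.1 i, f z.2.2 i)

theorem tr_two : ∑ e ∈ dgs ω, Real.exp (-e.2) *
    (((Mz ω f e * (Mz ω f e)ᵀ * (Mz ω f e * (Mz ω f e)ᵀ)).trace : ℤ) : ℝ) =
    ∑ z, NN ω (mk4 f z) := by
  simp only [NN]
  rw [sum_comm]
  refine sum_congr rfl fun e _ => ?_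
  rw [← mul_sum]
  congr 1
  have : ∀ s₁ s₂ t₁ t₂, Mz ω f e t₁ s₁ * Mz ω f e t₂ s₁ * (Mz ω f e t₂ s₂ * Mz ω f e t₁ s₂) =
      ∑ z, if Cy ω e (mk4 f z) s₁ s₂ t₁ t₂ then 1 else 0 := fun s₁ s₂ t₁ t₂ => by
    simp only [Mz, of_apply, sum_mul_sum, ← Fintype.sum_prod_type']
    refine sum_congr rfl fun x _ => ?_
    rw [ite_zero_mul_ite_zero, ite_zero_mul_ite_zero, ite_zero_mul_ite_zero]
    exact if_congr Iff.rfl (by simp) rfl
  simp only [trace, diag_apply, Matrix.mul_apply, transpose_apply, sum_mul_sum, this,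
    Fintype.sum_prod_type (α₁ := Finset (R × Q))]
  push_cast
  symm
  rw [sum_comm]
  refine (sum_congr rfl fun _ _ => sum_comm.trans (sum_congr rfl fun _ _ => sum_comm.trans
    (sum_congr rfl fun _ _ => sum_comm))).trans (sum_comm.trans (sum_congr rfl fun _ _ => sum_comm))

omit [Fintype Q] in
theorem Cy.typ {e : ℕ × ℝ} {θ : R → Q4 Q} {s₁ s₂ t₁ t₂ : Finset (R × Q)}
    (h : Cy ω e θ s₁ s₂ t₁ t₂) (i : R) :
    (IsS (θ i) ∨ IsT (θ i)) ∧ ((θ i).2.2 ≠ (θ i).1.1 → (i, (θ i).2.2) ∈ s₁) := by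
  obtain ⟨⟨⟨-, a1, b1⟩, -, a2, b2⟩, ⟨-, a3, b3⟩, -, a4, b4⟩ := h
  have k : ∀ a, ((i, a) ∈ s₁ → a ≠ (θ i).1.1 ∧ a ≠ (θ i).1.2) ∧
      ((i, a) ∈ s₂ → a ≠ (θ i).2.1 ∧ a ≠ (θ i).2.2) ∧
      ((i, a) ∈ s₁ ∨ a = (θ i).1.1 ↔ (i, a) ∈ s₂ ∨ a = (θ i).2.2) ∧
      ((i, a) ∈ s₁ ∨ a = (θ i).1.2 ↔ (i, a) ∈ s₂ ∨ a = (θ i).2.1) := fun a =>
    ⟨fun h => ⟨fun e => disjoint_left.1 a1 h (mem_im.2 e), fun e => disjoint_left.1 a2 h (mem_im.2 e)⟩,
      fun h => ⟨fun e => disjoint_left.1 a3 h (mem_im.2 e),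
        fun e => disjoint_left.1 a4 h (mem_im.2 e)⟩,
      by simpa only [mem_union, mem_im] using Finset.ext_iff.1 (b1.symm.trans b4) (i, a),
      by simpa only [mem_union, mem_im] using Finset.ext_iff.1 (b2.symm.trans b3) (i, a)⟩
  have := k (θ i).1.1
  have := k (θ i).1.2
  have := k (θ i).2.1
  have := k (θ i).2.2
  unfold IsS IsT
  grind

theorem NN_le (θ : R → Q4 Q) : NN (fun v => ρ v.1) θ ≤
    (∏ i, (1 + Real.exp (-ρ i)) ^ Fintype.card Q / (1 + Real.exp (-ρ i)) ^ 2) *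
      ∏ i, ((if IsT (θ i) then Real.exp (-ρ i) else 0) + if IsS (θ i) then 1 else 0) := by
  by_cases h : ∀ i, IsS (θ i) ∨ IsT (θ i)
  · refine le_trans (sum_le_sum fun e _ => mul_le_mul_of_nonneg_left (sum_le_sum fun s _ => ?_)
      (Real.exp_pos _).le) ((sum_dgs fun s => (univ.filter fun v => v.2 = (θ v.1).2.2 ∧
        v.2 ≠ (θ v.1).1.1) ⊆ s ∧ Disjoint s (im (fun i => (θ i).1.1) ∪ im fun i => (θ i).1.2)).trans
        ((sum_ind _ _ _).trans ?_)).le
    · by_cases h' : ∃ z : Finset _ × Finset _ × Finset _, Cy (fun v => ρ v.1) e θ s z.2.2 z.1 z.2.1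
      · obtain ⟨z, hz⟩ := h'
        rw [sum_eq_single z (fun y _ hy => if_neg fun e => hy ?_) (by simp), if_pos hz, if_pos]
        · refine ⟨hz.1.1.1, fun v hv => ?_, disjoint_union_right.2 ⟨hz.1.1.2.1, hz.1.2.2.1⟩⟩
          obtain ⟨h1, h2⟩ := (mem_filter.1 hv).2
          exact (show (v.1, (θ v.1).2.2) = v from Prod.ext rfl h1.symm) ▸
            (hz.typ v.1).2 (h1 ▸ h2)
        · have e1 := e.1.1.2.2.trans hz.1.1.2.2.symm
          exact Prod.ext e1 (Prod.ext (e.1.2.2.2.trans hz.1.2.2.2.symm)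
            (e.2.2.2.left.trans (e1 ▸ hz.2.2.2.left.symm)))
      · rw [sum_eq_zero fun z _ => if_neg fun e => h' ⟨z, e⟩]
        positivity
    · rw [← prod_mul_distrib]
      refine prod_congr rfl fun i _ => ?_
      simp only [mem_union, mem_im, mem_filter, mem_univ, true_and]
      have h0 := Real.exp_pos (-ρ i)
      generalize Real.exp _ = x at h0
      have := h i
      generalize θ i = a at this
      obtain ⟨⟨a, b⟩, c, e⟩ := a
      simp only [IsS, IsT] at this ⊢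
      have h1 : 1 + x ≠ 0 := by positivity
      by_cases e1 : a = e ∧ b = c
      · obtain ⟨rfl, rfl⟩ := e1
        by_cases e2 : a = b
        · subst e2
          have := prod_off (y := 1 + x) (fun j => (if j = a ∨ j = a then 0 else x) +
            if j = a ∧ j ≠ a then 0 else 1) {a} fun j hj => by simp at hj; simp [hj, add_comm]
          simp only [card_singleton, prod_singleton] at this
          rw [eq_div_of_mul_eq (pow_ne_zero _ h1) this]
          simp
          field_simp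
          ring
        · have := prod_off (y := 1 + x) (fun j => (if j = a ∨ j = b then 0 else x) +
            if j = a ∧ j ≠ a then 0 else 1) {a, b} fun j hj => by simp at hj; simp [hj, add_comm]
          rw [card_pair e2, prod_pair e2] at this
          rw [eq_div_of_mul_eq (pow_ne_zero _ h1) this]
          simp [e2]
      · obtain ⟨rfl, rfl⟩ := this.resolve_left e1
        have e2 : a ≠ c := fun e => e1 ⟨e, e⟩
        have := prod_off (y := 1 + x) (fun j => (if j = a ∨ j = a then 0 else x) +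
          if j = c ∧ j ≠ a then 0 else 1) {a, c} fun j hj => by simp at hj; simp [hj, add_comm]
        rw [card_pair e2, prod_pair e2] at this
        rw [eq_div_of_mul_eq (pow_ne_zero _ h1) this]
        simp [e2, e2.symm]
        field_simp
  · obtain ⟨i, hi⟩ := not_forall.1 h
    rw [prod_eq_zero (mem_univ i) (f := fun i => (if IsT (θ i) then Real.exp (-ρ i) else 0) +
      if IsS (θ i) then 1 else 0) (by simp [not_or.1 hi]), mul_zero]
    exact (sum_eq_zero fun e _ => by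
      rw [sum_eq_zero fun s _ => sum_eq_zero fun z _ => if_neg fun e => hi (e.typ i).1,
        mul_zero]).le

omit [Fintype Q] in
theorem sum_loc (hf : Function.Injective f) (ρ : R → ℝ) :
    ∑ z, ∏ i, ((if IsT (mk4 f z i) then Real.exp (-ρ i) else 0) + if IsS (mk4 f z i) then 1 else 0) ≤
      ∑ w, ∑ S : Finset R, Real.exp (-∑ t ∈ S, ρ t) *
        ((∑ w', if ∀ t ∈ S, f w t = f w' t then (1 : ℝ) else 0) *
          ∑ w', if ∀ t ∈ Sᶜ, f w t = f w' t then (1 : ℝ) else 0) := by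
  simp only [prod_add, powerset_univ, Fintype.sum_prod_type, sum_mul_sum]
  simp only [mul_sum]
  refine sum_le_sum fun w₁ _ => ?_
  rw [sum_comm (s := (univ : Finset (Finset R)))]
  refine sum_le_sum fun w₂ _ => ?_
  rw [sum_comm (s := (univ : Finset (Finset R))), sum_comm]
  refine sum_le_sum fun w₄ _ => ?_
  rw [sum_comm]
  refine sum_le_sum fun S _ => ?_
  by_cases h : ∃ w₃, (∀ i ∈ S, IsT (mk4 f ((w₁, w₂), w₃, w₄) i)) ∧
      ∀ i ∈ univ \ S, IsS (mk4 f ((w₁, w₂), w₃, w₄) i)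
  · obtain ⟨w₃, h1, h2⟩ := h
    rw [sum_eq_single w₃ (fun w _ hw => ?_) (by simp), prod_congr rfl fun i hi => if_pos (h1 i hi),
      prod_eq_one fun i hi => if_pos (h2 i hi), if_pos (c := ∀ t ∈ S, f w₁ t = f w₂ t) fun t ht => (h1 t ht).1,
      if_pos (c := ∀ t ∈ Sᶜ, f w₁ t = f w₄ t) fun t ht => (h2 t (compl_eq_univ_sdiff S ▸ ht)).1,
      ← sum_neg_distrib, Real.exp_sum]
    · simp
    · obtain ⟨i, hi⟩ := Function.ne_iff.1 (hf.ne hw)
      by_cases h3 : i ∈ S
      · rw [prod_eq_zero h3 (if_neg fun e => hi (e.2.trans (h1 i h3).2.symm)), zero_mul]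
      · have h4 := mem_sdiff.2 ⟨mem_univ i, h3⟩
        rw [prod_eq_zero h4 (if_neg fun e => hi (e.2.symm.trans (h2 i h4).2)), mul_zero]
  · rw [sum_eq_zero fun w₃ _ => ?_]
    · positivity
    · rcases not_and_or.1 fun e => h ⟨w₃, e⟩ with e | e <;> push Not at e <;>
        obtain ⟨i, h1, h2⟩ := e
      · rw [prod_eq_zero h1 (if_neg h2), zero_mul]
      · rw [prod_eq_zero h1 (if_neg h2), mul_zero]

theorem lower (K : Type) [Field K] [CharZero K] [Nonempty W] (hf : Function.Injective f) (ρ : R → ℝ)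
    {B : ℝ} (hB : ∀ w, ∑ S : Finset R, Real.exp (-∑ t ∈ S, ρ t) *
        ((∑ w', if ∀ t ∈ S, f w t = f w' t then (1 : ℝ) else 0) *
          ∑ w', if ∀ t ∈ Sᶜ, f w t = f w' t then (1 : ℝ) else 0) ≤ B * Fintype.card W)
    (G : SQ (R × Q) K)
    (hG : ∀ u, u.card = Fintype.card R → G u = ∑ w, if u = im (f w) then 1 else 0) :
    ZZ (fun v : R × Q => ρ v.1) ≤ B * mu (fun v => ρ v.1) (Fintype.card R, ∑ t, ρ t) G := by
  let x : R → ℝ := fun i => 1 + Real.exp (-ρ i)
  have hx : ∀ i, 0 < x i := fun i => by positivity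
  have hZ : ZZ (fun v : R × Q => ρ v.1) = ∏ i, x i ^ Fintype.card Q := by
    simpa [ZZ, x, add_comm] using sum_ind (fun v : R × Q => ρ v.1) ∅ ∅
  have hε : ∑ z, NN (fun v => ρ v.1) (mk4 f z) ≤ (∏ i, x i ^ Fintype.card Q / x i ^ 2) *
      (Fintype.card W * (B * Fintype.card W)) := by
    refine (sum_le_sum fun z _ => NN_le _).trans ?_
    rw [← mul_sum]
    refine mul_le_mul_of_nonneg_left ((sum_loc hf ρ).trans ?_)
      (prod_nonneg fun i _ => by have := hx i; positivity)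
    rw [← nsmul_eq_mul]
    exact sum_le_card_nsmul _ _ _ fun w _ => hB w
  have cs := sum_sq_le_sum_mul_sum_of_sq_le_mul (dgs fun v : R × Q => ρ v.1)
    (r := fun e => Real.exp (-e.2) *
      ((Mz (fun v => ρ v.1) f e * (Mz (fun v => ρ v.1) f e)ᵀ).trace : ℤ))
    (f := fun e => Real.exp (-e.2) * (blk (fun v => ρ v.1) (Fintype.card R, ∑ t, ρ t) G e).rank)
    (g := fun e => Real.exp (-e.2) * ((Mz (fun v => ρ v.1) f e * (Mz (fun v => ρ v.1) f e)ᵀ *
      (Mz (fun v => ρ v.1) f e * (Mz (fun v => ρ v.1) f e)ᵀ)).trace : ℤ)) (fun e _ => by positivity)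
    (fun e _ => mul_nonneg (Real.exp_pos _).le (Int.cast_nonneg (sum_nonneg fun i _ =>
      sum_nonneg fun j _ => by simp only [Matrix.mul_apply, transpose_apply, mul_comm (Mz _ f e j _)]
                               exact mul_self_nonneg _)))
    fun e _ => by
      rw [blk_eq dg_im hG, mul_pow, mul_mul_mul_comm, ← sq]
      exact mul_le_mul_of_nonneg_left (sq_le_rank K _) (sq_nonneg _)
  have t1 : ∀ w : R → Q, ∑ s, (if ∅ ⊆ s ∧ Disjoint s (im w) then
      Real.exp (-∑ i ∈ s, ρ i.1) else 0) = ∏ i, x i ^ Fintype.card Q / x i := fun w => by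
    refine (sum_ind (fun v => ρ v.1) _ _).trans
      (prod_congr rfl fun i _ => eq_div_of_mul_eq (hx i).ne' ?_)
    simpa [mem_im] using prod_off (y := x i) (fun a => (if (i, a) ∈ im w then 0 else
      Real.exp (-ρ i)) + if (i, a) ∈ (∅ : Finset _) then 0 else 1) {w i}
      fun a ha => by simp at ha; simp [mem_im, ha, x, add_comm]
  rw [tr_one hf, tr_two] at cs
  simp only [t1, sum_const, card_univ, nsmul_eq_mul] at cs
  have m0 : 0 ≤ mu (fun v => ρ v.1) (Fintype.card R, ∑ t, ρ t) G := by unfold mu; positivity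
  have h4 := cs.trans (mul_le_mul_of_nonneg_left hε m0)
  rw [mul_pow, ← prod_pow, prod_congr rfl
    (g := fun i => x i ^ Fintype.card Q * (x i ^ Fintype.card Q / x i ^ 2))
    (fun i _ => by rw [div_pow, sq, mul_div_assoc]), prod_mul_distrib, ← hZ] at h4
  have h5 : 0 < (Fintype.card W : ℝ) ^ 2 * ∏ i, x i ^ Fintype.card Q / x i ^ 2 :=
    mul_pos (pow_pos (Nat.cast_pos.2 Fintype.card_pos) 2)
      (prod_pos fun i _ => by have := hx i; positivity)
  refine le_of_mul_le_mul_right ?_ h5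
  unfold mu
  linarith

end Two

/-- The set of variables of a word. -/
def im2 {u : ℕ} (w : Equiv.Perm (Fin u × Bool) × (Fin u → Bool)) :
    Finset ((Fin u × Bool) × (Fin u × Bool) × Bool) :=
  univ.image fun t => (t, (w.1 t, w.2 (w.1 t).1))

theorem lower2 (K : Type) [Field K] [CharZero K] (u : ℕ) (ρ : Fin u × Bool → ℝ)
    (h1 : ∀ t, |ρ t| ≤ 1 / 4) (h2 : 0 ≤ ∑ t, ρ t)
    (G : SQ ((Fin u × Bool) × (Fin u × Bool) × Bool) K)
    (hG : ∀ v, v.card = 2 * u → G v = ∑ w, if v = im2 w then 1 else 0) :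
    ZZ (fun v : (Fin u × Bool) × (Fin u × Bool) × Bool => ρ v.1) ≤ (2 * u + 1) ^ 2 *
      mu (fun v : (Fin u × Bool) × (Fin u × Bool) × Bool => ρ v.1) (2 * u, ∑ t, ρ t) G := by
  have hc : Fintype.card (Fin u × Bool) = 2 * u := by simp [mul_comm]
  have := Two.lower K wd_inj ρ (B := (2 * u + 1) ^ 2) (fun w => (sum_pat ρ h1 h2 w).trans_eq (by
    simp [Fintype.card_perm, mul_comm])) G (fun v hv => hG v (hv.trans hc))
  rwa [hc] at this

end Pool.Agent.Lib.MP_8b1d3b_lc.CD
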