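import Pool.Agent.Lib.MP_8b1d3b_lc.CD.Defs

/-! The word, the number of degrees and the slope. -/

namespace Pool.Agent.Lib.MP_8b1d3b_lc.CD

open Finset

/-- `Φ (t + 1) = if θ ≤ Φ t then Φ t - θ else Φ t + 1`. -/
theorem exists_word {θ : ℝ} (h1 : 1 ≤ θ) (h2 : θ ≤ 3 / 2) :
    ∃ Φ : ℕ → ℝ, Φ 0 = 0 ∧ (∀ t, 0 ≤ Φ t) ∧ (∀ t, Φ t ≤ 5 / 2) ∧
      ∀ t, Φ (t + 1) - Φ t = 1 ∨ Φ (t + 1) - Φ t = -θ := by
  classical
  obtain ⟨Φ, h0, hs⟩ : ∃ Φ : ℕ → ℝ, Φ 0 = 0 ∧
      ∀ t : ℕ, Φ (t + 1) = if θ ≤ Φ t then Φ t - θ else Φ t + 1 :=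
    ⟨fun n => (fun x : ℝ => if θ ≤ x then x - θ else x + 1)^[n] 0, rfl,
      fun t => Function.iterate_succ_apply' _ _ _⟩
  have hb : ∀ t : ℕ, 0 ≤ Φ t ∧ Φ t ≤ 5 / 2 := by
    intro t
    induction t with
    | zero =>
      rw [h0]
      constructor <;> norm_num
    | succ n ih =>
      rw [hs]
      split_ifs with h
      · constructor <;> linarith [ih.1, ih.2]
      · push Not at h
        constructor <;> linarith [ih.1, ih.2]
  refine ⟨Φ, h0, fun t => (hb t).1, fun t => (hb t).2, fun t => ?_⟩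
  rw [hs]
  split_ifs
  · right; ring
  · left; ring

theorem sum_two {ι : Type} {ω : ι → ℝ} {θ : ℝ} (h : ∀ i, ω i = 1 ∨ ω i = -θ) (s : Finset ι) :
    ∃ i l : ℕ, i + l = s.card ∧ ∑ v ∈ s, ω v = i - θ * l := by
  classical
  induction s using Finset.induction_on with
  | empty => exact ⟨0, 0, by simp, by simp⟩
  | insert a s ha ih =>
    obtain ⟨i, l, h1, h2⟩ := ih
    rw [sum_insert ha, card_insert_of_notMem ha, h2]
    rcases h a with h3 | h3
    · exact ⟨i + 1, l, by omega, by rw [h3]; push_cast; ring⟩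
    · exact ⟨i, l + 1, by omega, by rw [h3]; push_cast; ring⟩

theorem card_dgs {ι : Type} [Fintype ι] {ω : ι → ℝ} {θ : ℝ} (h : ∀ i, ω i = 1 ∨ ω i = -θ) :
    (dgs ω).card ≤ (Fintype.card ι + 1) ^ 2 := by
  classical
  have hsub : dgs ω ⊆ (range (Fintype.card ι + 1) ×ˢ range (Fintype.card ι + 1)).image
      (fun p : ℕ × ℕ => ((p.1 + p.2 : ℕ), ((p.1 : ℝ) - θ * p.2))) := by
    intro e he
    unfold dgs at he
    obtain ⟨s, -, rfl⟩ := mem_image.1 he
    obtain ⟨i, l, h1, h2⟩ := sum_two h s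
    have h3 : s.card ≤ Fintype.card ι := card_le_univ s
    refine mem_image.2 ⟨(i, l), ?_, ?_⟩
    · simp only [mem_product, mem_range]
      omega
    · simp only [dg, h1, h2]
  refine (card_le_card hsub).trans (card_image_le.trans ?_)
  rw [card_product, card_range, sq]

/-- Numerators and denominators of the convergents. -/
def slopeV (t : ℕ) : ℕ → ℕ × ℕ
  | 0 => (1, 0)
  | 1 => (1, 1)
  | k + 2 => (4 * t * ((slopeV t k).1 + (slopeV t k).2) * (slopeV t (k + 1)).1 + (slopeV t k).1,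
      4 * t * ((slopeV t k).1 + (slopeV t k).2) * (slopeV t (k + 1)).2 + (slopeV t k).2)

theorem slope_key {n a b u w : ℤ} {r r' : ℝ} (hn : 0 ≤ n) (h2 : 2 * n ≤ b) (ha : 0 < a)
    (e : n = u * a + w * b) (h0 : 0 ≤ r') (h1 : 1 ≤ b * r) :
    (n : ℝ) ≤ a * b * |u * r - w * r'| := by
  have a0 : (0 : ℝ) < a := by exact_mod_cast ha
  have b0 : (0 : ℝ) ≤ b := by exact_mod_cast (by omega : 0 ≤ b)
  have k : ∀ u w : ℤ, n ≤ u * a → w ≤ 0 → (n : ℝ) ≤ a * b * |u * r - w * r'| := fun u w c d => by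
    have c' : (n : ℝ) ≤ u * a := by exact_mod_cast c
    have d' : (w : ℝ) ≤ 0 := by exact_mod_cast d
    have n' : (0 : ℝ) ≤ n := by exact_mod_cast hn
    calc (n : ℝ) ≤ u * a * (b * r) := c'.trans (le_mul_of_one_le_right (n'.trans c') h1)
      _ = a * b * (u * r) := by ring
      _ ≤ _ := by
        gcongr
        exact le_trans (by nlinarith) (le_abs_self _)
  rcases le_or_gt w 0 with c | c
  · exact k u w (by nlinarith) c
  · have := k (-u) (-w) (by nlinarith) (by omega)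
    rw [← abs_neg] at this
    push_cast at this
    rwa [show -(-(u : ℝ) * r - -w * r') = u * r - w * r' by ring] at this

/-- Continued fraction.  `v 0 = (1, 0)`, `v 1 = (1, 1)`, `s k = p k + q k`,
`v (k + 2) = 4 t (s k) • v (k + 1) + v k`, `θ = p M / q M` with `M = 2 Δ + 2`,
`r k = (-1) ^ k (p k - θ q k) ≥ 0` for `k ≤ M` (downward from `r M = 0`, `r (M - 1) = 1 / q M`,
`r k = 4 t (s k) r (k + 1) + r (k + 2)`), `q (k + 1) r k + q k r (k + 1) = 1`, so
`r k ≥ 1 / (2 q (k + 1)) ≥ 1 / s (k + 1)`.  Put `x 0 = 2`, `x (j + 1) = 2 t (s j) (s (j + 1))`, so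
`2 x j ≤ s (j + 1)` for `j ≥ 1`.  For `2 (i + l) ≤ s (j + 1)` write `(i, l) = u v j + w v (j + 1)` with
integers `u`, `w` (determinant `±1`); then `u w ≤ 0`, `|u| s j ≥ i + l` and
`|i - θ l| = |u| r j + |w| r (j + 1)`.  Finally `5 t s j ≤ (10 t) ^ fib (j + 1)`. -/
theorem slope (t Δ : ℕ) (ht : 0 < t) :
    ∃ θ : ℝ, 1 ≤ θ ∧ θ ≤ 3 / 2 ∧ ∃ x : ℕ → ℕ, (∀ j, 2 ≤ x j) ∧
      (∀ j < 2 * Δ, ∀ i l : ℕ, i + l < x j →
        (2 * t * (i + l) : ℝ) ≤ x (j + 1) * |(i : ℝ) - θ * l|) ∧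
      9 * x (2 * Δ) * t ≤ (18 * t) ^ Nat.fib (2 * Δ + 2) := by
  obtain ⟨p, q, p0, q0, p1, q1, hp, hq⟩ : ∃ p q : ℕ → ℕ, p 0 = 1 ∧ q 0 = 0 ∧ p 1 = 1 ∧ q 1 = 1 ∧
      (∀ k, p (k + 2) = 4 * t * (p k + q k) * p (k + 1) + p k) ∧
      ∀ k, q (k + 2) = 4 * t * (p k + q k) * q (k + 1) + q k :=
    ⟨fun k => (slopeV t k).1, fun k => (slopeV t k).2, rfl, rfl, rfl, rfl, fun _ => rfl,
      fun _ => rfl⟩
  obtain ⟨s, hs⟩ : ∃ s : ℕ → ℕ, ∀ k, s k = p k + q k := ⟨_, fun _ => rfl⟩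
  simp only [← hs] at hp hq
  have s0 : s 0 = 1 := by rw [hs, p0, q0]
  have s1 : s 1 = 2 := by rw [hs, p1, q1]
  have s2 : ∀ k, s (k + 2) = 4 * t * s k * s (k + 1) + s k := fun k => by
    rw [hs (k + 2), hp, hq, hs (k + 1)]
    nth_rw 4 [hs k]
    ring
  have sp : ∀ k, 0 < s k := fun k => by
    induction k using Nat.twoStepInduction with
    | zero => omega
    | one => omega
    | more k a b => rw [s2]; omega
  have ap : ∀ k, 4 ≤ 4 * t * s k := fun k => by have := Nat.mul_pos ht (sp k); nlinarith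
  have qp : ∀ k, q k ≤ p k := fun k => by
    induction k using Nat.twoStepInduction with
    | zero => omega
    | one => omega
    | more k a b => rw [hp, hq]; gcongr
  have pq : ∀ k, 2 * p (k + 1) ≤ 3 * q (k + 1) := fun k => by
    induction k using Nat.twoStepInduction with
    | zero => rw [zero_add]; omega
    | one => rw [hp 0, hq 0, zero_add, p0, q0, p1, q1, s0]; omega
    | more k a b =>
      rw [hp (k + 1), hq (k + 1)]
      nlinarith [Nat.mul_le_mul_left (4 * t * s (k + 1)) b]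
  have qq : ∀ k, q k ≤ q (k + 1) := fun k => by
    rcases k with _ | k
    · omega
    · rw [hq]; nlinarith [ap k]
  have qM : (0 : ℝ) < q (2 * Δ + 1) := by
    have := monotone_nat_of_le_succ qq (show 1 ≤ 2 * Δ + 1 by omega)
    exact_mod_cast (by omega : 0 < q (2 * Δ + 1))
  have det : ∀ k, (-1 : ℤ) ^ k * (p k * q (k + 1) - p (k + 1) * q k) = 1 := fun k => by
    induction k with
    | zero => simp [p0, q0, q1]
    | succ k ih => rw [hp, hq]; push_cast; linear_combination ih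
  set θ : ℝ := p (2 * Δ + 1) / q (2 * Δ + 1) with hθ
  obtain ⟨r, hr⟩ : ∃ r : ℕ → ℝ, ∀ k, r k = (-1) ^ k * (p k - θ * q k) := ⟨_, fun _ => rfl⟩
  have r1 : ∀ k, q (k + 1) * r k + q k * r (k + 1) = 1 := fun k => by
    have : (-1 : ℝ) ^ k * (p k * q (k + 1) - p (k + 1) * q k) = 1 := by exact_mod_cast det k
    rw [hr, hr]; linear_combination this
  have r2 : ∀ k, r k = (4 * t * s k : ℕ) * r (k + 1) + r (k + 2) := fun k => by
    rw [hr, hr, hr, hp, hq]; push_cast; ring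
  have r3 : ∀ d k, k + d = 2 * Δ → 0 ≤ r (k + 1) ∧ r (k + 1) ≤ r k := fun d => by
    induction d with
    | zero =>
      rintro k rfl
      have a : r (2 * Δ + 1) = 0 := by rw [hr, hθ, div_mul_cancel₀ _ qM.ne', sub_self, mul_zero]
      have b := r1 (2 * Δ)
      rw [a] at b ⊢
      exact ⟨le_rfl, by nlinarith⟩
    | succ d ih =>
      intro k hk
      obtain ⟨a, b⟩ := ih (k + 1) (by omega)
      have c : (4 : ℝ) ≤ (4 * t * s k : ℕ) := by exact_mod_cast ap k
      exact ⟨a.trans b, by rw [r2 k]; nlinarith⟩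
  refine ⟨θ, (one_le_div qM).2 (by exact_mod_cast qp _), (div_le_div_iff₀ qM two_pos).2 ?_,
    fun j => Nat.casesOn j 2 fun j => 2 * t * s j * s (j + 1), fun j => ?_, fun j hj i l h => ?_, ?_⟩
  · exact_mod_cast (mul_comm 2 _).symm.trans_le (pq (2 * Δ))
  · rcases j with _ | j
    · exact le_rfl
    · have := Nat.mul_pos (Nat.mul_pos ht (sp j)) (sp (j + 1))
      change 2 ≤ 2 * t * s j * s (j + 1)
      nlinarith
  · have a : 2 * (i + l) ≤ s (j + 1) := by
      rcases j with _ | j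
      · change i + l < 2 at h
        rw [zero_add]; omega
      · change i + l < 2 * t * s j * s (j + 1) at h
        rw [s2]; nlinarith
    obtain ⟨b, c⟩ := r3 (2 * Δ - j) j (by omega)
    have d : (1 : ℝ) ≤ ((s (j + 1) : ℤ) : ℝ) * r j := by
      have e1 : (q j : ℝ) ≤ q (j + 1) := by exact_mod_cast qq j
      have e2 : (q (j + 1) : ℝ) ≤ p (j + 1) := by exact_mod_cast qp _
      have e3 : (0 : ℝ) ≤ q j := by positivity
      rw [hs, ← r1 j]; push_cast
      nlinarith [mul_le_mul_of_nonneg_left c e3, b.trans c]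
    have e := slope_key (n := (i + l : ℕ)) (a := s j)
      (u := (-1) ^ j * (i * q (j + 1) - l * p (j + 1))) (w := (-1) ^ j * (l * p j - i * q j))
      (by positivity) (by exact_mod_cast a)
      (by exact_mod_cast sp j) (by
        rw [hs, hs]; push_cast; linear_combination (-(i : ℤ) - l) * det j) b d
    have f : (-1 : ℝ) ^ j * (p j * q (j + 1) - p (j + 1) * q j) = 1 := by exact_mod_cast det j
    push_cast at e
    rw [hr, hr, show (-1 : ℝ) ^ j * (i * q (j + 1) - l * p (j + 1)) * ((-1) ^ j * (p j - θ * q j)) -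
      (-1) ^ j * (l * p j - i * q j) * ((-1) ^ (j + 1) * (p (j + 1) - θ * q (j + 1))) =
      (-1) ^ j * (i - θ * l) by linear_combination (-1 : ℝ) ^ j * (i - θ * l) * f, abs_mul,
      abs_neg_one_pow, one_mul] at e
    change _ ≤ ((2 * t * s j * s (j + 1) : ℕ) : ℝ) * _
    push_cast
    calc _ ≤ 2 * t * (s j * s (j + 1) * |(i : ℝ) - θ * l|) := by gcongr
      _ = _ := by ring
  · have a : ∀ k, 5 * t * s k ≤ (18 * t) ^ Nat.fib (k + 1) := fun k => by
      induction k using Nat.twoStepInduction with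
      | zero => simp [s0]; omega
      | one => simp [s1]; omega
      | more k a b =>
        rw [Nat.fib_add_two (n := k + 1), pow_add]
        refine le_trans ?_ (Nat.mul_le_mul a b)
        have := Nat.mul_le_mul_left (s k) (Nat.mul_pos ht (sp (k + 1)))
        rw [s2]; nlinarith [Nat.mul_le_mul_left (5 * t) this]
    rcases Δ with _ | Δ
    · simp
    · change 9 * (2 * t * s (2 * Δ + 1) * s (2 * Δ + 1 + 1)) * t ≤ (18 * t) ^ Nat.fib (2 * Δ + 2 + 2)
      rw [Nat.fib_add_two (n := 2 * Δ + 2), pow_add]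
      refine le_trans ?_ (Nat.mul_le_mul (a (2 * Δ + 1)) (a (2 * Δ + 2)))
      nlinarith [Nat.zero_le (t * t * s (2 * Δ + 1) * s (2 * Δ + 2))]

end Pool.Agent.Lib.MP_8b1d3b_lc.CD
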