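import Pool.Agent.Lib.MP_8b1d3b_lc.H13Perm

/-! A sum over paths in a layered graph is a permanent. -/

namespace Pool.Agent.Lib.MP_8b1d3b_lc.CD

open Finset

theorem perm_step {S A : Type*} [CommRing S] [CommRing A] [Algebra S A] {q : ℕ} {P E : A}
    {L y : Fin q → A} {c : Fin q → S} (h1 : ∀ j, P * L j = c j • E) (h2 : ∀ j, E * L j = 0)
    (hy : ∀ j, y j * y j = 0) (W : Fin q → S) :
    P * (∏ j, (y j + L j)) * ∑ i, W i • y i = (∑ i, c i * W i) • (E * ∏ j, y j) ∧
      E * (∏ j, y j) * ∑ i, W i • y i = 0 := by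
  simp only [mul_sum, sum_smul, mul_smul_comm]
  refine ⟨sum_congr rfl fun i _ => ?_, sum_eq_zero fun i _ => ?_⟩
  · have e : E * ∏ j ∈ univ.erase i, (y j + L j) = E * ∏ j ∈ univ.erase i, y j :=
      mul_prod_congr _ fun j _ => by rw [mul_add, h2, add_zero]
    rw [← mul_prod_erase _ _ (mem_univ i), ← mul_prod_erase _ y (mem_univ i), mul_comm (c i),
      mul_smul, mul_left_comm E, ← e, ← mul_smul_comm (c i), ← smul_mul_assoc (c i), ← h1]
    congr 1
    linear_combination (P * ∏ j ∈ univ.erase i, (y j + L j)) * hy i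
  · rw [mul_assoc, prod_mul_eq_zero hy (mem_univ i), mul_zero, smul_zero]

theorem perm_path {S A : Type*} [CommRing S] [CommRing A] [Algebra S A] {q : ℕ} (v : Fin q → S)
    (d : ℕ) (W : Fin d → Fin q → Fin q → S) {P E : A} {L : Fin q → A} {c : Fin q → S}
    (h1 : ∀ j, P * L j = c j • E) (h2 : ∀ j, E * L j = 0) (y : Fin (d + 1) → Fin q → A)
    (hy : ∀ t j, y t j * y t j = 0) :
    P * (∏ j, (y 0 j + L j)) * (∏ t : Fin d, ∏ j, (y t.succ j + ∑ i, W t i j • y t.castSucc i)) *
      ∑ i, v i • y (Fin.last d) i = (∑ w : Fin (d + 1) → Fin q, c (w 0) *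
        ((∏ t : Fin d, W t (w t.castSucc) (w t.succ)) * v (w (Fin.last d)))) •
          (E * ∏ t, ∏ j, y t j) := by
  induction d generalizing P E L c with
  | zero =>
    rw [← (Equiv.funUnique (Fin 1) (Fin q)).symm.sum_comp]
    simpa using (perm_step h1 h2 (hy 0) v).1
  | succ d ih =>
    have := ih (fun t => W t.succ) (fun j => (perm_step h1 h2 (hy 0) (W 0 · j)).1)
      (fun j => (perm_step h1 h2 (hy 0) (W 0 · j)).2) (fun t => y t.succ) fun t => hy _
    rw [Fin.prod_univ_succ, ← mul_assoc, Fin.prod_univ_succ (fun t => ∏ j, y t j), ← mul_assoc,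
      ← (Fin.consEquiv fun _ => Fin q).sum_comp, Fintype.sum_prod_type, sum_comm]
    refine this.trans (congrArg (· • _) (sum_congr rfl fun w _ => ?_))
    rw [sum_mul]
    refine sum_congr rfl fun i _ => ?_
    rw [Fin.prod_univ_succ, mul_assoc, mul_assoc]
    rfl

/-- The matrix of the layered graph. -/
def permM {S : Type} [CommRing S] {d q : ℕ} (W : Fin d → Fin q → Fin q → S) (v : Fin q → S) :
    Option (Fin (d + 1) × Fin q) → Option (Fin (d + 1) × Fin q) → S
  | none, none => 0
  | none, some c => Fin.cases 1 (fun _ => 0) c.1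
  | some r, none => if r.1 = Fin.last d then v r.2 else 0
  | some r, some c => (if r = c then 1 else 0) +
      Fin.cases 0 (fun t => if r.1 = t.castSucc then W t r.2 c.2 else 0) c.1

theorem exists_path {S : Type} [CommRing S] (H : AddSubgroup S) {d q n : ℕ}
    (hn : (d + 1) * q + 1 ≤ n) (W : Fin d → Fin q → Fin q → S) (v : Fin q → S) (h1 : (1 : S) ∈ H)
    (hW : ∀ t i j, W t i j ∈ H) (hv : ∀ i, v i ∈ H) :
    ∃ A : Matrix (Fin n) (Fin n) S, (∀ r s, A r s ∈ H) ∧
      A.permanent = ∑ w : Fin (d + 1) → Fin q,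
        (∏ t : Fin d, W t (w t.castSucc) (w t.succ)) * v (w (Fin.last d)) := by
  have hM : H13.perm (permM W v) = ∑ w : Fin (d + 1) → Fin q,
      (∏ t : Fin d, W t (w t.castSucc) (w t.succ)) * v (w (Fin.last d)) := by
    refine H13.perm_eq_of rfl _ _ fun I y hy => ?_
    have := perm_path v d W (P := 1) (E := y none) (L := fun _ => y none) (c := 1) (by simp)
      (fun _ => hy _) (fun t j => y (some (t, j))) fun _ _ => hy _
    simp only [one_mul, Pi.one_apply] at this
    rw [Fintype.prod_option, Fintype.prod_option, Fintype.prod_prod_type, Fintype.prod_prod_type,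
      ← this, mul_comm, Fin.prod_univ_succ]
    simp [permM, add_smul, sum_add_distrib, ite_smul, add_comm, Fintype.sum_prod_type]
  have hcard : Fintype.card (Fin n) =
      Fintype.card (Option (Fin (d + 1) × Fin q) ⊕ Fin (n - ((d + 1) * q + 1))) := by
    simp only [Fintype.card_fin, Fintype.card_sum, Fintype.card_prod, Fintype.card_option]
    omega
  have hi : ∀ (p : Prop) [Decidable p] {a : S}, a ∈ H → (if p then a else 0) ∈ H :=
    fun p _ a ha => ite_mem.2 ⟨fun _ => ha, fun _ => H.zero_mem⟩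
  let ε := Fintype.equivOfCardEq hcard
  refine ⟨Matrix.of fun r s => H13.pad _ (permM W v) (ε r) (ε s), fun r s => ?_, ?_⟩
  · simp only [Matrix.of_apply]
    rcases ε r with (_ | r) | r <;> rcases ε s with (_ | ⟨t, j⟩) | s
    any_goals exact H.zero_mem
    · induction t using Fin.cases
      exacts [h1, H.zero_mem]
    · exact hi _ (hv _)
    · induction t using Fin.cases
      exacts [H.add_mem (hi _ h1) H.zero_mem, H.add_mem (hi _ h1) (hi _ (hW _ _ _))]
    · exact hi _ h1
  · rw [← H13.perm_eq_permanent, ← hM, ← H13.perm_pad (Fin (n - ((d + 1) * q + 1))) rfl (permM W v)]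
    exact H13.perm_reindex (H13.pad _ (permM W v)) ε ε

end Pool.Agent.Lib.MP_8b1d3b_lc.CD
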