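import Pool.Agent.Lib.MP_8b1d3b_lc.CD.Circ
import Pool.Agent.Lib.MP_8b1d3b_lc.CD.Perm
import Pool.Agent.Lib.MP_8b1d3b_lc.CD.Num
import Pool.Agent.Lib.MP_8b1d3b_lc.CD.Low

/-! Exponential lower bound for circuits of bounded product depth. -/

namespace Pool.Agent.Lib.MP_8b1d3b_lc.CD

open Finset MvPolynomial

section

variable {ι K : Type} [Field K]

theorem exists_shift [CharZero K] {m : ℕ} (p : Fin m → MvPolynomial ι K) :
    ∃ a : ι → K, ∀ i, p i ≠ 0 → eval a (p i) ≠ 0 := by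
  classical
  by_contra hcon
  push Not at hcon
  have h : ∏ i ∈ univ.filter (fun i => p i ≠ 0), p i = 0 := by
    apply MvPolynomial.funext
    intro a
    obtain ⟨i, h1, h2⟩ := hcon a
    rw [map_prod, map_zero]
    exact prod_eq_zero (mem_filter.2 ⟨mem_univ _, h1⟩) h2
  exact prod_ne_zero_iff.2 (fun i hi => (mem_filter.1 hi).2) h

variable [DecidableEq ι]

/-- Shift of the variables followed by reduction modulo their squares. -/
noncomputable def sh (a : ι → K) : MvPolynomial ι K →ₐ[K] SQ ι K :=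
  aeval fun v => algebraMap K (SQ ι K) (a v) + var v

theorem sh_empty (a : ι → K) (p : MvPolynomial ι K) : (sh a p : SQ ι K) ∅ = eval a p := by
  induction p using MvPolynomial.induction_on with
  | C c => simp [sh, SQ.algebraMap_apply]
  | add p q hp hq => rw [map_add, map_add, SQ.add_apply, hp, hq]
  | mul_X p v hp =>
    rw [map_mul, map_mul, mul_empty, hp]
    simp [sh, SQ.algebraMap_apply, var, (Finset.singleton_ne_empty v).symm]

theorem hi_eq_zero {g : SQ ι K} {k : ℕ} : hi k g = 0 ↔ ∀ s : Finset ι, k ≤ s.card → g s = 0 := by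
  refine ⟨fun h s hs => ?_, fun h => SQ.ext fun s => ?_⟩
  · rw [← res_pos (p := fun s => k ≤ s.card) g hs]
    exact congrFun h s
  · by_cases hs : k ≤ s.card
    · exact (res_pos g hs).trans (h s hs)
    · exact res_neg g hs

/-- The polynomials whose shifts have no part of degree at least two. -/
def aff (ι K : Type) [Field K] [DecidableEq ι] : Submodule K (MvPolynomial ι K) where
  carrier := {p | ∀ (a : ι → K) (s : Finset ι), 2 ≤ s.card → (sh a p : SQ ι K) s = 0}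
  zero_mem' a s _ := by simp
  add_mem' hp hq a s hs := by rw [map_add, SQ.add_apply, hp a s hs, hq a s hs, add_zero]
  smul_mem' c p hp a s hs := by rw [map_smul, SQ.smul_apply, hp a s hs, mul_zero]

theorem one_mem_aff : (1 : MvPolynomial ι K) ∈ aff ι K := fun a s hs => by
  rw [map_one, SQ.one_apply, if_neg]
  rintro rfl
  simp at hs

theorem X_mem_aff (v : ι) : (X v : MvPolynomial ι K) ∈ aff ι K := fun a s hs => by
  have h1 : s ≠ ∅ := by
    rintro rfl
    simp at hs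
  have h2 : s ≠ {v} := by
    rintro rfl
    simp at hs
  simp [sh, SQ.algebraMap_apply, var, h1, h2]

end

theorem sh_path {K : Type} [Field K] {d q : ℕ} (a : Fin (d + 1) × Fin q → K)
    (ε : Fin d → Fin q → Fin q → ℤˣ) (w : Fin (d + 1) → Fin q)
    (u : Finset (Fin (d + 1) × Fin q)) (hu : u.card = d + 1) :
    (sh a ((∏ t : Fin d, ((ε t (w t.castSucc) (w t.succ) : ℤ) : K) •
        X (t.castSucc, w t.castSucc)) * X (Fin.last d, w (Fin.last d))) : SQ _ K) u =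
      if u = im w then (sgn ε w : K) else 0 := by
  have h1 : Set.InjOn (fun t => (t, w t)) (univ : Finset (Fin (d + 1))) :=
    fun s _ t _ h => congrArg Prod.fst h
  have h2 : (im w).card = d + 1 := by rw [im, card_image_of_injOn h1]; simp
  have h3 := prod_shift a (im w) u (hu.trans h2.symm)
  rw [im, prod_image h1, Fin.prod_univ_castSucc] at h3
  rw [prod_smul, smul_mul_assoc, map_smul, SQ.smul_apply, map_mul, map_prod]
  simp only [sh, aeval_X]
  rw [h3, im, sgn]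
  push_cast
  split_ifs <;> simp

theorem final {m n N Δ t : ℕ} {φ Z : ℝ} (hm : 1 ≤ m) (hn : 324 ≤ n) (hN : N ≤ n) (hZ : 0 < Z)
    (hφ : φ ≤ 5 / 2)
    (h : Z ≤ 9 * (((5 * m ^ 2 * (N : ℝ) ^ 8) ^ Δ - 1) * (Real.exp (φ - t) * Z))) :
    2 ^ t ≤ (m * n ^ 5) ^ (2 * Δ) := by
  rcases Nat.eq_zero_or_pos Δ with rfl | hΔ
  · simp at h
    linarith
  have e1 : Real.exp (5 / 2) ≤ 13 := by
    have h1 : Real.exp (5 / 2) ^ 2 = Real.exp 1 ^ 5 := by
      rw [← Real.exp_nat_mul, ← Real.exp_nat_mul]; norm_num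
    have h2 : Real.exp 1 ^ 5 ≤ 2.7182818286 ^ 5 :=
      pow_le_pow_left₀ (Real.exp_pos 1).le Real.exp_one_lt_d9.le 5
    refine (pow_le_pow_iff_left₀ (Real.exp_pos _).le (by norm_num) two_ne_zero).1 ?_
    rw [h1]
    exact h2.trans (by norm_num)
  have e2 : (2 : ℝ) ^ t ≤ Real.exp t := by
    rw [← mul_one (t : ℝ), Real.exp_nat_mul]
    exact pow_le_pow_left₀ (by norm_num) (by linarith [Real.add_one_le_exp 1]) t
  have e3 : Real.exp (φ - t) * 2 ^ t ≤ 13 := by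
    calc _ ≤ Real.exp (φ - t) * Real.exp t := by gcongr
      _ = Real.exp φ := by rw [← Real.exp_add]; ring_nf
      _ ≤ 13 := (Real.exp_le_exp.2 hφ).trans e1
  set Q : ℝ := (5 * m ^ 2 * (N : ℝ) ^ 8) ^ Δ with hQ
  have hQ0 : 0 ≤ Q := by positivity
  have e4 : 1 ≤ 9 * (Q * Real.exp (φ - t)) := by
    have h1 := Real.exp_pos (φ - t)
    refine le_of_mul_le_mul_right ?_ hZ
    nlinarith [mul_pos h1 hZ]
  have e5 : (2 : ℝ) ^ t ≤ 117 * Q := by
    have h1 : (0 : ℝ) < 2 ^ t := by positivity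
    nlinarith [mul_le_mul_of_nonneg_left e3 hQ0, mul_le_mul_of_nonneg_left e4 h1.le]
  have e6 : (117 : ℝ) ≤ 117 ^ Δ := le_self_pow₀ (by norm_num) hΔ.ne'
  have e7 : (117 : ℝ) * (5 * m ^ 2 * (N : ℝ) ^ 8) ≤ (m * n ^ 5) ^ 2 := by
    have h1 : (324 : ℝ) ≤ n := by exact_mod_cast hn
    have h2 : (N : ℝ) ^ 8 ≤ n ^ 8 := by gcongr
    have h3 : (585 : ℝ) ≤ n ^ 2 := by nlinarith
    calc _ = (m : ℝ) ^ 2 * (585 * N ^ 8) := by ring
      _ ≤ m ^ 2 * (n ^ 2 * n ^ 8) := by gcongr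
      _ = _ := by ring
  have e8 : (2 : ℝ) ^ t ≤ (m * n ^ 5) ^ (2 * Δ) := by
    calc _ ≤ 117 * Q := e5
      _ ≤ 117 ^ Δ * Q := by gcongr
      _ = (117 * (5 * m ^ 2 * (N : ℝ) ^ 8)) ^ Δ := by rw [hQ, ← mul_pow]
      _ ≤ ((m * n ^ 5) ^ 2) ^ Δ := by gcongr
      _ = _ := by rw [← pow_mul]
  exact_mod_cast e8

theorem main (K : Type) [Field K] [CharZero K] (n m Δ t : ℕ) (ht : 0 < t)
    (hn : (18 * t) ^ (2 * Nat.fib (2 * Δ + 2)) ≤ n * t ^ 2)
    (g : Fin m → MvPolynomial (Fin n × Fin n) K) (δ : Fin m → ℕ)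
    (hg : ∀ i, (∃ v, g i = X v) ∨ (∃ c, g i = C c) ∨
      (∃ a : Fin m → K, (∀ j, a j ≠ 0 → j < i ∧ δ j ≤ δ i) ∧ g i = ∑ j, a j • g j) ∨
      ∃ e : Fin m → ℕ, (∀ j, e j ≠ 0 → j < i ∧ δ j < δ i) ∧ g i = ∏ j, g j ^ e j)
    (i : Fin m) (hi : δ i ≤ Δ)
    (h : g i = Matrix.permanent (Matrix.of fun r c : Fin n => X (r, c))) :
    2 ^ t ≤ (m * n ^ 5) ^ (2 * Δ) := by
  obtain ⟨θ, hθ1, hθ2, x, hx, hsl, hxb⟩ := slope t Δ ht
  obtain ⟨Φ, h0, h1, h2, h3⟩ := exists_word hθ1 hθ2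
  obtain ⟨d, hd⟩ : ∃ d, x (2 * Δ) = d + 1 := ⟨x (2 * Δ) - 1, by have := hx (2 * Δ); omega⟩
  have hd1 : 1 ≤ d := by have := hx (2 * Δ); omega
  have hn' : 81 * (d + 1) ^ 2 ≤ n := by
    refine Nat.le_of_mul_le_mul_right ?_ (pow_pos ht 2)
    rw [mul_comm 2 (Nat.fib _), pow_mul] at hn
    refine le_trans ?_ ((Nat.pow_le_pow_left hxb 2).trans hn)
    rw [hd]
    exact le_of_eq (by ring)
  have hN : (d + 1) * (80 * (d + 1)) + 1 ≤ n := by nlinarith
  obtain ⟨ε, hε⟩ := lower K d (80 * (d + 1)) le_rfl Φ h0 h1 h2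
    (fun t => by rcases h3 t with h | h <;> linarith)
  obtain ⟨A, hA, hper⟩ := exists_path (aff (Fin (d + 1) × Fin (80 * (d + 1))) K).toAddSubgroup hN
    (fun t i j => ((ε t i j : ℤ) : K) • X (t.castSucc, i)) (fun i => X (Fin.last d, i))
    one_mem_aff (fun t i j => Submodule.smul_mem _ _ (X_mem_aff _)) (fun i => X_mem_aff _)
  let σ : MvPolynomial (Fin n × Fin n) K →ₐ[K] _ := aeval fun rc => A rc.1 rc.2
  obtain ⟨a, ha⟩ := exists_shift fun j => σ (g j)
  have hω : ∀ v, om (d := d) (80 * (d + 1)) Φ v = 1 ∨ om (80 * (d + 1)) Φ v = -θ := fun v => h3 _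
  have hx0 : ∀ j, (0 : ℝ) < x j := fun j => by have := hx j; positivity
  have hc := circ (ω := om (80 * (d + 1)) Φ) (e₀ := (d + 1, Φ (d + 1)))
    (fun j => sh a (σ (g j))) δ (fun j => by
      by_cases hj : σ (g j) = 0
      · exact Or.inl (by rw [hj, map_zero])
      · exact Or.inr (by rw [sh_empty]; exact ha j hj))
    (fun j => by
      rcases hg j with ⟨v, hv⟩ | ⟨c, hc⟩ | ⟨b, hb1, hb2⟩ | ⟨e, he1, he2⟩
      · refine Or.inl (hi_eq_zero.2 ?_)
        rw [hv, aeval_X]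
        exact hA _ _ a
      · refine Or.inl (hi_eq_zero.2 ?_)
        rw [hc, C_eq_smul_one, map_smul, map_one]
        exact Submodule.smul_mem _ c one_mem_aff a
      · exact Or.inr (Or.inl ⟨b, hb1, by rw [hb2]; simp only [map_sum, map_smul]⟩)
      · exact Or.inr (Or.inr ⟨e, he1, by rw [he2]; simp only [map_prod, map_pow]⟩))
    x (fun j => 2 * t / x (j + 1)) Δ (Γ := t) hx (fun j => by positivity)
    (fun j hj s hs => by
      obtain ⟨i, l, e1, e2⟩ := sum_two hω s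
      have e3 := hsl j hj i l (e1 ▸ hs)
      rw [e2, ← e1, div_mul_eq_mul_div, div_le_iff₀ (hx0 _), mul_comm _ (x (j + 1) : ℝ)]
      exact_mod_cast e3)
    (fun j _ => le_of_eq (by field_simp [(hx0 (j + 1)).ne'])) (card_dgs hω) (h1 _) Δ le_rfl i hi
  have hl := hε (sh a (σ (g i))) fun u hu => by
    have e1 : σ (g i) = A.permanent := by
      rw [h]
      simp [σ, Matrix.permanent]
    rw [e1, hper, map_sum, SQ.sum_apply]
    exact sum_congr rfl fun w _ => sh_path a ε w u hu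
  have hm := hl.trans (mul_le_mul_of_nonneg_left (hc.mu_le hd.le) (by norm_num))
  refine final (N := (d + 1) * (80 * (d + 1)) + 1) (Nat.one_le_of_lt i.2) (by nlinarith) hN
    (ZZ_pos (om (d := d) (80 * (d + 1)) Φ)) (h2 (d + 1)) ?_
  simpa using hm

end Pool.Agent.Lib.MP_8b1d3b_lc.CD
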