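import Pool.Agent.Lib.MP_8b1d3b_lc.H13Perm

/-! Two constant rows on each group of four columns force one colour on the group. -/

namespace Pool.Agent.Lib.MP_8b1d3b_lc.CD

open Finset

/-- The matrix: `h` is one half. -/
def bellM {S : Type} [CommRing S] {u : ℕ} (h : S) (Y : Fin u × Bool → (Fin u × Bool) × Bool → S) :
    (Fin u × Bool) × Bool → (Fin u × Bool) ⊕ (Fin u × Bool) → S
  | c, Sum.inl t => Y t c
  | c, Sum.inr r => if c.1.1 = r.1 then
      (if r.2 then h else 1) * (if c.2 ∧ (c.1.2 = r.2) then -1 else 1) else 0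

theorem bell_id {S A : Type} [CommRing S] [CommRing A] [Algebra S A] {u : ℕ} {h : S}
    (hh : 2 * h = 1) (Y : Fin u × Bool → (Fin u × Bool) × Bool → S)
    (z : (Fin u × Bool) × Bool → A) (hz : ∀ c, z c * z c = 0) :
    ∏ r, ∑ c, bellM h Y c r • z c = (∑ w : Equiv.Perm (Fin u × Bool) × (Fin u → Bool),
      ∏ t, Y t (w.1 t, w.2 (w.1 t).1)) • ∏ c, z c := by
  have e1 : ∀ g : Fin u, ∏ j : Bool, ∑ c, bellM h Y c (Sum.inr (g, j)) • z c =
      ∑ b : Bool, ∏ j : Bool, z ((g, j), !b) := fun g => by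
    have e : 2 * algebraMap S A h = 1 := by
      rw [← map_one (algebraMap S A), ← hh, map_mul, map_ofNat]
    have e' : ∀ j, ∑ c, bellM h Y c (Sum.inr (g, j)) • z c =
        ∑ a, ∑ b, bellM h Y ((g, a), b) (Sum.inr (g, j)) • z ((g, a), b) := fun j => by
      rw [Fintype.sum_prod_type, Fintype.sum_prod_type]
      exact sum_eq_single g (fun k _ hk => by simp [bellM, hk]) (by simp)
    rw [prod_congr rfl fun j _ => e' j]
    simp [bellM, Algebra.smul_def]
    linear_combination (z ((g, true), false) * z ((g, false), false) +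
      z ((g, true), true) * z ((g, false), true)) * e +
      algebraMap S _ h * (hz ((g, true), false) + hz ((g, false), false) - hz ((g, true), true) -
        hz ((g, false), true))
  rw [Fintype.prod_sum_type, Fintype.prod_prod_type (fun r => ∑ c, bellM h Y c (Sum.inr r) • z c)]
  simp only [e1]
  rw [prod_univ_sum (fun _ => univ) (fun (g : Fin u) (b : Bool) => ∏ j : Bool, z ((g, j), !b)),
    Fintype.piFinset_univ, mul_sum, Fintype.sum_prod_type_right, sum_smul]
  refine sum_congr rfl fun s _ => ?_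
  rw [← Fintype.prod_prod_type (fun r : Fin u × Bool => z (r, !s r.1)), mul_comm,
    mul_prod_congr (β := fun t => ∑ r, (Matrix.of fun r t => Y t (r, s r.1)) r t • z (r, s r.1)),
    prod_sum_smul_eq_permanent _ fun r => hz _, mul_smul_comm, ← prod_mul_distrib,
    Fintype.prod_prod_type z]
  · congr 1
    refine prod_congr rfl fun r _ => ?_
    cases s r.1 <;> simp [mul_comm]
  · intro t _
    rw [Fintype.sum_prod_type, mul_sum, mul_sum]
    refine sum_congr rfl fun r _ => ?_
    have e2 := prod_mul_eq_zero (x := fun r : Fin u × Bool => z (r, !s r.1)) (fun r => hz _)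
      (mem_univ r)
    cases e : s r.1 <;> simp only [e, Bool.not_true, Bool.not_false] at e2 <;>
      simp [e, bellM, mul_add, e2]

theorem perm_bellM {S : Type} [CommRing S] {u : ℕ} {h : S} (hh : 2 * h = 1)
    (Y : Fin u × Bool → (Fin u × Bool) × Bool → S) :
    H13.perm (bellM h Y) = ∑ w : Equiv.Perm (Fin u × Bool) × (Fin u → Bool),
      ∏ t, Y t (w.1 t, w.2 (w.1 t).1) :=
  H13.perm_eq_of (by simp; ring) _ _ fun _ z hz => bell_id hh Y z hz

theorem exists_bell {K S : Type} [Field K] [CharZero K] [CommRing S] [Algebra K S]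
    (V : Submodule K S) {u n : ℕ} (hn : 4 * u ≤ n) (Y : Fin u × Bool → (Fin u × Bool) × Bool → S)
    (h1 : (1 : S) ∈ V) (hY : ∀ t c, Y t c ∈ V) :
    ∃ A : Matrix (Fin n) (Fin n) S, (∀ r s, A r s ∈ V) ∧
      A.permanent = ∑ w : Equiv.Perm (Fin u × Bool) × (Fin u → Bool),
        ∏ t, Y t (w.1 t, w.2 (w.1 t).1) := by
  have hh : 2 * ((2⁻¹ : K) • (1 : S)) = 1 := by
    rw [two_mul, ← add_smul]
    norm_num
  have c1 : Fintype.card (Fin n) = Fintype.card (((Fin u × Bool) × Bool) ⊕ Fin (n - 4 * u)) := by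
    simp
    omega
  have c2 : Fintype.card (Fin n) =
      Fintype.card (((Fin u × Bool) ⊕ (Fin u × Bool)) ⊕ Fin (n - 4 * u)) := by
    simp
    omega
  have hi : ∀ (p : Prop) [Decidable p] {a b : S}, a ∈ V → b ∈ V → (if p then a else b) ∈ V :=
    fun p _ a b ha hb => ite_mem.2 ⟨fun _ => ha, fun _ => hb⟩
  refine ⟨Matrix.of fun r s => H13.pad _ (bellM ((2⁻¹ : K) • 1) Y)
    (Fintype.equivOfCardEq c1 r) (Fintype.equivOfCardEq c2 s), fun r s => ?_, ?_⟩
  · simp only [Matrix.of_apply]
    rcases Fintype.equivOfCardEq c1 r with r | r <;>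
      rcases Fintype.equivOfCardEq c2 s with (s | s) | s
    any_goals exact V.zero_mem
    · exact hY _ _
    · refine hi _ ?_ V.zero_mem
      have h2 := hi (s.2 = true) (V.smul_mem (2⁻¹ : K) h1) h1
      rw [mul_ite, mul_neg, mul_one]
      exact hi _ (V.neg_mem h2) h2
    · exact hi _ h1 V.zero_mem
  · rw [← H13.perm_eq_permanent, ← perm_bellM hh,
      ← H13.perm_pad (Fin (n - 4 * u)) (by simp; ring) (bellM _ Y)]
    exact H13.perm_reindex (H13.pad _ (bellM _ Y)) _ _

end Pool.Agent.Lib.MP_8b1d3b_lc.CD
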