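import Pool.Agent.Lib.MP_8b1d3b_lc.CD.Main
import Pool.Agent.Lib.MP_8b1d3b_lc.CD.Low2
import Pool.Agent.Lib.MP_8b1d3b_lc.CD.Perm2

/-! The lower bound with degree linear in the side of the matrix. -/

namespace Pool.Agent.Lib.MP_8b1d3b_lc.CD

open Finset MvPolynomial

theorem card_dgs_mul {ι : Type} [Fintype ι] {ω : ι → ℝ} {θ c : ℝ} (hc : c ≠ 0)
    (h : ∀ i, c * ω i = 1 ∨ c * ω i = -θ) : (dgs ω).card ≤ (Fintype.card ι + 1) ^ 2 := by
  classical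
  refine le_trans ?_ (card_dgs (ω := fun i => c * ω i) h)
  refine card_le_card_of_injOn (fun e => (e.1, c * e.2)) (fun e he => ?_) fun e _ e' _ h1 => ?_
  · obtain ⟨s, -, rfl⟩ := mem_image.1 (mem_coe.1 he)
    exact mem_coe.2 (mem_image.2 ⟨s, mem_univ _, by simp [dg, mul_sum]⟩)
  · exact Prod.ext (Prod.ext_iff.1 h1).1 (mul_left_cancel₀ hc (Prod.ext_iff.1 h1).2)

theorem sh_im2 {K : Type} [Field K] {u : ℕ} (a : (Fin u × Bool) × (Fin u × Bool) × Bool → K)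
    (w : Equiv.Perm (Fin u × Bool) × (Fin u → Bool))
    (v : Finset ((Fin u × Bool) × (Fin u × Bool) × Bool)) (hv : v.card = 2 * u) :
    (sh a (∏ t, X (t, w.1 t, w.2 (w.1 t).1)) : SQ _ K) v = if v = im2 w then 1 else 0 := by
  have h1 : Set.InjOn (fun t => (t, w.1 t, w.2 (w.1 t).1)) (univ : Finset (Fin u × Bool)) :=
    fun s _ t _ h => congrArg Prod.fst h
  have h2 : (im2 w).card = 2 * u := by rw [im2, card_image_of_injOn h1]; simp [mul_comm]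
  have h3 := prod_shift a (im2 w) v (hv.trans h2.symm)
  rw [im2, prod_image h1] at h3
  rw [map_prod]
  simp only [sh, aeval_X]
  rw [h3, im2]

theorem final2 {m n b N L Δ t : ℕ} {φ Z : ℝ} (hm : 1 ≤ m) (hn : 2 * b ≤ n) (hb : 1 ≤ b)
    (hN : N ≤ b ^ 2) (hL : L ≤ b) (hZ : 0 < Z) (hφ : φ ≤ 1 / 2)
    (h : Z ≤ L ^ 2 * (((5 * m ^ 2 * (N : ℝ) ^ 8) ^ Δ - 1) * (Real.exp (φ - t) * Z))) :
    2 ^ t ≤ (m * n ^ 9) ^ (2 * Δ) := by
  rcases Nat.eq_zero_or_pos Δ with rfl | hΔ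
  · simp at h
    linarith
  have e1 : Real.exp (1 / 2) ≤ 2 := by
    have h1 : Real.exp (1 / 2) ^ 2 = Real.exp 1 := by
      rw [← Real.exp_nat_mul]; norm_num
    refine (pow_le_pow_iff_left₀ (Real.exp_pos _).le (by norm_num) two_ne_zero).1 ?_
    rw [h1]
    exact Real.exp_one_lt_d9.le.trans (by norm_num)
  have e2 : (2 : ℝ) ^ t ≤ Real.exp t := by
    rw [← mul_one (t : ℝ), Real.exp_nat_mul]
    exact pow_le_pow_left₀ (by norm_num) (by linarith [Real.add_one_le_exp 1]) t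
  have e3 : Real.exp (φ - t) * 2 ^ t ≤ 2 := by
    calc _ ≤ Real.exp (φ - t) * Real.exp t := by gcongr
      _ = Real.exp φ := by rw [← Real.exp_add]; ring_nf
      _ ≤ 2 := (Real.exp_le_exp.2 hφ).trans e1
  set Q : ℝ := (5 * m ^ 2 * (N : ℝ) ^ 8) ^ Δ with hQ
  have hQ0 : 0 ≤ Q := by positivity
  have hb1 : (1 : ℝ) ≤ b := by exact_mod_cast hb
  have hL1 : (L : ℝ) ^ 2 ≤ b ^ 2 := by gcongr
  have h1 := Real.exp_pos (φ - t)
  have e4 : 1 ≤ b ^ 2 * Q * Real.exp (φ - t) := by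
    refine le_of_mul_le_mul_right ?_ hZ
    calc 1 * Z = Z := one_mul _
      _ ≤ _ := h
      _ ≤ L ^ 2 * (Q * (Real.exp (φ - t) * Z)) := by gcongr; linarith
      _ ≤ b ^ 2 * (Q * (Real.exp (φ - t) * Z)) := by gcongr
      _ = _ := by ring
  have e5 : (2 : ℝ) ^ t ≤ 2 * b ^ 2 * Q := by
    calc (2 : ℝ) ^ t = 1 * 2 ^ t := (one_mul _).symm
      _ ≤ b ^ 2 * Q * Real.exp (φ - t) * 2 ^ t := by gcongr
      _ = b ^ 2 * Q * (Real.exp (φ - t) * 2 ^ t) := by ring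
      _ ≤ b ^ 2 * Q * 2 := by gcongr
      _ = _ := by ring
  have e6 : (2 * b ^ 2 : ℝ) ≤ (2 * b ^ 2) ^ Δ := le_self_pow₀ (by nlinarith) hΔ.ne'
  have e7 : (2 * b ^ 2 : ℝ) * (5 * m ^ 2 * (N : ℝ) ^ 8) ≤ (m * n ^ 9) ^ 2 := by
    have h2 : (2 * b : ℝ) ≤ n := by exact_mod_cast hn
    have h3 : (N : ℝ) ≤ b ^ 2 := by exact_mod_cast hN
    calc _ ≤ (2 * b ^ 2 : ℝ) * (5 * m ^ 2 * (b ^ 2) ^ 8) := by gcongr
      _ = (m : ℝ) ^ 2 * (10 * b ^ 18) := by ring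
      _ ≤ m ^ 2 * (2 ^ 18 * b ^ 18) := by gcongr; norm_num
      _ = m ^ 2 * (2 * b) ^ 18 := by ring
      _ ≤ m ^ 2 * n ^ 18 := by gcongr
      _ = _ := by ring
  have e8 : (2 : ℝ) ^ t ≤ (m * n ^ 9) ^ (2 * Δ) := by
    calc _ ≤ 2 * b ^ 2 * Q := e5
      _ ≤ (2 * b ^ 2) ^ Δ * Q := by gcongr
      _ = (2 * b ^ 2 * (5 * m ^ 2 * (N : ℝ) ^ 8)) ^ Δ := by rw [hQ, ← mul_pow]
      _ ≤ ((m * n ^ 9) ^ 2) ^ Δ := by gcongr
      _ = _ := by rw [← pow_mul]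
  exact_mod_cast e8

theorem main2 (K : Type) [Field K] [CharZero K] (n m Δ t : ℕ) (ht : 0 < t)
    (hn : (108 * t) ^ Nat.fib (2 * Δ + 2) ≤ 9 * n * t)
    (g : Fin m → MvPolynomial (Fin n × Fin n) K) (δ : Fin m → ℕ)
    (hg : ∀ i, (∃ v, g i = X v) ∨ (∃ c, g i = C c) ∨
      (∃ a : Fin m → K, (∀ j, a j ≠ 0 → j < i ∧ δ j ≤ δ i) ∧ g i = ∑ j, a j • g j) ∨
      ∃ e : Fin m → ℕ, (∀ j, e j ≠ 0 → j < i ∧ δ j < δ i) ∧ g i = ∏ j, g j ^ e j)
    (i : Fin m) (hi : δ i ≤ Δ)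
    (h : g i = Matrix.permanent (Matrix.of fun r c : Fin n => X (r, c))) :
    2 ^ t ≤ (m * n ^ 9) ^ (2 * Δ) := by
  obtain ⟨θ, hθ1, hθ2, x, hx, hsl, hxb⟩ := slope (6 * t) Δ (by omega)
  obtain ⟨Φ, h0, h1, h2, h3⟩ := exists_word hθ1 hθ2
  obtain ⟨u, hu1, hu2⟩ : ∃ u, x (2 * Δ) ≤ 2 * u ∧ u ≤ x (2 * Δ) :=
    ⟨(x (2 * Δ) + 1) / 2, by omega, by omega⟩
  have hu0 : 1 ≤ u := by have := hx (2 * Δ); omega
  have hn' : 6 * x (2 * Δ) ≤ n := by
    refine Nat.le_of_mul_le_mul_right ?_ (show 0 < 9 * t by omega)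
    rw [show 18 * (6 * t) = 108 * t by ring] at hxb
    nlinarith [hxb.trans hn]
  obtain ⟨ρ, hρ, hρs⟩ : ∃ ρ : Fin u × Bool → ℝ, (∀ r, 6 * ρ r = 1 ∨ 6 * ρ r = -θ) ∧
      ∑ r, ρ r = Φ (2 * u) / 6 := by
    refine ⟨fun r => (Φ (2 * r.1 + r.2.toNat + 1) - Φ (2 * r.1 + r.2.toNat)) / 6, fun r => ?_, ?_⟩
    · simpa only [mul_div_cancel₀ _ (show (6 : ℝ) ≠ 0 by norm_num)] using h3 _
    · have e := sum_range_sub (fun k => Φ (2 * k)) u
      rw [mul_zero, h0, sub_zero, ← Fin.sum_univ_eq_sum_range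
        (fun k => Φ (2 * (k + 1)) - Φ (2 * k))] at e
      rw [← e, Fintype.sum_prod_type, sum_div]
      refine sum_congr rfl fun k _ => ?_
      simp only [Fintype.univ_bool, mem_singleton, Bool.true_eq_false, not_false_eq_true,
        sum_insert, sum_singleton, Bool.toNat_true, Bool.toNat_false, add_zero]
      rw [show 2 * (k + 1 : ℕ) = 2 * k + 1 + 1 by ring]
      ring
  obtain ⟨A, hA, hper⟩ := exists_bell (aff ((Fin u × Bool) × (Fin u × Bool) × Bool) K)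
    (show 4 * u ≤ n by omega) (fun r c => X (r, c)) one_mem_aff fun _ _ => X_mem_aff _
  let σ : MvPolynomial (Fin n × Fin n) K →ₐ[K] _ := aeval fun rc => A rc.1 rc.2
  obtain ⟨a, ha⟩ := exists_shift fun j => σ (g j)
  have hω : ∀ v : (Fin u × Bool) × (Fin u × Bool) × Bool, 6 * ρ v.1 = 1 ∨ 6 * ρ v.1 = -θ :=
    fun v => hρ _
  have hx0 : ∀ j, (0 : ℝ) < x j := fun j => by have := hx j; positivity
  have hs0 : 0 ≤ ∑ r, ρ r := by rw [hρs]; linarith [h1 (2 * u)]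
  have hc := circ (ω := fun v : (Fin u × Bool) × (Fin u × Bool) × Bool => ρ v.1)
    (e₀ := (2 * u, ∑ r, ρ r))
    (fun j => sh a (σ (g j))) δ (fun j => by
      by_cases hj : σ (g j) = 0
      · exact Or.inl (by rw [hj, map_zero])
      · exact Or.inr (by rw [sh_empty]; exact ha j hj))
    (fun j => by
      rcases hg j with ⟨v, hv⟩ | ⟨c, hc⟩ | ⟨b, hb1, hb2⟩ | ⟨e, he1, he2⟩
      · refine Or.inl (hi_eq_zero.2 ?_)
        rw [hv, aeval_X]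
        exact hA _ _ a
      · refine Or.inl (hi_eq_zero.2 ?_)
        rw [hc, C_eq_smul_one, map_smul, map_one]
        exact Submodule.smul_mem _ c one_mem_aff a
      · exact Or.inr (Or.inl ⟨b, hb1, by rw [hb2]; simp only [map_sum, map_smul]⟩)
      · exact Or.inr (Or.inr ⟨e, he1, by rw [he2]; simp only [map_prod, map_pow]⟩))
    x (fun j => 2 * t / x (j + 1)) Δ (Γ := t) hx (fun j => by positivity)
    (fun j hj s hs => by
      obtain ⟨i, l, e1, e2⟩ := sum_two hω s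
      have e3 := hsl j hj i l (e1 ▸ hs)
      rw [← mul_sum] at e2
      rw [← e2, abs_mul, abs_of_pos (show (0 : ℝ) < 6 by norm_num)] at e3
      rw [← e1, div_mul_eq_mul_div, div_le_iff₀ (hx0 _)]
      push_cast at e3 ⊢
      linarith)
    (fun j _ => le_of_eq (by field_simp [(hx0 (j + 1)).ne'])) (card_dgs_mul (by norm_num) hω) hs0
    Δ le_rfl i hi
  have hl := lower2 K u ρ (fun r => by
      rw [abs_le]
      rcases hρ r with e | e <;> constructor <;> linarith) hs0 (sh a (σ (g i))) fun v hv => by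
    have e1 : σ (g i) = A.permanent := by
      rw [h]
      simp [σ, Matrix.permanent]
    rw [e1, hper, map_sum, SQ.sum_apply]
    exact sum_congr rfl fun w _ => sh_im2 a w v hv
  have hm := hl.trans (mul_le_mul_of_nonneg_left (hc.mu_le hu1) (by positivity))
  refine final2 (b := 3 * u) (N := u * 2 * (u * 2 * 2) + 1) (L := 2 * u + 1) (φ := ∑ r, ρ r)
    (Nat.one_le_of_lt i.2) (by omega) (by omega) (by nlinarith) (by omega)
    (ZZ_pos fun v : (Fin u × Bool) × (Fin u × Bool) × Bool => ρ v.1)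
    (by rw [hρs]; linarith [h2 (2 * u)]) ?_
  simpa using hm

end Pool.Agent.Lib.MP_8b1d3b_lc.CD
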